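import Pool.Agent.Lib.CR5.SpecB

/-!
# CR5: the commutator of `L j` and `Ls k`
-/

open MeasureTheory Set Filter Topology
open scoped ENNReal ComplexConjugate

noncomputable section

namespace Pool.Agent.CR5

theorem pBCm : S_BCm := by
  intro hC a ha j k g hg x
  have h1 : Ls a k g = fun y => -Lb a k g y - dv a k y * g y := by
    funext y
    exact Ls_eq ha hg k y
  have h2 : L a j (Ls a k g) x
      = -L a j (Lb a k g) x - (dv a k x * L a j g x + L a j (dv a k) x * g x) := by
    rw [h1, L_sub (hg.Lb ha k).neg ((Sm.dv ha k).mul hg), L_neg, L_mul (Sm.dv ha k) hg]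
  have h3 : Ls a k (L a j g) x = -Lb a k (L a j g) x - dv a k x * L a j g x :=
    Ls_eq ha (hg.L ha j) k x
  have h4 := hC a ha j k g hg x
  rw [h2, h3]
  linear_combination -h4

end Pool.Agent.CR5
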