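import Pool.Agent.Lib.CR5.SpecB

/-!
# CR5, block B: the identities for the quadratic form (`S_BId`)
-/

open MeasureTheory Set Filter Topology
open scoped ENNReal ComplexConjugate

noncomputable section

namespace Pool.Agent.CR5

namespace BBId

theorem nrm2 (f : E5 → ℂ) : (∫ x, ‖f x‖ ^ 2) = (∫ x, f x * conj (f x)).re := by
  have h : ∀ x, f x * conj (f x) = ((‖f x‖ ^ 2 : ℝ) : ℂ) := by
    intro x; rw [Complex.mul_conj']; push_cast; rfl
  have h2 : (∫ x, f x * conj (f x)) = (((∫ x, ‖f x‖ ^ 2 : ℝ)) : ℂ) := by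
    simp only [h]
    exact integral_ofReal (𝕜 := ℂ) (f := fun x : E5 => ‖f x‖ ^ 2)
  rw [h2]; exact (Complex.ofReal_re _).symm

theorem re_conj {f g : E5 → ℂ} :
    (∫ x, f x * conj (g x)).re = (∫ x, g x * conj (f x)).re := by
  have h : ∀ x, f x * conj (g x) = conj (g x * conj (f x)) := by
    intro x; simp [mul_comm]
  simp only [h]
  rw [integral_conj]; exact Complex.conj_re _

theorem int_mul_conj {f g : E5 → ℂ} (hf : Tst f) (hg : Tst g) :
    Integrable (fun x => f x * conj (g x)) volume :=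
  (Tst.mul_left hf.sm hg.conj).integrable

theorem expand_add {f g : E5 → ℂ} (hf : Tst f) (hg : Tst g) :
    (∫ x, ‖f x + g x‖ ^ 2) = (∫ x, ‖f x‖ ^ 2) + (∫ x, ‖g x‖ ^ 2)
      + 2 * (∫ x, f x * conj (g x)).re := by
  have e : ∀ x, (f x + g x) * conj (f x + g x)
      = (f x * conj (f x) + g x * conj (g x)) + (f x * conj (g x) + g x * conj (f x)) := by
    intro x; rw [map_add]; ring
  rw [nrm2 (fun x => f x + g x), nrm2 f, nrm2 g]
  simp only [e]
  have i1 : Integrable (fun x => f x * conj (f x) + g x * conj (g x)) volume :=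
    (int_mul_conj hf hf).add (int_mul_conj hg hg)
  have i2 : Integrable (fun x => f x * conj (g x) + g x * conj (f x)) volume :=
    (int_mul_conj hf hg).add (int_mul_conj hg hf)
  rw [integral_add i1 i2,
    integral_add (int_mul_conj hf hf) (int_mul_conj hg hg),
    integral_add (int_mul_conj hf hg) (int_mul_conj hg hf)]
  simp only [Complex.add_re]
  rw [re_conj (f := g) (g := f)]; ring

theorem expand_sub {f g : E5 → ℂ} (hf : Tst f) (hg : Tst g) :
    (∫ x, ‖f x - g x‖ ^ 2) = (∫ x, ‖f x‖ ^ 2) + (∫ x, ‖g x‖ ^ 2)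
      - 2 * (∫ x, f x * conj (g x)).re := by
  have h := expand_add hf hg.neg
  have e1 : ∀ x, f x + -g x = f x - g x := fun x => (sub_eq_add_neg _ _).symm
  have e2 : ∀ x, ‖-g x‖ ^ 2 = ‖g x‖ ^ 2 := fun x => by rw [norm_neg]
  have e3 : ∀ x, f x * conj (-g x) = -(f x * conj (g x)) := fun x => by rw [map_neg]; ring
  simp only [e1, e2, e3] at h
  rw [integral_neg, Complex.neg_re] at h
  rw [h]; ring

end BBId

open BBId

theorem pBId : S_BId := by
  intro a ha
  refine ⟨?_, ?_⟩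
  · intro w hw
    have hA : Tst (L a 0 (w 1)) := (hw 1).L ha 0
    have hB : Tst (L a 1 (w 0)) := (hw 0).L ha 1
    have hC : Tst (Ls a 0 (w 0)) := (hw 0).Ls ha 0
    have hD : Tst (Ls a 1 (w 1)) := (hw 1).Ls ha 1
    have e0 : (∫ x, ‖D0s a w x‖ ^ 2) = (∫ x, ‖Ls a 0 (w 0) x‖ ^ 2)
        + (∫ x, ‖Ls a 1 (w 1) x‖ ^ 2)
        + 2 * (∫ x, Ls a 0 (w 0) x * conj (Ls a 1 (w 1) x)).re := expand_add hC hD
    have e1 : (∫ x, ‖D1 a w x‖ ^ 2) = (∫ x, ‖L a 0 (w 1) x‖ ^ 2)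
        + (∫ x, ‖L a 1 (w 0) x‖ ^ 2)
        - 2 * (∫ x, L a 0 (w 1) x * conj (L a 1 (w 0) x)).re := expand_sub hA hB
    have e2 : (∫ x, Ls a 0 (w 0) x * conj (Ls a 1 (w 1) x))
        = ∫ x, L a 1 (Ls a 0 (w 0)) x * conj (w 1 x) := (ibp_L ha 1 hC.sm (hw 1)).symm
    have e3 : (∫ x, L a 0 (w 1) x * conj (L a 1 (w 0) x)).re
        = (∫ x, Ls a 0 (L a 1 (w 0)) x * conj (w 1 x)).re := by
      rw [ibp_L' ha 0 (hw 1) hB.sm]
      exact re_conj
    have e4 : (∫ x, (L a 1 (Ls a 0 (w 0)) x - Ls a 0 (L a 1 (w 0)) x) * conj (w 1 x))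
        = (∫ x, L a 1 (Ls a 0 (w 0)) x * conj (w 1 x))
          - ∫ x, Ls a 0 (L a 1 (w 0)) x * conj (w 1 x) := by
      have e : ∀ x, (L a 1 (Ls a 0 (w 0)) x - Ls a 0 (L a 1 (w 0)) x) * conj (w 1 x)
          = L a 1 (Ls a 0 (w 0)) x * conj (w 1 x) - Ls a 0 (L a 1 (w 0)) x * conj (w 1 x) := by
        intro x; ring
      simp only [e]
      exact integral_sub (int_mul_conj (hC.L ha 1) (hw 1)) (int_mul_conj (hB.Ls ha 0) (hw 1))
    rw [e0, e1, e2, e3, e4, Complex.sub_re]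
    ring
  · intro j g hg
    have hL : Tst (L a j g) := hg.L ha j
    have hLs : Tst (Ls a j g) := hg.Ls ha j
    have e1 : (∫ x, ‖Ls a j g x‖ ^ 2) = (∫ x, L a j (Ls a j g) x * conj (g x)).re := by
      rw [nrm2 (Ls a j g), ← ibp_L ha j hLs.sm hg]
    have e2 : (∫ x, ‖L a j g x‖ ^ 2) = (∫ x, Ls a j (L a j g) x * conj (g x)).re := by
      rw [nrm2 (L a j g), ibp_L' ha j hg hL.sm]
      exact re_conj
    have e4 : (∫ x, (L a j (Ls a j g) x - Ls a j (L a j g) x) * conj (g x))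
        = (∫ x, L a j (Ls a j g) x * conj (g x)) - ∫ x, Ls a j (L a j g) x * conj (g x) := by
      have e : ∀ x, (L a j (Ls a j g) x - Ls a j (L a j g) x) * conj (g x)
          = L a j (Ls a j g) x * conj (g x) - Ls a j (L a j g) x * conj (g x) := by
        intro x; ring
      simp only [e]
      exact integral_sub (int_mul_conj (hLs.L ha j) hg) (int_mul_conj (hL.Ls ha j) hg)
    rw [e1, e2, e4, Complex.sub_re]
    ring

end Pool.Agent.CR5
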