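import Pool.Agent.Lib.CR5.SpecB

/-!
# CR5, block B: the basic estimate (helper25)
-/

open MeasureTheory Set Filter Topology
open scoped ENNReal ComplexConjugate

noncomputable section

namespace Pool.Agent.CR5

namespace BBas

theorem near_mono {a : Str} {m m' : ℕ} {ε ε' : ℝ} (h : Near a m ε) (h1 : m' ≤ m) (h0 : 0 ≤ ε)
    (h2 : ε ≤ ε') : Near a m' ε' :=
  ⟨h.sm, h.out, fun j l i hi x => (h.bd j l i (hi.trans h1) x).trans (by
    exact pow_le_pow_left₀ h0 h2 2)⟩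

theorem sqi {f : E5 → ℂ} (h : Tst f) : Integrable (fun x => ‖f x‖ ^ 2) volume := by
  have hc : Continuous fun x => ‖f x‖ ^ 2 := h.sm.cont.norm.pow 2
  exact hc.integrable_of_hasCompactSupport
    (h.cs.comp_left (g := fun z : ℂ => ‖z‖ ^ 2) (by simp))

theorem zc_le (j : Fin 2) (x : E5) : ‖zc j x‖ ≤ ‖x‖ := by
  have h1 : ‖x‖ ^ 2 = x 0 ^ 2 + x 1 ^ 2 + x 2 ^ 2 + x 3 ^ 2 + x 4 ^ 2 := by
    rw [EuclideanSpace.norm_sq_eq, Fin.sum_univ_five]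
    simp only [Real.norm_eq_abs, sq_abs]
  have h3 : ∀ u v : ℝ, ‖(u : ℂ) + Complex.I * (v : ℂ)‖ ^ 2 = u ^ 2 + v ^ 2 := by
    intro u v
    rw [mul_comm, ← Complex.normSq_eq_norm_sq, Complex.normSq_add_mul_I]
  have h2 : ‖zc j x‖ ^ 2 ≤ ‖x‖ ^ 2 := by
    unfold zc
    by_cases h : j = 0
    · simp only [h, if_true]
      rw [h3, h1]
      nlinarith [sq_nonneg (x 2), sq_nonneg (x 3), sq_nonneg (x 4)]
    · simp only [h, if_false]
      rw [h3, h1]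
      nlinarith [sq_nonneg (x 0), sq_nonneg (x 1), sq_nonneg (x 4)]
  exact le_of_sq_le_sq h2 (norm_nonneg x)

/-- the coefficients are at most `2` on the unit ball -/
theorem a_le {a : Str} {ε : ℝ} (h : Near a 2 ε) (h0 : 0 ≤ ε) (h1 : ε ≤ 1) (j : Fin 2) (l : Fin 3)
    (x : E5) (hx : ‖x‖ ≤ 1) : ‖a j l x‖ ≤ 2 := by
  have h2 : ‖a j l x - a0 j l x‖ ^ 2 ≤ ε ^ 2 := h.bd j l 0 (by norm_num) x
  have h3 : ‖a j l x - a0 j l x‖ ≤ ε := le_of_sq_le_sq h2 h0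
  have h4 : ‖a0 j l x‖ ≤ 1 := by
    unfold a0
    by_cases h : l = 2
    · simp only [h, if_true]
      rw [norm_neg, norm_mul, Complex.norm_I, one_mul]
      exact (zc_le j x).trans hx
    · simp only [h, if_false]
      simp
  calc ‖a j l x‖ = ‖(a j l x - a0 j l x) + a0 j l x‖ := by rw [sub_add_cancel]
    _ ≤ ‖a j l x - a0 j l x‖ + ‖a0 j l x‖ := norm_add_le _ _
    _ ≤ 2 := by linarith

theorem half_le {u v κ : ℂ} {T : ℝ} (hκ : ‖κ‖ ≤ 1) (hu : ‖u‖ ≤ T) (hv : ‖v‖ ≤ T) :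
    ‖(u + κ * v) / 2‖ ≤ T := by
  have h0 : 0 ≤ T := (norm_nonneg u).trans hu
  rw [norm_div]
  have h1 : ‖u + κ * v‖ ≤ T + 1 * T := by
    refine (norm_add_le _ _).trans (add_le_add hu ?_)
    rw [norm_mul]
    exact mul_le_mul hκ hv (norm_nonneg _) (by norm_num)
  have h2 : ‖(2 : ℂ)‖ = 2 := by simp
  rw [h2, div_le_iff₀ (by norm_num)]
  linarith

theorem db_le {f : E5 → ℂ} {T : ℝ} {x : E5} (h : ∀ i, ‖pd i f x‖ ≤ T) (l : Fin 3) :
    ‖db l f x‖ ≤ T := by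
  rcases fin3_cases l with rfl | rfl | rfl
  · rw [db_zero]
    exact half_le (by simp) (h 0) (h 1)
  · rw [db_one]
    exact half_le (by simp) (h 2) (h 3)
  · rw [db_two]
    exact h 4

theorem dz_le {f : E5 → ℂ} {T : ℝ} {x : E5} (h : ∀ i, ‖pd i f x‖ ≤ T) (l : Fin 3) :
    ‖dz l f x‖ ≤ T := by
  rcases fin3_cases l with rfl | rfl | rfl
  · rw [dz_zero, sub_eq_add_neg, ← neg_mul]
    exact half_le (by simp) (h 0) (h 1)
  · rw [dz_one, sub_eq_add_neg, ← neg_mul]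
    exact half_le (by simp) (h 2) (h 3)
  · rw [dz_two]
    exact h 4

theorem L_le {a : Str} {ε : ℝ} (h : Near a 2 ε) (h0 : 0 ≤ ε) (h1 : ε ≤ 1) (j : Fin 2)
    {f : E5 → ℂ} {T : ℝ} {x : E5} (hx : ‖x‖ ≤ 1) (hf : ∀ i, ‖pd i f x‖ ≤ T) :
    ‖L a j f x‖ ≤ 7 * T := by
  have hT : 0 ≤ T := (norm_nonneg _).trans (hf 0)
  unfold L
  have h2 : ∀ l, ‖a j l x * dz l f x‖ ≤ 2 * T := fun l => by
    rw [norm_mul]
    exact mul_le_mul (a_le h h0 h1 j l x hx) (dz_le hf l) (norm_nonneg _) (by norm_num)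
  have h3 : ‖∑ l, a j l x * dz l f x‖ ≤ 6 * T := by
    refine (norm_sum_le _ _).trans ?_
    rw [Fin.sum_univ_three]
    linarith [h2 0, h2 1, h2 2]
  have h4 := db_le hf (j.castSucc)
  refine (norm_add_le _ _).trans ?_
  linarith

/-- a continuous function which vanishes for `‖x‖ > 1` vanishes for `‖x‖ ≥ 1` -/
theorem zero_of_open {F : E5 → ℂ} (hc : Continuous F) (h : ∀ x, 1 < ‖x‖ → F x = 0) (x : E5)
    (hx : 1 ≤ ‖x‖) : F x = 0 := by
  have h1 : closure (Metric.closedBall (0 : E5) 1)ᶜ = (Metric.ball (0 : E5) 1)ᶜ := by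
    rw [closure_compl, interior_closedBall _ (by norm_num)]
  have h2 : x ∈ closure (Metric.closedBall (0 : E5) 1)ᶜ := by
    rw [h1]
    simpa using hx
  have h3 : IsClosed {y | F y = 0} := isClosed_eq hc continuous_const
  have h4 : (Metric.closedBall (0 : E5) 1)ᶜ ⊆ {y | F y = 0} := by
    intro y hy
    apply h
    simpa using hy
  exact closure_minimal h4 h3 h2

/-- derivatives of a function which vanishes for `‖x‖ ≥ 1` -/
theorem L_zero {a : Str} (ha : SmS a) (j : Fin 2) {f : E5 → ℂ} (hf : Sm f)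
    (h : ∀ x, 1 ≤ ‖x‖ → f x = 0) (x : E5) (hx : 1 ≤ ‖x‖) : L a j f x = 0 := by
  refine zero_of_open (hf.L ha j).cont (fun y hy => ?_) x hx
  have h1 : f =ᶠ[𝓝 y] fun _ => (0 : ℂ) := by
    have h2 : {z : E5 | 1 < ‖z‖} ∈ 𝓝 y := (isOpen_lt continuous_const continuous_norm).mem_nhds hy
    filter_upwards [h2] with z hz
    exact h z hz.le
  have h3 : ∀ i, pd i f y = 0 := by
    intro i
    unfold pd
    rw [h1.fderiv_eq]
    simp
  have h4 : ∀ l, dz l f y = 0 := fun l => by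
    have := dz_le (T := 0) (x := y) (f := f) (fun i => by rw [h3 i]; simp) l
    exact norm_le_zero_iff.mp this
  have h5 : ∀ l, db l f y = 0 := fun l => by
    have := db_le (T := 0) (x := y) (f := f) (fun i => by rw [h3 i]; simp) l
    exact norm_le_zero_iff.mp this
  unfold L
  simp [h4, h5]

/-- zero order terms -/
theorem zero_ord {F g h : E5 → ℂ} (hF : Sm F) (hg : Tst g) (hh : Tst h) {M : ℝ}
    (h1 : ∀ x, 1 ≤ ‖x‖ → F x = 0) (h2 : ∀ x, ‖x‖ ≤ 1 → ‖F x‖ ≤ M) :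
    ‖∫ x, F x * g x * conj (h x)‖ ≤ M / 2 * ((∫ x in Metric.ball (0 : E5) 1, ‖g x‖ ^ 2) +
      ∫ x in Metric.ball (0 : E5) 1, ‖h x‖ ^ 2) := by
  have e1 : ∫ x, F x * g x * conj (h x)
      = ∫ x in Metric.ball (0 : E5) 1, F x * g x * conj (h x) := by
    rw [setIntegral_eq_integral_of_forall_compl_eq_zero]
    intro x hx
    rw [h1 x (by simpa using hx)]
    simp
  have hi : Integrable (fun x => F x * g x * conj (h x)) volume :=
    (Tst.mul_left (hF.mul hg.sm) hh.conj).integrable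
  rw [e1]
  refine (norm_integral_le_integral_norm _).trans ?_
  rw [← integral_add (sqi hg).integrableOn (sqi hh).integrableOn, ← integral_const_mul]
  refine setIntegral_mono_on hi.norm.integrableOn
    (((sqi hg).add (sqi hh)).const_mul _).integrableOn measurableSet_ball fun x hx => ?_
  have hx' : ‖x‖ ≤ 1 := by
    have : ‖x‖ < 1 := by simpa using hx
    exact this.le
  have h3 := h2 x hx'
  have hM : 0 ≤ M := (norm_nonneg _).trans h3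
  rw [norm_mul, norm_mul, RCLike.norm_conj]
  have h4 : ‖g x‖ * ‖h x‖ ≤ (‖g x‖ ^ 2 + ‖h x‖ ^ 2) / 2 := by
    nlinarith [sq_nonneg (‖g x‖ - ‖h x‖)]
  calc ‖F x‖ * ‖g x‖ * ‖h x‖ = ‖F x‖ * (‖g x‖ * ‖h x‖) := by ring
    _ ≤ M * ((‖g x‖ ^ 2 + ‖h x‖ ^ 2) / 2) :=
      mul_le_mul h3 h4 (mul_nonneg (norm_nonneg _) (norm_nonneg _)) hM
    _ = M / 2 * (‖g x‖ ^ 2 + ‖h x‖ ^ 2) := by ring

/-- combination of two first order terms -/
theorem half_int {c g h : E5 → ℂ} (hc : Sm c) (hg : Tst g) (hh : Tst h) {T : ℝ}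
    (hT : ∀ i, ‖∫ x, c x * pd i g x * conj (h x)‖ ≤ T) (κ : ℂ) (hκ : ‖κ‖ ≤ 1) (i k : Fin 5) :
    ‖∫ x, c x * ((pd i g x + κ * pd k g x) / 2) * conj (h x)‖ ≤ T := by
  have hi : ∀ i, Integrable (fun x => c x * pd i g x * conj (h x)) volume := fun i =>
    (Tst.mul_left (hc.mul (hg.sm.pd i)) hh.conj).integrable
  have e : ∀ x, c x * ((pd i g x + κ * pd k g x) / 2) * conj (h x)
      = (1 / 2 : ℂ) * (c x * pd i g x * conj (h x)) +
        (κ / 2) * (c x * pd k g x * conj (h x)) := by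
    intro x
    ring
  simp only [e]
  rw [integral_add ((hi i).const_mul _) ((hi k).const_mul _), integral_const_mul,
    integral_const_mul]
  have h2 := half_le hκ (hT i) (hT k)
  refine le_trans (le_of_eq ?_) h2
  congr 1
  ring

theorem db_int {c g h : E5 → ℂ} (hc : Sm c) (hg : Tst g) (hh : Tst h) {T : ℝ}
    (hT : ∀ i, ‖∫ x, c x * pd i g x * conj (h x)‖ ≤ T) (l : Fin 3) :
    ‖∫ x, c x * db l g x * conj (h x)‖ ≤ T := by
  rcases fin3_cases l with rfl | rfl | rfl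
  · simp only [db_zero]
    exact half_int hc hg hh hT Complex.I (by simp) 0 1
  · simp only [db_one]
    exact half_int hc hg hh hT Complex.I (by simp) 2 3
  · simp only [db_two]
    exact hT 4

theorem dz_int {c g h : E5 → ℂ} (hc : Sm c) (hg : Tst g) (hh : Tst h) {T : ℝ}
    (hT : ∀ i, ‖∫ x, c x * pd i g x * conj (h x)‖ ≤ T) (l : Fin 3) :
    ‖∫ x, c x * dz l g x * conj (h x)‖ ≤ T := by
  rcases fin3_cases l with rfl | rfl | rfl
  · simp only [dz_zero, sub_eq_add_neg, ← neg_mul]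
    exact half_int hc hg hh hT (-Complex.I) (by simp) 0 1
  · simp only [dz_one, sub_eq_add_neg, ← neg_mul]
    exact half_int hc hg hh hT (-Complex.I) (by simp) 2 3
  · simp only [dz_two]
    exact hT 4

/-- the error operator -/
def Er (a : Str) (j k : Fin 2) (g : E5 → ℂ) : E5 → ℂ := fun x =>
  (∑ l, (cA a j k l x * db l g x - cB a j k l x * dz l g x)) + L a j (dv a k) x * g x

theorem gr_nonneg (a : Str) (g : E5 → ℂ) : 0 ≤ ∫ x, gr a g x :=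
  integral_nonneg fun x => Finset.sum_nonneg fun j _ => by positivity

theorem gr_int {a : Str} (ha : SmS a) {g : E5 → ℂ} (hg : Tst g) :
    ∫ x, gr a g x = ((∫ x, ‖L a 0 g x‖ ^ 2) + ∫ x, ‖Lb a 0 g x‖ ^ 2) +
      ((∫ x, ‖L a 1 g x‖ ^ 2) + ∫ x, ‖Lb a 1 g x‖ ^ 2) := by
  unfold gr
  simp only [Fin.sum_univ_two]
  have s0 : Integrable (fun x => ‖L a 0 g x‖ ^ 2 + ‖Lb a 0 g x‖ ^ 2) volume :=
    (sqi (hg.L ha 0)).add (sqi (hg.Lb ha 0))
  have s1 : Integrable (fun x => ‖L a 1 g x‖ ^ 2 + ‖Lb a 1 g x‖ ^ 2) volume :=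
    (sqi (hg.L ha 1)).add (sqi (hg.Lb ha 1))
  rw [integral_add s0 s1,
    integral_add (sqi (hg.L ha 0)) (sqi (hg.Lb ha 0)),
    integral_add (sqi (hg.L ha 1)) (sqi (hg.Lb ha 1))]

theorem er_int {a : Str} (ha : SmS a) (j k : Fin 2) {g h : E5 → ℂ} (hg : Tst g) (hh : Tst h)
    (hA : ∀ l, Sm (cA a j k l)) (hB : ∀ l, Sm (cB a j k l)) {T Z : ℝ}
    (h1 : ∀ l, ‖∫ x, cA a j k l x * db l g x * conj (h x)‖ ≤ T)
    (h2 : ∀ l, ‖∫ x, cB a j k l x * dz l g x * conj (h x)‖ ≤ T)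
    (h3 : ‖∫ x, L a j (dv a k) x * g x * conj (h x)‖ ≤ Z) :
    ‖∫ x, Er a j k g x * conj (h x)‖ ≤ 6 * T + Z := by
  have e : ∀ x, Er a j k g x * conj (h x) =
      (∑ l, (cA a j k l x * db l g x * conj (h x) - cB a j k l x * dz l g x * conj (h x))) +
        L a j (dv a k) x * g x * conj (h x) := by
    intro x
    unfold Er
    rw [add_mul, Finset.sum_mul]
    congr 1
    exact Finset.sum_congr rfl fun l _ => by ring
  have i1 : ∀ l, Integrable (fun x => cA a j k l x * db l g x * conj (h x)) volume := fun l =>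
    (Tst.mul_left ((hA l).mul (hg.sm.db l)) hh.conj).integrable
  have i2 : ∀ l, Integrable (fun x => cB a j k l x * dz l g x * conj (h x)) volume := fun l =>
    (Tst.mul_left ((hB l).mul (hg.sm.dz l)) hh.conj).integrable
  have i3 : Integrable (fun x => L a j (dv a k) x * g x * conj (h x)) volume :=
    (Tst.mul_left (((Sm.dv ha k).L ha j).mul hg.sm) hh.conj).integrable
  have i4 : ∀ l, Integrable (fun x => cA a j k l x * db l g x * conj (h x)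
      - cB a j k l x * dz l g x * conj (h x)) volume := fun l => (i1 l).sub (i2 l)
  have i5 : Integrable (fun x => ∑ l, (cA a j k l x * db l g x * conj (h x)
      - cB a j k l x * dz l g x * conj (h x))) volume := integrable_finsetSum _ fun l _ => i4 l
  simp only [e]
  rw [integral_add i5 i3, integral_finsetSum _ (fun l _ => i4 l)]
  refine (norm_add_le _ _).trans (add_le_add ?_ h3)
  refine (norm_sum_le _ _).trans ?_
  have h4 : ∀ l, ‖∫ x, (cA a j k l x * db l g x * conj (h x)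
      - cB a j k l x * dz l g x * conj (h x))‖ ≤ 2 * T := by
    intro l
    rw [integral_sub (i1 l) (i2 l)]
    refine (norm_sub_le _ _).trans ?_
    linarith [h1 l, h2 l]
  rw [Fin.sum_univ_three]
  linarith [h4 0, h4 1, h4 2]

theorem real_sqrt {G H : ℝ} (hG : 0 ≤ G) (hH : 0 ≤ H) :
    Real.sqrt G * Real.sqrt H ≤ (G + H) / 2 := by
  have e1 := Real.sq_sqrt hG
  have e2 := Real.sq_sqrt hH
  nlinarith [sq_nonneg (Real.sqrt G - Real.sqrt H)]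

theorem real_err {G H C₁ C₂ C₃ ε : ℝ} (hp : 0 ≤ (C₃ * ε) * (C₂ * G + C₂ * H)) :
    6 * (C₁ * (C₃ * ε) * ((G + H) / 2)) + 7 * (C₃ * ε) / 2 * (C₂ * G + C₂ * H)
      ≤ (3 * C₁ * C₃ + 4 * C₂ * C₃) * ε * (G + H) := by
  nlinarith [hp]

theorem real_one {G L0 L1 M0 M1 S0 S1 P E0 E1 B t m : ℝ} (d0 : S0 = L0 + (-P - E0))
    (d1 : S1 = L1 + (-P - E1)) (f0 : |E0| ≤ 2 * t) (f1 : |E1| ≤ 2 * t)
    (hG : G = (L0 + M0) + (L1 + M1)) (l0 : M0 ≤ 2 * S0 + 2 * B) (l1 : M1 ≤ 2 * S1 + 2 * B)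
    (hb : B ≤ m) (n0 : 0 ≤ L0) (n1 : 0 ≤ L1) :
    G / 4 - m - 2 * t ≤ S0 + L1 ∧ G / 4 - m - 2 * t ≤ S1 + L0 := by
  obtain ⟨a0, b0⟩ := abs_le.mp f0
  obtain ⟨a1, b1⟩ := abs_le.mp f1
  constructor <;> linarith

theorem real_fin {G0 G1 A1 A2 S1 S2 X K ε c m0 m1 t0 t1 : ℝ} (hm0 : m0 = c * ε * G0)
    (hm1 : m1 = c * ε * G1) (ht0 : t0 = K * ε * G0) (ht1 : t1 = K * ε * G1)
    (o1 : G0 / 4 - m0 - 2 * t0 ≤ S1 + A2) (o2 : G1 / 4 - m1 - 2 * t1 ≤ S2 + A1)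
    (hX : -(K * ε * (G0 + G1)) ≤ X)
    (hf : (4 * K + c) * ε * (G0 + G1) ≤ 1 / 8 * (G0 + G1)) :
    1 / 8 * (G0 + G1) ≤ A1 + A2 + S1 + S2 + 2 * X := by
  have e : (4 * K + c) * ε * (G0 + G1) = 4 * (t0 + t1) + (m0 + m1) := by
    rw [hm0, hm1, ht0, ht1]
    ring
  have e2 : K * ε * (G0 + G1) = t0 + t1 := by
    rw [ht0, ht1]
    ring
  rw [e] at hf
  rw [e2] at hX
  linarith

/-- the error bound -/
theorem er_bound {a : Str} {ε C₁ C₂ C₃ : ℝ} (h0 : 0 ≤ ε) (h1 : ε ≤ 1) (ha : Near a 2 ε)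
    (hC₁ : 0 ≤ C₁) (hC₃ : 0 ≤ C₃)
    (hTL : ∀ (c : E5 → ℂ) (M : ℝ), Sm c → (∀ x, 1 ≤ ‖x‖ → c x = 0) → (∀ x, ‖c x‖ ≤ M) →
      (∀ k x, ‖pd k c x‖ ≤ M) → ∀ (i : Fin 5) (f g : E5 → ℂ), Tst f → Tst g →
        ‖∫ x, c x * pd i f x * conj (g x)‖
          ≤ C₁ * M * Real.sqrt (∫ x, gr a f x) * Real.sqrt (∫ x, gr a g x))
    (hHB : ∀ f : E5 → ℂ, Tst f → ∫ x in Metric.ball (0 : E5) 1, ‖f x‖ ^ 2 ≤ C₂ * ∫ x, gr a f x)
    (hA : ∀ j k l, Sm (cA a j k l) ∧ (∀ x, 1 ≤ ‖x‖ → cA a j k l x = 0) ∧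
      (∀ x, ‖cA a j k l x‖ ≤ C₃ * ε) ∧ ∀ i x, ‖pd i (cA a j k l) x‖ ≤ C₃ * ε)
    (hB : ∀ j k l, Sm (cB a j k l) ∧ (∀ x, 1 ≤ ‖x‖ → cB a j k l x = 0) ∧
      (∀ x, ‖cB a j k l x‖ ≤ C₃ * ε) ∧ ∀ i x, ‖pd i (cB a j k l) x‖ ≤ C₃ * ε)
    (hD : ∀ j, Sm (dv a j) ∧ (∀ x, 1 ≤ ‖x‖ → dv a j x = 0) ∧ (∀ x, ‖dv a j x‖ ≤ C₃ * ε) ∧
      ∀ i x, ‖pd i (dv a j) x‖ ≤ C₃ * ε)
    (j k : Fin 2) {g h : E5 → ℂ} (hg : Tst g) (hh : Tst h) :
    ‖∫ x, Er a j k g x * conj (h x)‖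
      ≤ (3 * C₁ * C₃ + 4 * C₂ * C₃) * ε * ((∫ x, gr a g x) + ∫ x, gr a h x) := by
  have hG := gr_nonneg a g
  have hH := gr_nonneg a h
  have hs : Real.sqrt (∫ x, gr a g x) * Real.sqrt (∫ x, gr a h x)
      ≤ ((∫ x, gr a g x) + ∫ x, gr a h x) / 2 := real_sqrt hG hH
  have hCε : 0 ≤ C₁ * (C₃ * ε) := mul_nonneg hC₁ (mul_nonneg hC₃ h0)
  have hT : C₁ * (C₃ * ε) * Real.sqrt (∫ x, gr a g x) * Real.sqrt (∫ x, gr a h x)
      ≤ C₁ * (C₃ * ε) * (((∫ x, gr a g x) + ∫ x, gr a h x) / 2) := by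
    rw [mul_assoc]
    exact mul_le_mul_of_nonneg_left hs hCε
  have t1 : ∀ l, ‖∫ x, cA a j k l x * db l g x * conj (h x)‖
      ≤ C₁ * (C₃ * ε) * (((∫ x, gr a g x) + ∫ x, gr a h x) / 2) := fun l =>
    db_int (hA j k l).1 hg hh (fun i => (hTL _ _ (hA j k l).1 (hA j k l).2.1 (hA j k l).2.2.1
      (hA j k l).2.2.2 i g h hg hh).trans hT) l
  have t2 : ∀ l, ‖∫ x, cB a j k l x * dz l g x * conj (h x)‖
      ≤ C₁ * (C₃ * ε) * (((∫ x, gr a g x) + ∫ x, gr a h x) / 2) := fun l =>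
    dz_int (hB j k l).1 hg hh (fun i => (hTL _ _ (hB j k l).1 (hB j k l).2.1 (hB j k l).2.2.1
      (hB j k l).2.2.2 i g h hg hh).trans hT) l
  have t3 : ‖∫ x, L a j (dv a k) x * g x * conj (h x)‖
      ≤ 7 * (C₃ * ε) / 2 * (C₂ * (∫ x, gr a g x) + C₂ * ∫ x, gr a h x) := by
    refine (zero_ord ((hD k).1.L ha.smS j) hg hh (L_zero ha.smS j (hD k).1 (hD k).2.1)
      (fun x hx => L_le ha h0 h1 j hx fun i => (hD k).2.2.2 i x)).trans ?_
    exact mul_le_mul_of_nonneg_left (add_le_add (hHB g hg) (hHB h hh)) (by positivity)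
  refine (er_int ha.smS j k hg hh (fun l => (hA j k l).1) (fun l => (hB j k l).1) t1 t2 t3).trans ?_
  have hC₂ : 0 ≤ C₂ * (∫ x, gr a g x) + C₂ * ∫ x, gr a h x := by
    have e1 := hHB g hg
    have e2 := hHB h hh
    have e3 : 0 ≤ ∫ x in Metric.ball (0 : E5) 1, ‖g x‖ ^ 2 :=
      integral_nonneg fun x => by positivity
    have e4 : 0 ≤ ∫ x in Metric.ball (0 : E5) 1, ‖h x‖ ^ 2 :=
      integral_nonneg fun x => by positivity
    linarith
  have hp : 0 ≤ (C₃ * ε) * (C₂ * (∫ x, gr a g x) + C₂ * ∫ x, gr a h x) :=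
    mul_nonneg (mul_nonneg hC₃ h0) hC₂
  exact real_err hp

/-- lower bound for the adjoint -/
theorem ls_low {a : Str} (ha : SmS a) (j : Fin 2) {g : E5 → ℂ} (hg : Tst g) {M : ℝ}
    (h1 : ∀ x, 1 ≤ ‖x‖ → dv a j x = 0) (h2 : ∀ x, ‖dv a j x‖ ≤ M) :
    (∫ x, ‖Lb a j g x‖ ^ 2) ≤ 2 * (∫ x, ‖Ls a j g x‖ ^ 2)
      + 2 * M ^ 2 * ∫ x in Metric.ball (0 : E5) 1, ‖g x‖ ^ 2 := by
  have hd : Tst fun x => dv a j x * g x := Tst.mul_left (Sm.dv ha j) hg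
  have e1 : (∫ x, ‖Lb a j g x‖ ^ 2) ≤ ∫ x, (2 * ‖Ls a j g x‖ ^ 2 + 2 * ‖dv a j x * g x‖ ^ 2) := by
    refine integral_mono (sqi (hg.Lb ha j)) (((sqi (hg.Ls ha j)).const_mul 2).add
      ((sqi hd).const_mul 2)) fun x => ?_
    have e2 : Lb a j g x = -(Ls a j g x + dv a j x * g x) := by
      rw [Ls_eq ha hg.sm]
      ring
    have e3 : ‖Lb a j g x‖ ≤ ‖Ls a j g x‖ + ‖dv a j x * g x‖ := by
      rw [e2, norm_neg]
      exact norm_add_le _ _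
    have e4 : ‖Lb a j g x‖ ^ 2 ≤ (‖Ls a j g x‖ + ‖dv a j x * g x‖) ^ 2 :=
      pow_le_pow_left₀ (norm_nonneg _) e3 2
    show ‖Lb a j g x‖ ^ 2 ≤ 2 * ‖Ls a j g x‖ ^ 2 + 2 * ‖dv a j x * g x‖ ^ 2
    nlinarith [sq_nonneg (‖Ls a j g x‖ - ‖dv a j x * g x‖)]
  have e5 : (∫ x, ‖dv a j x * g x‖ ^ 2) ≤ M ^ 2 * ∫ x in Metric.ball (0 : E5) 1, ‖g x‖ ^ 2 := by
    have e6 : (∫ x, ‖dv a j x * g x‖ ^ 2)
        = ∫ x in Metric.ball (0 : E5) 1, ‖dv a j x * g x‖ ^ 2 := by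
      rw [setIntegral_eq_integral_of_forall_compl_eq_zero]
      intro x hx
      rw [h1 x (by simpa using hx)]
      simp
    rw [e6, ← integral_const_mul]
    refine setIntegral_mono_on (sqi hd).integrableOn ((sqi hg).const_mul _).integrableOn
      measurableSet_ball fun x _ => ?_
    rw [norm_mul, mul_pow]
    exact mul_le_mul_of_nonneg_right (pow_le_pow_left₀ (norm_nonneg _) (h2 x) 2) (by positivity)
  rw [integral_add ((sqi (hg.Ls ha j)).const_mul 2) ((sqi hd).const_mul 2), integral_const_mul,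
    integral_const_mul] at e1
  linarith

end BBas

open BBas in
/-- **The basic estimate.** -/
theorem pBas : R_Bas := by
  intro hCmm hCfs hHB1 hHar hTL hBId hBCm
  obtain ⟨ε₁, hε₁, C₁, hC₁, hTL⟩ := hTL
  obtain ⟨ε₂, hε₂, C₂, hC₂, hHB⟩ := hHB1 hHar
  obtain ⟨C₃, hC₃, hCfs⟩ := hCfs
  set K : ℝ := 3 * C₁ * C₃ + 4 * C₂ * C₃ with hK
  have hC₃' : 0 < C₃ := by linarith
  have hK0 : 0 < K := by positivity
  set W : ℝ := 4 * K + C₃ ^ 2 * C₂ with hW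
  have hW0 : 0 < W := by positivity
  refine ⟨min (min ε₁ ε₂) (min 1 (1 / (8 * W))), by positivity, 1 / 8, by norm_num, ?_⟩
  intro a hN w hw
  set ε : ℝ := min (min ε₁ ε₂) (min 1 (1 / (8 * W))) with hε
  have h0 : 0 < ε := by positivity
  have le1 : ε ≤ ε₁ := (min_le_left _ _).trans (min_le_left _ _)
  have le2 : ε ≤ ε₂ := (min_le_left _ _).trans (min_le_right _ _)
  have le3 : ε ≤ 1 := (min_le_right _ _).trans (min_le_left _ _)
  have le4 : ε ≤ 1 / (8 * W) := (min_le_right _ _).trans (min_le_right _ _)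
  have hsm : W * ε ≤ 1 / 8 := by
    rw [le_div_iff₀ (by positivity)] at le4
    linarith
  have ha := hN.smS
  have hTLa := hTL a (near_mono hN le_rfl h0.le le1)
  have hHBa := hHB a (near_mono hN (by norm_num) h0.le le2)
  obtain ⟨hA, hB, hD⟩ := hCfs a ε h0 le3 hN
  have hErr : ∀ (j k : Fin 2) (g h : E5 → ℂ), Tst g → Tst h →
      ‖∫ x, Er a j k g x * conj (h x)‖ ≤ K * ε * ((∫ x, gr a g x) + ∫ x, gr a h x) :=
    fun j k g h hg hh => er_bound h0.le le3 hN hC₁.le hC₃'.le hTLa hHBa hA hB hD j k hg hh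
  obtain ⟨b1, b2⟩ := hBId a ha
  have hcm := hBCm hCmm a ha
  -- the commutators
  have hEsm : ∀ (j k : Fin 2) (g h : E5 → ℂ), Tst g → Tst h →
      Integrable (fun x => Er a j k g x * conj (h x)) volume := by
    intro j k g h hg hh
    refine (Tst.mul_left ?_ hh.conj).integrable
    exact (Sm.sum _ fun l _ => ((hA j k l).1.mul (hg.sm.db l)).sub
      ((hB j k l).1.mul (hg.sm.dz l))).add (((hD k).1.L ha j).mul hg.sm)
  -- cross term
  have hcross : -(K * ε * ((∫ x, gr a (w 0) x) + ∫ x, gr a (w 1) x)) ≤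
      (∫ x, (L a 1 (Ls a 0 (w 0)) x - Ls a 0 (L a 1 (w 0)) x) * conj (w 1 x)).re := by
    have e1 : ∀ x, (L a 1 (Ls a 0 (w 0)) x - Ls a 0 (L a 1 (w 0)) x) * conj (w 1 x)
        = -(Er a 1 0 (w 0) x * conj (w 1 x)) := by
      intro x
      rw [hcm 1 0 (w 0) (hw 0).sm x, if_neg (by decide)]
      unfold Er
      ring
    simp only [e1]
    rw [integral_neg, Complex.neg_re]
    have e2 := hErr 1 0 (w 0) (w 1) (hw 0) (hw 1)
    have e3 := (Complex.abs_re_le_norm (∫ x, Er a 1 0 (w 0) x * conj (w 1 x))).trans e2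
    have e4 := abs_le.mp e3
    linarith [e4.2]
  -- the diagonal terms
  have hdiag : ∀ (j : Fin 2) (g : E5 → ℂ), Tst g →
      (∫ x, ‖Ls a j g x‖ ^ 2) = (∫ x, ‖L a j g x‖ ^ 2)
        + (-(∫ x, 2 * Complex.I * pd 4 g x * conj (g x)).re
          - (∫ x, Er a j j g x * conj (g x)).re) := by
    intro j g hg
    rw [b2 j g hg]
    have e1 : ∀ x, (L a j (Ls a j g) x - Ls a j (L a j g) x) * conj (g x)
        = -(2 * Complex.I * pd 4 g x * conj (g x)) - Er a j j g x * conj (g x) := by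
      intro x
      rw [hcm j j g hg.sm x, if_pos rfl]
      unfold Er
      ring
    simp only [e1]
    rw [integral_sub _ (hEsm j j g g hg hg), integral_neg]
    · rw [Complex.sub_re, Complex.neg_re]
    · exact ((Tst.mul_left ((Sm.const _).mul (hg.sm.pd 4)) hg.conj).integrable).neg
  -- lower bound for one component
  have hone : ∀ g : E5 → ℂ, Tst g →
      (∫ x, gr a g x) / 4 - C₃ ^ 2 * C₂ * ε * (∫ x, gr a g x) - 2 * (K * ε * (∫ x, gr a g x))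
        ≤ (∫ x, ‖Ls a 0 g x‖ ^ 2) + (∫ x, ‖L a 1 g x‖ ^ 2) ∧
      (∫ x, gr a g x) / 4 - C₃ ^ 2 * C₂ * ε * (∫ x, gr a g x) - 2 * (K * ε * (∫ x, gr a g x))
        ≤ (∫ x, ‖Ls a 1 g x‖ ^ 2) + (∫ x, ‖L a 0 g x‖ ^ 2) := by
    intro g hg
    have hG := gr_nonneg a g
    have l0 := ls_low ha 0 hg (hD 0).2.1 (hD 0).2.2.1
    have l1 := ls_low ha 1 hg (hD 1).2.1 (hD 1).2.2.1
    have hb := hHBa g hg
    have hb' : (C₃ * ε) ^ 2 * (∫ x in Metric.ball (0 : E5) 1, ‖g x‖ ^ 2)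
        ≤ C₃ ^ 2 * C₂ * ε * ∫ x, gr a g x := by
      refine (mul_le_mul_of_nonneg_left hb (by positivity)).trans ?_
      generalize (∫ x, gr a g x) = G at hG
      have q3 : (C₃ ^ 2 * C₂ * ε * G) * ε ≤ (C₃ ^ 2 * C₂ * ε * G) * 1 :=
        mul_le_mul_of_nonneg_left le3 (by positivity)
      calc (C₃ * ε) ^ 2 * (C₂ * G) = (C₃ ^ 2 * C₂ * ε * G) * ε := by ring
        _ ≤ (C₃ ^ 2 * C₂ * ε * G) * 1 := q3
        _ = C₃ ^ 2 * C₂ * ε * G := by ring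
    have n0 : 0 ≤ ∫ x, ‖L a 0 g x‖ ^ 2 := integral_nonneg fun x => by positivity
    have n1 : 0 ≤ ∫ x, ‖L a 1 g x‖ ^ 2 := integral_nonneg fun x => by positivity
    have e0 := (Complex.abs_re_le_norm (∫ x, Er a 0 0 g x * conj (g x))).trans
      (hErr 0 0 g g hg hg)
    have e1 := (Complex.abs_re_le_norm (∫ x, Er a 1 1 g x * conj (g x))).trans
      (hErr 1 1 g g hg hg)
    have e2 : K * ε * ((∫ x, gr a g x) + ∫ x, gr a g x) = 2 * (K * ε * (∫ x, gr a g x)) := by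
      rw [← two_mul]
      exact mul_left_comm _ _ _
    rw [e2] at e0 e1
    rw [mul_assoc] at l0 l1
    exact real_one (hdiag 0 g hg) (hdiag 1 g hg) e0 e1 (gr_int ha hg) l0 l1 hb' n0 n1
  obtain ⟨o1, _⟩ := hone (w 0) (hw 0)
  obtain ⟨_, o2⟩ := hone (w 1) (hw 1)
  have hG0 := gr_nonneg a (w 0)
  have hG1 := gr_nonneg a (w 1)
  have hfin : (4 * K + C₃ ^ 2 * C₂) * ε * ((∫ x, gr a (w 0) x) + ∫ x, gr a (w 1) x)
      ≤ 1 / 8 * ((∫ x, gr a (w 0) x) + ∫ x, gr a (w 1) x) :=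
    mul_le_mul_of_nonneg_right hsm (add_nonneg hG0 hG1)
  rw [b1 w hw]
  exact real_fin rfl rfl rfl rfl o1 o2 hcross hfin

end Pool.Agent.CR5
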