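import Pool.Agent.Lib.CR5.SpecB

/-!
# CR5, block B: the coefficients `cA`, `cB`, `dv` are small
-/

set_option autoImplicit false

open MeasureTheory Set Filter Topology
open scoped ENNReal ComplexConjugate

noncomputable section

namespace Pool.Agent.CR5

namespace BCfs

theorem pd_coord (i m : Fin 5) (x : E5) :
    pd i (fun y => (y m : ℂ)) x = if i = m then 1 else 0 := by
  unfold pd
  have h : HasFDerivAt (fun y : E5 => (y m : ℂ))
      (Complex.ofRealCLM.comp (EuclideanSpace.proj m : E5 →L[ℝ] ℝ)) x :=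
    (Complex.ofRealCLM.comp (EuclideanSpace.proj m : E5 →L[ℝ] ℝ)).hasFDerivAt
  rw [h.fderiv]
  by_cases him : i = m
  · subst him
    simp [e5]
  · simp [e5, him, Ne.symm him]

theorem pd_zc0 (i : Fin 5) (x : E5) :
    pd i (zc 0) x = (if i = 0 then 1 else 0) + Complex.I * (if i = 1 then 1 else 0) := by
  have h : zc 0 = fun y => (y 0 : ℂ) + Complex.I * (y 1 : ℂ) := by
    funext y; simp [zc]
  rw [h, pd_add (Sm.coord 0) ((Sm.const _).mul (Sm.coord 1)), pd_const_mul (Sm.coord 1), pd_coord,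
    pd_coord]

theorem pd_zc1 (i : Fin 5) (x : E5) :
    pd i (zc 1) x = (if i = 2 then 1 else 0) + Complex.I * (if i = 3 then 1 else 0) := by
  have h : zc 1 = fun y => (y 2 : ℂ) + Complex.I * (y 3 : ℂ) := by
    funext y; simp [zc]
  rw [h, pd_add (Sm.coord 2) ((Sm.const _).mul (Sm.coord 3)), pd_const_mul (Sm.coord 3), pd_coord,
    pd_coord]

theorem fin2_cases (j : Fin 2) : j = 0 ∨ j = 1 := by fin_cases j <;> simp

theorem norm_pd_zc (j : Fin 2) (i : Fin 5) (x : E5) : ‖pd i (zc j) x‖ ≤ 1 := by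
  rcases fin2_cases j with rfl | rfl
  · rw [pd_zc0]
    fin_cases i <;> simp
  · rw [pd_zc1]
    fin_cases i <;> simp

theorem dz_zc (l : Fin 3) (k : Fin 2) (x : E5) :
    dz l (zc k) x = if l = k.castSucc then 1 else 0 := by
  rcases fin2_cases k with rfl | rfl <;> rcases fin3_cases l with rfl | rfl | rfl <;>
    simp only [dz_zero, dz_one, dz_two, pd_zc0, pd_zc1] <;>
    simp [Complex.I_mul_I]

theorem db_zc (l : Fin 3) (k : Fin 2) (x : E5) : db l (zc k) x = 0 := by
  rcases fin2_cases k with rfl | rfl <;> rcases fin3_cases l with rfl | rfl | rfl <;>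
    simp only [db_zero, db_one, db_two, pd_zc0, pd_zc1] <;>
    simp [Complex.I_mul_I]

theorem a0_two (j : Fin 2) : a0 j 2 = fun x => -Complex.I * zc j x := by
  funext x; simp [a0]

theorem a0_ne (j : Fin 2) {l : Fin 3} (h : l ≠ 2) : a0 j l = fun _ => 0 := by
  funext x; simp [a0, h]

theorem db_a0 (m : Fin 3) (k : Fin 2) (l : Fin 3) (x : E5) : db m (a0 k l) x = 0 := by
  by_cases h : l = 2
  · subst h
    rw [a0_two, db_const_mul (Sm.zc k), db_zc, mul_zero]
  · rw [a0_ne k h, db_const]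

theorem dz_a0 (m : Fin 3) (k : Fin 2) (l : Fin 3) (x : E5) :
    dz m (a0 k l) x = if l = 2 ∧ m = k.castSucc then -Complex.I else 0 := by
  by_cases h : l = 2
  · subst h
    rw [a0_two, dz_const_mul (Sm.zc k), dz_zc]
    by_cases h' : m = k.castSucc <;> simp [h']
  · rw [a0_ne k h, dz_const]
    simp [h]

theorem norm_zc_le (j : Fin 2) (x : E5) : ‖zc j x‖ ≤ ‖x‖ := by
  have h : ‖x‖ ^ 2 = x 0 ^ 2 + x 1 ^ 2 + x 2 ^ 2 + x 3 ^ 2 + x 4 ^ 2 := by
    rw [EuclideanSpace.real_norm_sq_eq, Fin.sum_univ_five]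
  apply le_of_sq_le_sq _ (norm_nonneg x)
  rw [h]
  rcases fin2_cases j with rfl | rfl
  · have e : zc 0 x = ⟨x 0, x 1⟩ := by
      apply Complex.ext <;> simp [zc]
    rw [e, Complex.sq_norm, Complex.normSq_mk]
    nlinarith [sq_nonneg (x 2), sq_nonneg (x 3), sq_nonneg (x 4)]
  · have e : zc 1 x = ⟨x 2, x 3⟩ := by
      apply Complex.ext <;> simp [zc]
    rw [e, Complex.sq_norm, Complex.normSq_mk]
    nlinarith [sq_nonneg (x 0), sq_nonneg (x 1), sq_nonneg (x 4)]

/-- Derivatives of a function which vanishes outside the unit ball. -/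
theorem pd_out {f : E5 → ℂ} (hf : Sm f) (h0 : ∀ x, 1 ≤ ‖x‖ → f x = 0) (i : Fin 5) :
    ∀ x, 1 ≤ ‖x‖ → pd i f x = 0 := by
  intro x hx
  have hcl : IsClosed {y : E5 | pd i f y = 0} := isClosed_eq (hf.pd i).cont continuous_const
  have hsub : (Metric.closedBall (0 : E5) 1)ᶜ ⊆ {y : E5 | pd i f y = 0} := by
    intro y hy
    have hy' : 1 < ‖y‖ := by
      rw [mem_compl_iff, Metric.mem_closedBall, dist_zero_right, not_le] at hy
      exact hy
    have he : f =ᶠ[𝓝 y] fun _ => 0 := by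
      have ho : IsOpen {z : E5 | 1 < ‖z‖} := isOpen_lt continuous_const continuous_norm
      filter_upwards [ho.mem_nhds hy'] with z hz
      exact h0 z (le_of_lt hz)
    show pd i f y = 0
    unfold pd
    rw [he.fderiv_eq]
    simp
  have h1 : x ∈ closure (Metric.closedBall (0 : E5) 1)ᶜ := by
    rw [closure_compl, interior_closedBall _ one_ne_zero, mem_compl_iff, Metric.mem_ball,
      dist_zero_right, not_lt]
    exact hx
  exact hcl.closure_subset_iff.2 hsub h1

/-- Smooth functions supported in the unit ball, bounded with the first derivatives. -/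
structure G (f : E5 → ℂ) (K : ℝ) : Prop where
  sm : Sm f
  out : ∀ x, 1 ≤ ‖x‖ → f x = 0
  b0 : ∀ x, ‖f x‖ ≤ K
  b1 : ∀ i x, ‖pd i f x‖ ≤ K

/-- Smooth functions bounded in the unit ball with the first derivatives. -/
structure B (g : E5 → ℂ) (M : ℝ) : Prop where
  sm : Sm g
  b0 : ∀ x, ‖x‖ ≤ 1 → ‖g x‖ ≤ M
  b1 : ∀ i x, ‖x‖ ≤ 1 → ‖pd i g x‖ ≤ M

theorem G.nonneg {f : E5 → ℂ} {K : ℝ} (h : G f K) : 0 ≤ K := (norm_nonneg _).trans (h.b0 0)

theorem B.nonneg {f : E5 → ℂ} {K : ℝ} (h : B f K) : 0 ≤ K :=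
  (norm_nonneg _).trans (h.b0 0 (by simp))

theorem G.mono {f : E5 → ℂ} {K K' : ℝ} (h : G f K) (hK : K ≤ K') : G f K' :=
  ⟨h.sm, h.out, fun x => (h.b0 x).trans hK, fun i x => (h.b1 i x).trans hK⟩

theorem G.add {f g : E5 → ℂ} {K K' : ℝ} (hf : G f K) (hg : G g K') :
    G (fun x => f x + g x) (K + K') := by
  refine ⟨hf.sm.add hg.sm, ?_, ?_, ?_⟩
  · intro x hx
    rw [hf.out x hx, hg.out x hx, add_zero]
  · intro x
    exact (norm_add_le _ _).trans (add_le_add (hf.b0 x) (hg.b0 x))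
  · intro i x
    rw [pd_add hf.sm hg.sm]
    exact (norm_add_le _ _).trans (add_le_add (hf.b1 i x) (hg.b1 i x))

theorem G.sum3 {f : Fin 3 → E5 → ℂ} {K : ℝ} (hf : ∀ l, G (f l) K) :
    G (fun x => ∑ l, f l x) (3 * K) := by
  have h := ((hf 0).add (hf 1)).add (hf 2)
  have e : (fun x => ∑ l, f l x) = fun x => f 0 x + f 1 x + f 2 x := by
    funext x; rw [Fin.sum_univ_three]
  rw [e]
  exact h.mono (by linarith)

theorem G.mul {g f : E5 → ℂ} {M K : ℝ} (hg : B g M) (hf : G f K) :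
    G (fun x => g x * f x) (2 * M * K) := by
  have hM := hg.nonneg
  have hK := hf.nonneg
  have hMK : 0 ≤ M * K := mul_nonneg hM hK
  refine ⟨hg.sm.mul hf.sm, ?_, ?_, ?_⟩
  · intro x hx
    rw [hf.out x hx, mul_zero]
  · intro x
    by_cases hx : ‖x‖ ≤ 1
    · rw [norm_mul]
      have := mul_le_mul (hg.b0 x hx) (hf.b0 x) (norm_nonneg _) hM
      linarith
    · rw [hf.out x (le_of_lt (not_le.1 hx)), mul_zero, norm_zero]
      linarith
  · intro i x
    rw [pd_mul hg.sm hf.sm]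
    by_cases hx : ‖x‖ ≤ 1
    · have h1 := mul_le_mul (hg.b0 x hx) (hf.b1 i x) (norm_nonneg _) hM
      have h2 := mul_le_mul (hg.b1 i x hx) (hf.b0 x) (norm_nonneg _) hM
      have h3 := norm_add_le (g x * pd i f x) (pd i g x * f x)
      rw [norm_mul, norm_mul] at h3
      linarith
    · rw [hf.out x (le_of_lt (not_le.1 hx)), pd_out hf.sm hf.out i x (le_of_lt (not_le.1 hx)),
        mul_zero, mul_zero, add_zero, norm_zero]
      linarith

theorem G.conj {f : E5 → ℂ} {K : ℝ} (hf : G f K) : G (fun x => conj (f x)) K := by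
  refine ⟨hf.sm.conj, ?_, ?_, ?_⟩
  · intro x hx
    rw [hf.out x hx, map_zero]
  · intro x
    rw [RCLike.norm_conj]
    exact hf.b0 x
  · intro i x
    rw [pd_conj hf.sm, RCLike.norm_conj]
    exact hf.b1 i x

/-- Bounds for the derivatives up to the order two. -/
structure G2 (f : E5 → ℂ) (K : ℝ) : Prop where
  g : G f K
  d : ∀ i, G (pd i f) K

theorem G2.conj {f : E5 → ℂ} {K : ℝ} (hf : G2 f K) : G2 (fun x => conj (f x)) K := by
  refine ⟨hf.g.conj, fun i => ?_⟩
  have e : pd i (fun x => (starRingEnd ℂ) (f x)) = fun x => (starRingEnd ℂ) (pd i f x) := by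
    funext x; exact pd_conj hf.g.sm i x
  rw [e]
  exact (hf.d i).conj

theorem half_bd {p q : ℂ} {K : ℝ} (hp : ‖p‖ ≤ K) (hq : ‖q‖ ≤ K) :
    ‖(p - Complex.I * q) / 2‖ ≤ K ∧ ‖(p + Complex.I * q) / 2‖ ≤ K := by
  have h1 := norm_sub_le p (Complex.I * q)
  have h2 := norm_add_le p (Complex.I * q)
  rw [norm_mul, Complex.norm_I, one_mul] at h1 h2
  constructor
  · rw [norm_div, Complex.norm_ofNat, div_le_iff₀ (by norm_num)]
    linarith
  · rw [norm_div, Complex.norm_ofNat, div_le_iff₀ (by norm_num)]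
    linarith

theorem norm_dz_le {f : E5 → ℂ} {K : ℝ} {x : E5} (h : ∀ i, ‖pd i f x‖ ≤ K) (l : Fin 3) :
    ‖dz l f x‖ ≤ K ∧ ‖db l f x‖ ≤ K := by
  rcases fin3_cases l with rfl | rfl | rfl
  · rw [dz_zero, db_zero]
    exact half_bd (h 0) (h 1)
  · rw [dz_one, db_one]
    exact half_bd (h 2) (h 3)
  · rw [dz_two, db_two]
    exact ⟨h 4, h 4⟩

theorem dz_out {f : E5 → ℂ} {x : E5} (h : ∀ i, pd i f x = 0) (l : Fin 3) :
    dz l f x = 0 ∧ db l f x = 0 := by
  rcases fin3_cases l with rfl | rfl | rfl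
  · rw [dz_zero, db_zero, h 0, h 1]; simp
  · rw [dz_one, db_one, h 2, h 3]; simp
  · rw [dz_two, db_two, h 4]; simp

theorem G2.dz {f : E5 → ℂ} {K : ℝ} (hf : G2 f K) (l : Fin 3) : G (dz l f) K := by
  refine ⟨hf.g.sm.dz l, ?_, ?_, ?_⟩
  · intro x hx
    exact (dz_out (fun i => pd_out hf.g.sm hf.g.out i x hx) l).1
  · intro x
    exact (norm_dz_le (fun i => hf.g.b1 i x) l).1
  · intro i x
    rw [pd_dz hf.g.sm]
    exact (norm_dz_le (fun m => (hf.d i).b1 m x) l).1

theorem G2.db {f : E5 → ℂ} {K : ℝ} (hf : G2 f K) (l : Fin 3) : G (db l f) K := by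
  refine ⟨hf.g.sm.db l, ?_, ?_, ?_⟩
  · intro x hx
    exact (dz_out (fun i => pd_out hf.g.sm hf.g.out i x hx) l).2
  · intro x
    exact (norm_dz_le (fun i => hf.g.b1 i x) l).2
  · intro i x
    rw [pd_db hf.g.sm]
    exact (norm_dz_le (fun m => (hf.d i).b1 m x) l).2

theorem near_b {a : Str} {ε : ℝ} (hε : 0 < ε) (h : Near a 2 ε) (j : Fin 2) (l : Fin 3) :
    G2 (fun y => a j l y - a0 j l y) ε := by
  have hs : Sm (fun y => a j l y - a0 j l y) := (h.sm j l).sub (smS_a0 j l)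
  have ho : ∀ x, 1 ≤ ‖x‖ → (fun y => a j l y - a0 j l y) x = 0 := by
    intro x hx
    show a j l x - a0 j l x = 0
    rw [h.out j l x hx, sub_self]
  have s0 : ∀ x, ‖(fun y => a j l y - a0 j l y) x‖ ≤ ε := by
    intro x
    have h0 := h.bd j l 0 (by norm_num) x
    exact le_of_sq_le_sq h0 hε.le
  have s1 : ∀ i x, ‖pd i (fun y => a j l y - a0 j l y) x‖ ≤ ε := by
    intro i x
    have h0 := h.bd j l 1 (by norm_num) x
    have h1 : ‖pd i (fun y => a j l y - a0 j l y) x‖ ^ 2 ≤ ε ^ 2 := by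
      refine le_trans ?_ h0
      exact Finset.single_le_sum
        (f := fun k : Fin 5 => ‖pd k (fun y => a j l y - a0 j l y) x‖ ^ 2)
        (fun k _ => sq_nonneg _) (Finset.mem_univ i)
    exact le_of_sq_le_sq h1 hε.le
  have s2 : ∀ k i x, ‖pd k (pd i (fun y => a j l y - a0 j l y)) x‖ ≤ ε := by
    intro k i x
    have h0 := h.bd j l 2 le_rfl x
    have h1 : ‖pd k (pd i (fun y => a j l y - a0 j l y)) x‖ ^ 2 ≤ ε ^ 2 := by
      refine le_trans ?_ h0
      refine le_trans (Finset.single_le_sum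
        (f := fun m : Fin 5 => ‖pd m (pd i (fun y => a j l y - a0 j l y)) x‖ ^ 2)
        (fun k _ => sq_nonneg _) (Finset.mem_univ k)) ?_
      exact Finset.single_le_sum
        (f := fun n : Fin 5 => ∑ m : Fin 5, ‖pd m (pd n (fun y => a j l y - a0 j l y)) x‖ ^ 2)
        (fun k _ => Finset.sum_nonneg fun m _ => sq_nonneg _) (Finset.mem_univ i)
    exact le_of_sq_le_sq h1 hε.le
  exact ⟨⟨hs, ho, s0, s1⟩, fun i => ⟨hs.pd i, pd_out hs ho i, s1 i, fun k x => s2 k i x⟩⟩

theorem B_a0 (j : Fin 2) (l : Fin 3) : B (a0 j l) 1 := by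
  by_cases h : l = 2
  · subst h
    rw [a0_two]
    refine ⟨(Sm.const _).mul (Sm.zc j), fun x hx => ?_, fun i x _ => ?_⟩
    · rw [norm_mul, norm_neg, Complex.norm_I, one_mul]
      exact (norm_zc_le j x).trans hx
    · rw [pd_const_mul (Sm.zc j), norm_mul, norm_neg, Complex.norm_I, one_mul]
      exact norm_pd_zc j i x
  · rw [a0_ne j h]
    refine ⟨Sm.const 0, fun x _ => by simp, fun i x _ => by rw [pd_const]; simp⟩

theorem B_a {a : Str} {ε : ℝ} (hε : 0 < ε) (hε1 : ε ≤ 1) (h : Near a 2 ε) (j : Fin 2) (l : Fin 3) :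
    B (a j l) 2 := by
  have hb := near_b hε h j l
  have e : a j l = fun x => a0 j l x + (fun y => a j l y - a0 j l y) x := by
    funext x; ring
  refine ⟨h.sm j l, fun x hx => ?_, fun i x hx => ?_⟩
  · rw [e]
    have h1 := norm_add_le (a0 j l x) ((fun y => a j l y - a0 j l y) x)
    have h2 := (B_a0 j l).b0 x hx
    have h3 := hb.g.b0 x
    exact h1.trans (by linarith)
  · rw [e, pd_add (smS_a0 j l) hb.g.sm]
    have h1 := norm_add_le (pd i (a0 j l) x) (pd i (fun y => a j l y - a0 j l y) x)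
    have h2 := (B_a0 j l).b1 i x hx
    have h3 := hb.g.b1 i x
    exact h1.trans (by linarith)

theorem L_a0 {a : Str} (j k : Fin 2) (l : Fin 3) (x : E5) :
    L a j (fun y => conj (a0 k l y)) x = if j = k ∧ l = 2 then Complex.I else 0 := by
  have h1 : ∀ m, dz m (fun y => conj (a0 k l y)) x = 0 := by
    intro m
    rw [dz_conj (smS_a0 k l), db_a0, map_zero]
  unfold L
  simp only [h1, mul_zero, Finset.sum_const_zero, add_zero]
  rw [db_conj (smS_a0 k l), dz_a0]
  by_cases hl : l = 2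
  · by_cases hj : j = k
    · simp [hl, hj]
    · have : ¬ (Fin.castSucc j = Fin.castSucc k) := fun h => hj (Fin.castSucc_injective _ h)
      simp [hj]
  · simp [hl]

theorem G_cA {a : Str} {ε : ℝ} (hε : 0 < ε) (hε1 : ε ≤ 1) (h : Near a 2 ε) (j k : Fin 2)
    (l : Fin 3) : G (cA a j k l) (13 * ε) := by
  have hc := (near_b hε h k l).conj
  have e : cA a j k l = fun x => db j.castSucc (fun y => conj (a k l y - a0 k l y)) x
      + ∑ m, a j m x * dz m (fun y => conj (a k l y - a0 k l y)) x := by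
    funext x
    show L a j (fun y => conj (a k l y)) x - (if j = k ∧ l = 2 then Complex.I else 0)
      = L a j (fun y => conj (a k l y - a0 k l y)) x
    have e1 : (fun y => conj (a k l y - a0 k l y)) = fun y => conj (a k l y) - conj (a0 k l y) := by
      funext y; rw [map_sub]
    rw [e1, L_sub (h.sm k l).conj (smS_a0 k l).conj, L_a0]
  rw [e]
  have h1 := (hc.db j.castSucc).add (G.sum3 fun m => G.mul (B_a hε hε1 h j m) (hc.dz m))
  exact h1.mono (by linarith)

theorem cB_eq {a : Str} (ha : SmS a) (j k : Fin 2) (l : Fin 3) :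
    cB a j k l = fun x => conj (cA a k j l x) := by
  funext x
  unfold cB cA
  rw [map_sub, conj_L (ha j l).conj]
  simp only [Complex.conj_conj]
  by_cases hj : j = k
  · subst hj
    by_cases hl : l = 2
    · simp [hl]
    · simp [hl]
  · have hj' : ¬ k = j := fun h => hj h.symm
    simp [hj, hj']

theorem G_dv {a : Str} {ε : ℝ} (hε : 0 < ε) (h : Near a 2 ε) (j : Fin 2) :
    G (dv a j) (3 * ε) := by
  have e : dv a j = fun x => ∑ l, db l (fun y => conj (a j l y - a0 j l y)) x := by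
    funext x
    unfold dv
    have h1 : ∀ l, db l (fun y => conj (a j l y - a0 j l y)) x
        = db l (fun y => conj (a j l y)) x - conj (dz l (a0 j l) x) := by
      intro l
      have e1 : (fun y => conj (a j l y - a0 j l y)) = fun y => conj (a j l y) - conj (a0 j l y) := by
        funext y; rw [map_sub]
      rw [e1, db_sub (h.sm j l).conj (smS_a0 j l).conj, db_conj (smS_a0 j l)]
    have h2 : ∀ l, dz l (a0 j l) x = 0 := by
      intro l
      rw [dz_a0, if_neg]
      rintro ⟨rfl, h3⟩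
      rcases fin2_cases j with rfl | rfl
      · exact absurd h3 (by decide)
      · exact absurd h3 (by decide)
    simp only [h1, h2, map_zero, sub_zero]
  rw [e]
  exact G.sum3 fun l => (near_b hε h j l).conj.db l

end BCfs

open BCfs in
theorem pCfs : S_Cfs := by
  refine ⟨13, by norm_num, ?_⟩
  intro a ε hε hε1 h
  have u : ∀ {f : E5 → ℂ}, G f (13 * ε) → Sm f ∧ (∀ x, 1 ≤ ‖x‖ → f x = 0) ∧
      (∀ x, ‖f x‖ ≤ 13 * ε) ∧ ∀ i x, ‖pd i f x‖ ≤ 13 * ε :=
    fun g => ⟨g.sm, g.out, g.b0, g.b1⟩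
  refine ⟨fun j k l => u (G_cA hε hε1 h j k l), fun j k l => ?_, fun j => ?_⟩
  · rw [cB_eq h.smS]
    exact u (G_cA hε hε1 h k j l).conj
  · exact u ((G_dv hε h j).mono (by linarith))

end Pool.Agent.CR5
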