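import Pool.Agent.Lib.CR5.SpecB

/-!
# CR5, HB1: the Hardy inequality on the unit ball
-/

open MeasureTheory Set Filter Topology
open scoped ENNReal ComplexConjugate

noncomputable section

namespace Pool.Agent.CR5

namespace BHB1

theorem zz_nonneg (x : E5) : 0 ≤ zz x := by
  unfold zz
  positivity

theorem zz_cont : Continuous zz := by
  unfold zz
  fun_prop

theorem norm_sq5 (x : E5) :
    ‖x‖ ^ 2 = x 0 ^ 2 + x 1 ^ 2 + x 2 ^ 2 + x 3 ^ 2 + x 4 ^ 2 := by
  rw [EuclideanSpace.norm_sq_eq]
  simp [Fin.sum_univ_succ]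
  ring

theorem zz_le (x : E5) (h : ‖x‖ < 1) : zz x ≤ 1 := by
  have h1 := norm_sq5 x
  have h2 : ‖x‖ ^ 2 ≤ 1 := by
    have := norm_nonneg x
    nlinarith
  have h3 : 0 ≤ x 4 ^ 2 := sq_nonneg _
  unfold zz
  linarith

theorem int_q {f : E5 → ℂ} (hf : Tst f) : Integrable (fun x => ‖f x‖ ^ 2 / (1 + zz x)) volume := by
  refine Continuous.integrable_of_hasCompactSupport ?_ ?_
  · refine Continuous.div ?_ ?_ ?_
    · exact (hf.sm.cont.norm).pow 2
    · exact continuous_const.add zz_cont
    · intro x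
      have := zz_nonneg x
      positivity
  · refine hf.cs.comp_left (g := fun z : ℂ => z) rfl |>.mono ?_
    intro x hx
    rw [Function.mem_support] at hx ⊢
    intro h
    apply hx
    have h' : f x = 0 := h
    rw [h']
    simp

theorem int_s {f : E5 → ℂ} (hf : Tst f) : Integrable (fun x => ‖f x‖ ^ 2) volume := by
  refine Continuous.integrable_of_hasCompactSupport ((hf.sm.cont.norm).pow 2) ?_
  refine hf.cs.comp_left (g := fun z : ℂ => z) rfl |>.mono ?_
  intro x hx
  rw [Function.mem_support] at hx ⊢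
  intro h
  apply hx
  have h' : f x = 0 := h
  rw [h']
  simp

end BHB1

open BHB1 in
theorem pHB1 : S_HB1 := by
  rintro ⟨ε, hε, C, hC, h⟩
  refine ⟨ε, hε, 2 * C, by positivity, ?_⟩
  intro a ha f hf
  have h1 := h a ha f hf
  calc ∫ x in Metric.ball (0 : E5) 1, ‖f x‖ ^ 2
      ≤ ∫ x in Metric.ball (0 : E5) 1, 2 * (‖f x‖ ^ 2 / (1 + zz x)) := by
        refine setIntegral_mono_on (int_s hf).integrableOn
          ((int_q hf).const_mul 2).integrableOn Metric.isOpen_ball.measurableSet ?_
        intro x hx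
        have hx1 : ‖x‖ < 1 := by simpa using hx
        have h2 := zz_le x hx1
        have h3 := zz_nonneg x
        have h4 : 0 ≤ ‖f x‖ ^ 2 := by positivity
        rw [← mul_div_assoc, le_div_iff₀ (by linarith)]
        nlinarith
    _ ≤ ∫ x, 2 * (‖f x‖ ^ 2 / (1 + zz x)) := by
        refine setIntegral_le_integral ((int_q hf).const_mul 2) ?_
        refine Filter.Eventually.of_forall ?_
        intro x
        have h3 := zz_nonneg x
        show 0 ≤ 2 * (‖f x‖ ^ 2 / (1 + zz x))
        positivity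
    _ = 2 * ∫ x, ‖f x‖ ^ 2 / (1 + zz x) := integral_const_mul _ _
    _ ≤ 2 * (C * ∫ x, gr a f x) := by linarith
    _ = 2 * C * ∫ x, gr a f x := by ring

end Pool.Agent.CR5
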