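import Pool.Agent.Lib.CR5.B.Inf

/-!
# CR5, block B: Hardy's inequality
-/

open MeasureTheory Set Filter Topology
open scoped ENNReal ComplexConjugate

noncomputable section

namespace Pool.Agent.CR5

namespace Harx

/-! ### The weight `1 / (1 + |z|²)` -/

/-- the weight -/
def hw (x : E5) : ℝ := (1 + zz x)⁻¹

theorem har_pos (x : E5) : 0 < 1 + zz x := by have := geo_zz_nonneg x; linarith

theorem hw_pos (x : E5) : 0 < hw x := inv_pos.2 (har_pos x)

theorem hw_mul (x : E5) : hw x * (1 + zz x) = 1 := inv_mul_cancel₀ (har_pos x).ne'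

theorem hw_smooth : ContDiff ℝ (⊤ : ℕ∞) hw :=
  (contDiff_const.add geo_contDiff_zz).inv fun x => (har_pos x).ne'

theorem Sm_hw : Sm fun x => (hw x : ℂ) := Sm.ofReal hw_smooth

theorem hw_zz (x : E5) : hw x * zz x ≤ 1 := by
  have h1 := hw_mul x
  have h2 := hw_pos x
  nlinarith

theorem hw_one : (fun x => (hw x : ℂ) * (1 + (zz x : ℂ))) = fun _ => 1 := by
  funext x
  have := hw_mul x
  exact_mod_cast this

theorem hw_dz (l : Fin 3) (x : E5) : dz l (fun y => (hw y : ℂ)) x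
    = -((hw x : ℂ) ^ 2 * dz l (fun y => (zz y : ℂ)) x) := by
  have h1 : dz l (fun y => (hw y : ℂ) * (1 + (zz y : ℂ))) x = 0 := by
    rw [hw_one, dz_const]
  rw [dz_mul Sm_hw ((Sm.const 1).add Sm.zz), dz_add (Sm.const 1) Sm.zz, dz_const, zero_add] at h1
  have h2 : (hw x : ℂ) * (1 + (zz x : ℂ)) = 1 := congrFun hw_one x
  linear_combination (hw x : ℂ) * h1 - dz l (fun y => (hw y : ℂ)) x * h2

theorem hw_db (l : Fin 3) (x : E5) : db l (fun y => (hw y : ℂ)) x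
    = -((hw x : ℂ) ^ 2 * db l (fun y => (zz y : ℂ)) x) := by
  have h1 : db l (fun y => (hw y : ℂ) * (1 + (zz y : ℂ))) x = 0 := by
    rw [hw_one, db_const]
  rw [db_mul Sm_hw ((Sm.const 1).add Sm.zz), db_add (Sm.const 1) Sm.zz, db_const, zero_add] at h1
  have h2 : (hw x : ℂ) * (1 + (zz x : ℂ)) = 1 := congrFun hw_one x
  linear_combination (hw x : ℂ) * h1 - db l (fun y => (hw y : ℂ)) x * h2

/-! ### The difference to the standard structure -/

/-- `b = a - a0` -/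
def hb (a : Str) (j : Fin 2) (l : Fin 3) : E5 → ℂ := fun x => a j l x - a0 j l x

theorem Sm_hb {a : Str} (ha : SmS a) (j : Fin 2) (l : Fin 3) : Sm (hb a j l) :=
  (ha j l).sub (smS_a0 j l)

theorem hb_bd {a : Str} {ε : ℝ} (hε : 0 ≤ ε) (h : Near a 1 ε) (j : Fin 2) (l : Fin 3) (x : E5) :
    ‖hb a j l x‖ ≤ ε := by
  have h1 := h.bd j l 0 (by norm_num) x
  exact (le_abs_self _).trans (abs_le_of_sq_le_sq h1 hε)

theorem hb_pd {a : Str} {ε : ℝ} (hε : 0 ≤ ε) (h : Near a 1 ε) (j : Fin 2) (l : Fin 3)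
    (i : Fin 5) (x : E5) : ‖pd i (hb a j l) x‖ ≤ ε := by
  have h1 := h.bd j l 1 le_rfl x
  have h2 : ‖pd i (hb a j l) x‖ ^ 2 ≤ sq 1 (hb a j l) x := by
    show _ ≤ ∑ k : Fin 5, sq 0 (pd k (hb a j l)) x
    exact Finset.single_le_sum (f := fun k => sq 0 (pd k (hb a j l)) x)
      (fun k _ => by show 0 ≤ ‖_‖ ^ 2; positivity) (Finset.mem_univ i)
  exact (le_abs_self _).trans (abs_le_of_sq_le_sq (h2.trans h1) hε)

theorem hb_dz {a : Str} {ε : ℝ} (hε : 0 ≤ ε) (h : Near a 1 ε) (j : Fin 2) (l : Fin 3)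
    (m : Fin 3) (x : E5) : ‖dz m (hb a j l) x‖ ≤ ε := by
  have h1 := fun i => hb_pd hε h j l i x
  have key : ∀ i k : Fin 5, ‖(pd i (hb a j l) x - Complex.I * pd k (hb a j l) x) / 2‖ ≤ ε := by
    intro i k
    rw [norm_div, Complex.norm_ofNat, div_le_iff₀ (by norm_num)]
    calc _ ≤ ‖pd i (hb a j l) x‖ + ‖Complex.I * pd k (hb a j l) x‖ := norm_sub_le _ _
      _ ≤ ε + ε := by
        rw [norm_mul, Complex.norm_I, one_mul]; exact add_le_add (h1 i) (h1 k)
      _ = ε * 2 := by ring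
  rcases fin3_cases m with rfl | rfl | rfl
  · rw [dz_zero]; exact key 0 1
  · rw [dz_one]; exact key 2 3
  · rw [dz_two]; exact h1 4

theorem har_pd_out {g : E5 → ℂ} (hg : ∀ x, 1 ≤ ‖x‖ → g x = 0) (i : Fin 5) {x : E5}
    (hx : 1 < ‖x‖) : pd i g x = 0 := by
  have h1 : g =ᶠ[𝓝 x] fun _ => 0 := by
    have : {y : E5 | 1 < ‖y‖} ∈ 𝓝 x := (isOpen_lt continuous_const continuous_norm).mem_nhds hx
    filter_upwards [this] with y hy
    exact hg y (le_of_lt hy)
  unfold pd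
  rw [h1.fderiv_eq]; simp

theorem har_dz_out {g : E5 → ℂ} (hg : ∀ x, 1 ≤ ‖x‖ → g x = 0) (l : Fin 3) {x : E5}
    (hx : 1 < ‖x‖) : dz l g x = 0 := by
  rcases fin3_cases l with rfl | rfl | rfl <;>
    simp [dz_zero, dz_one, dz_two, har_pd_out hg _ hx]

theorem har_dv0 (j : Fin 2) (x : E5) : dv a0 j x = 0 := by
  have h : ∀ l : Fin 3, db l (fun y => conj (a0 j l y)) x = 0 := by
    intro l
    rw [db_conj (smS_a0 j l)]
    by_cases hl : l = 2
    · have h1 : a0 j l = fun y => -(Complex.I * zc j y) := by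
        funext y; simp [a0, hl]
      rw [h1, hl, dz_neg, dz_const_mul (Sm.zc j), geo_dz_zc]
      have : (2 : Fin 3) ≠ j.castSucc := by fin_cases j <;> decide
      simp [this]
    · have h1 : a0 j l = fun _ => 0 := by
        funext y; simp [a0, hl]
      rw [h1, dz_const, map_zero]
  simp only [dv, h, Finset.sum_const_zero]

theorem har_dv {a : Str} (ha : SmS a) (j : Fin 2) (x : E5) :
    dv a j x = ∑ l, conj (dz l (hb a j l) x) := by
  have h : ∀ l : Fin 3, db l (fun y => conj (a j l y)) x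
      = db l (fun y => conj (a0 j l y)) x + conj (dz l (hb a j l) x) := by
    intro l
    rw [db_conj (ha j l), db_conj (smS_a0 j l), ← map_add]
    congr 1
    have : hb a j l = fun y => a j l y - a0 j l y := rfl
    rw [this, dz_sub (ha j l) (smS_a0 j l)]
    ring
  have h0 := har_dv0 j x
  simp only [dv] at h0 ⊢
  simp only [h, Finset.sum_add_distrib, h0, zero_add]

/-- `|z_j| |dv a j| ≤ 3 ε` everywhere. -/
theorem har_zdv {a : Str} {ε : ℝ} (hε : 0 ≤ ε) (h : Near a 1 ε) (j : Fin 2) (x : E5) :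
    ‖zc j x‖ * ‖dv a j x‖ ≤ 3 * ε := by
  rw [har_dv h.smS j x]
  by_cases hx : 1 < ‖x‖
  · have h1 : ∀ l : Fin 3, dz l (hb a j l) x = 0 := fun l =>
      har_dz_out (fun y hy => by
        show a j l y - a0 j l y = 0
        rw [h.out j l y hy, sub_self]) l hx
    simp only [h1, map_zero, Finset.sum_const_zero, norm_zero, mul_zero]
    positivity
  · have hx' : ‖x‖ ≤ 1 := not_lt.1 hx
    have h1 : ‖zc j x‖ ≤ 1 := by
      have h2 : ‖zc j x‖ ^ 2 ≤ 1 ^ 2 := by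
        have h3 := (geo_zc_le j x).trans (geo_zz_le x)
        have h4 : ‖x‖ ^ 2 ≤ 1 ^ 2 := pow_le_pow_left₀ (norm_nonneg _) hx' 2
        linarith
      exact (le_abs_self _).trans (abs_le_of_sq_le_sq h2 (by norm_num))
    have h2 : ‖∑ l, conj (dz l (hb a j l) x)‖ ≤ 3 * ε := by
      refine (norm_sum_le _ _).trans ?_
      rw [Fin.sum_univ_three]
      simp only [RCLike.norm_conj]
      have := fun l => hb_dz hε h j l l x
      linarith [this 0, this 1, this 2]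
    calc ‖zc j x‖ * ‖∑ l, conj (dz l (hb a j l) x)‖ ≤ 1 * (3 * ε) := by gcongr
      _ = 3 * ε := one_mul _

/-! ### The vector field applied to the weight -/

theorem har_Lzb (a : Str) (j : Fin 2) (x : E5) : L a j (fun y => conj (zc j y)) x = 1 := by
  simp only [L, geo_db_zb, geo_dz_zb, mul_zero, Finset.sum_const_zero, add_zero, if_true]

theorem har_Lzz (a : Str) (j : Fin 2) (x : E5) : L a j (fun y => (zz y : ℂ)) x
    = zc j x + (hb a j 0 x * conj (zc 0 x) + hb a j 1 x * conj (zc 1 x)) := by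
  have h1 : L a j (fun y => (zz y : ℂ)) x = L a0 j (fun y => (zz y : ℂ)) x
      + ∑ l, hb a j l x * dz l (fun y => (zz y : ℂ)) x := by
    simp only [L, hb, Fin.sum_univ_three]; ring
  rw [h1, geo_L0_zz, Fin.sum_univ_three]
  simp [geo_dz_zz]

theorem har_Lhw (a : Str) (j : Fin 2) (x : E5) : L a j (fun y => (hw y : ℂ)) x
    = -((hw x : ℂ) ^ 2 * L a j (fun y => (zz y : ℂ)) x) := by
  simp only [L, hw_dz, hw_db, Fin.sum_univ_three]; ring

/-- the weight times `conj z_j` -/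
def uz (j : Fin 2) (x : E5) : ℂ := (hw x : ℂ) * conj (zc j x)

theorem Sm_uz (j : Fin 2) : Sm (uz j) := Sm_hw.mul (Sm.zc j).conj

theorem har_Luz (a : Str) (j : Fin 2) (x : E5) : L a j (uz j) x
    = (hw x : ℂ) - (hw x : ℂ) ^ 2 * (conj (zc j x) * zc j x
      + conj (zc j x) * (hb a j 0 x * conj (zc 0 x) + hb a j 1 x * conj (zc 1 x))) := by
  have h : uz j = fun y => (hw y : ℂ) * conj (zc j y) := rfl
  rw [h, L_mul Sm_hw (Sm.zc j).conj, har_Lzb, har_Lhw, har_Lzz]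
  ring

theorem har_re {a : Str} {ε : ℝ} (hε : 0 ≤ ε) (h : Near a 1 ε) (x : E5) :
    (1 - 2 * ε) * hw x ≤ (L a 0 (uz 0) x + L a 1 (uz 1) x).re := by
  have hz := geo_zz x
  have e1 : L a 0 (uz 0) x + L a 1 (uz 1) x
      = ((2 * hw x - hw x ^ 2 * zz x : ℝ) : ℂ) - (hw x : ℂ) ^ 2 *
        (conj (zc 0 x) * (hb a 0 0 x * conj (zc 0 x) + hb a 0 1 x * conj (zc 1 x))
        + conj (zc 1 x) * (hb a 1 0 x * conj (zc 0 x) + hb a 1 1 x * conj (zc 1 x))) := by
    rw [har_Luz, har_Luz]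
    push_cast
    rw [hz]
    ring
  rw [e1, Complex.sub_re, Complex.ofReal_re]
  have hb' := fun j l => hb_bd hε h j l x
  have n0 := norm_nonneg (zc 0 x)
  have n1 := norm_nonneg (zc 1 x)
  have hw0 := hw_pos x
  have e2 : ‖(hw x : ℂ) ^ 2 *
        (conj (zc 0 x) * (hb a 0 0 x * conj (zc 0 x) + hb a 0 1 x * conj (zc 1 x))
        + conj (zc 1 x) * (hb a 1 0 x * conj (zc 0 x) + hb a 1 1 x * conj (zc 1 x)))‖
      ≤ hw x ^ 2 * (‖zc 0 x‖ * (ε * ‖zc 0 x‖ + ε * ‖zc 1 x‖)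
        + ‖zc 1 x‖ * (ε * ‖zc 0 x‖ + ε * ‖zc 1 x‖)) := by
    rw [norm_mul, norm_pow, Complex.norm_real, Real.norm_eq_abs, abs_of_pos hw0]
    have e3 : ∀ j : Fin 2, ‖hb a j 0 x * conj (zc 0 x) + hb a j 1 x * conj (zc 1 x)‖
        ≤ ε * ‖zc 0 x‖ + ε * ‖zc 1 x‖ := by
      intro j
      refine (norm_add_le _ _).trans ?_
      rw [norm_mul, norm_mul, RCLike.norm_conj, RCLike.norm_conj]
      exact add_le_add (mul_le_mul_of_nonneg_right (hb' j 0) n0)
        (mul_le_mul_of_nonneg_right (hb' j 1) n1)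
    refine mul_le_mul_of_nonneg_left ?_ (by positivity)
    refine (norm_add_le _ _).trans ?_
    rw [norm_mul, norm_mul, RCLike.norm_conj, RCLike.norm_conj]
    exact add_le_add (mul_le_mul_of_nonneg_left (e3 0) n0)
      (mul_le_mul_of_nonneg_left (e3 1) n1)
  have e4 := (Complex.re_le_norm ((hw x : ℂ) ^ 2 *
        (conj (zc 0 x) * (hb a 0 0 x * conj (zc 0 x) + hb a 0 1 x * conj (zc 1 x))
        + conj (zc 1 x) * (hb a 1 0 x * conj (zc 0 x) + hb a 1 1 x * conj (zc 1 x))))).trans e2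
  have e5 := geo_zz_norm x
  have e6 := hw_zz x
  have e7 : ‖zc 0 x‖ * (ε * ‖zc 0 x‖ + ε * ‖zc 1 x‖)
        + ‖zc 1 x‖ * (ε * ‖zc 0 x‖ + ε * ‖zc 1 x‖) ≤ 2 * ε * zz x := by
    rw [e5]
    nlinarith [mul_nonneg hε (sq_nonneg (‖zc 0 x‖ - ‖zc 1 x‖))]
  have e8 : hw x ^ 2 * (‖zc 0 x‖ * (ε * ‖zc 0 x‖ + ε * ‖zc 1 x‖)
        + ‖zc 1 x‖ * (ε * ‖zc 0 x‖ + ε * ‖zc 1 x‖)) ≤ 2 * ε * hw x := by
    calc _ ≤ hw x ^ 2 * (2 * ε * zz x) := mul_le_mul_of_nonneg_left e7 (by positivity)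
      _ = 2 * ε * hw x * (hw x * zz x) := by ring
      _ ≤ 2 * ε * hw x * 1 := mul_le_mul_of_nonneg_left e6 (by positivity)
      _ = _ := by ring
  have e9 : hw x ^ 2 * zz x ≤ hw x := by
    calc hw x ^ 2 * zz x = hw x * (hw x * zz x) := by ring
      _ ≤ hw x * 1 := mul_le_mul_of_nonneg_left e6 hw0.le
      _ = hw x := by ring
  linarith

/-! ### The integral identity -/

/-- the integrand -/
def hR (a : Str) (f : E5 → ℂ) (j : Fin 2) (x : E5) : ℂ :=
  (uz j x * L a j f x + L a j (uz j) x * f x) * conj (f x)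
    + uz j x * f x * conj (Lb a j f x + dv a j x * f x)

theorem hR_tst {a : Str} (ha : SmS a) {f : E5 → ℂ} (hf : Tst f) (j : Fin 2) : Tst (hR a f j) := by
  have h1 : Tst fun x => (uz j x * L a j f x + L a j (uz j) x * f x) * conj (f x) :=
    Tst.mul_left (((Sm_uz j).mul (hf.sm.L ha j)).add (((Sm_uz j).L ha j).mul hf.sm)) hf.conj
  have h2 : Tst fun x => uz j x * f x * conj (Lb a j f x + dv a j x * f x) :=
    Tst.mul_right (Tst.mul_left (Sm_uz j) hf)
      (((hf.sm.Lb ha j).add ((Sm.dv ha j).mul hf.sm)).conj)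
  exact h1.add h2

theorem hR_int {a : Str} (ha : SmS a) {f : E5 → ℂ} (hf : Tst f) (j : Fin 2) :
    ∫ x, hR a f j x = 0 := by
  have h := ibp_L' ha j (Tst.mul_left (Sm_uz j) hf) hf.sm
  have e1 : ∀ x, L a j (fun y => uz j y * f y) x = uz j x * L a j f x + L a j (uz j) x * f x :=
    fun x => L_mul (Sm_uz j) hf.sm j x
  have e2 : ∀ x, conj (Ls a j f x) = -conj (Lb a j f x + dv a j x * f x) := by
    intro x
    rw [Ls_eq ha hf.sm, ← map_neg]
    congr 1
    ring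
  simp only [e1, e2, mul_neg, integral_neg] at h
  have h1 : Tst fun x => (uz j x * L a j f x + L a j (uz j) x * f x) * conj (f x) :=
    Tst.mul_left (((Sm_uz j).mul (hf.sm.L ha j)).add (((Sm_uz j).L ha j).mul hf.sm)) hf.conj
  have h2 : Tst fun x => uz j x * f x * conj (Lb a j f x + dv a j x * f x) :=
    Tst.mul_right (Tst.mul_left (Sm_uz j) hf)
      (((hf.sm.Lb ha j).add ((Sm.dv ha j).mul hf.sm)).conj)
  simp only [hR]
  rw [integral_add h1.integrable h2.integrable, h]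
  ring

theorem har_uz_sq (j : Fin 2) (x : E5) : ‖uz j x‖ ^ 2 ≤ hw x := by
  unfold uz
  rw [norm_mul, Complex.norm_real, Real.norm_eq_abs, abs_of_pos (hw_pos x), RCLike.norm_conj]
  have h1 := geo_zc_le j x
  have h2 := hw_zz x
  have h3 := hw_pos x
  calc (hw x * ‖zc j x‖) ^ 2 = hw x ^ 2 * ‖zc j x‖ ^ 2 := by ring
    _ ≤ hw x ^ 2 * zz x := mul_le_mul_of_nonneg_left h1 (by positivity)
    _ = hw x * (hw x * zz x) := by ring
    _ ≤ hw x * 1 := mul_le_mul_of_nonneg_left h2 h3.le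
    _ = hw x := by ring

theorem har_term (u w f : ℂ) (h : ℝ) (hu : ‖u‖ ^ 2 ≤ h) (g : ℂ) (hg : ‖g‖ = ‖f‖) :
    -(1 / 8 * h * ‖f‖ ^ 2 + 2 * ‖w‖ ^ 2) ≤ (u * w * g).re := by
  have h1 : ‖u * w * g‖ = ‖u‖ * ‖f‖ * ‖w‖ := by rw [norm_mul, norm_mul, hg]; ring
  have h2 := Complex.abs_re_le_norm (u * w * g)
  rw [h1] at h2
  have h3 := neg_abs_le (u * w * g).re
  have h4 : ‖u‖ * ‖f‖ * ‖w‖ ≤ 1 / 8 * h * ‖f‖ ^ 2 + 2 * ‖w‖ ^ 2 := by
    have h5 : 0 ≤ (‖u‖ * ‖f‖ - 4 * ‖w‖) ^ 2 := sq_nonneg _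
    have h6 : ‖u‖ ^ 2 * ‖f‖ ^ 2 ≤ h * ‖f‖ ^ 2 := mul_le_mul_of_nonneg_right hu (by positivity)
    nlinarith
  linarith

theorem har_point {a : Str} {ε : ℝ} (hε : 0 ≤ ε) (hε1 : ε ≤ 1 / 32) (h : Near a 1 ε)
    (f : E5 → ℂ) (x : E5) :
    1 / 4 * (hw x * ‖f x‖ ^ 2) - 2 * gr a f x ≤ (hR a f 0 x + hR a f 1 x).re := by
  have e1 : hR a f 0 x + hR a f 1 x
      = (L a 0 (uz 0) x + L a 1 (uz 1) x) * (f x * conj (f x))
        + (uz 0 x * L a 0 f x * conj (f x) + uz 1 x * L a 1 f x * conj (f x)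
        + uz 0 x * conj (Lb a 0 f x) * f x + uz 1 x * conj (Lb a 1 f x) * f x)
        + (uz 0 x * conj (dv a 0 x) + uz 1 x * conj (dv a 1 x)) * (f x * conj (f x)) := by
    simp only [hR, map_add, map_mul]; ring
  have e2 : f x * conj (f x) = ((‖f x‖ ^ 2 : ℝ) : ℂ) := by
    rw [Complex.mul_conj, Complex.normSq_eq_norm_sq]
  rw [e1, e2, Complex.add_re, Complex.add_re, Complex.re_mul_ofReal, Complex.re_mul_ofReal]
  have h1 := har_re hε h x
  have hu := fun j => har_uz_sq j x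
  have t1 := har_term (uz 0 x) (L a 0 f x) (f x) (hw x) (hu 0) (conj (f x)) (RCLike.norm_conj _)
  have t2 := har_term (uz 1 x) (L a 1 f x) (f x) (hw x) (hu 1) (conj (f x)) (RCLike.norm_conj _)
  have t3 := har_term (uz 0 x) (conj (Lb a 0 f x)) (f x) (hw x) (hu 0) (f x) rfl
  have t4 := har_term (uz 1 x) (conj (Lb a 1 f x)) (f x) (hw x) (hu 1) (f x) rfl
  rw [RCLike.norm_conj] at t3 t4
  simp only [Complex.add_re]
  have h2 : -(6 * ε * hw x) ≤ (uz 0 x * conj (dv a 0 x)).re + (uz 1 x * conj (dv a 1 x)).re := by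
    have key : ∀ j : Fin 2, -(3 * ε * hw x) ≤ (uz j x * conj (dv a j x)).re := by
      intro j
      have h3 := Complex.abs_re_le_norm (uz j x * conj (dv a j x))
      have h4 := neg_abs_le (uz j x * conj (dv a j x)).re
      have h5 : ‖uz j x * conj (dv a j x)‖ = hw x * (‖zc j x‖ * ‖dv a j x‖) := by
        unfold uz
        rw [norm_mul, norm_mul, Complex.norm_real, Real.norm_eq_abs, abs_of_pos (hw_pos x),
          RCLike.norm_conj, RCLike.norm_conj]
        ring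
      have h6 : hw x * (‖zc j x‖ * ‖dv a j x‖) ≤ hw x * (3 * ε) :=
        mul_le_mul_of_nonneg_left (har_zdv hε h j x) (hw_pos x).le
      linarith
    linarith [key 0, key 1]
  have hF : 0 ≤ ‖f x‖ ^ 2 := by positivity
  have h3 := mul_le_mul_of_nonneg_right h1 hF
  have h4 := mul_le_mul_of_nonneg_right h2 hF
  have hg : gr a f x = (‖L a 0 f x‖ ^ 2 + ‖Lb a 0 f x‖ ^ 2) + (‖L a 1 f x‖ ^ 2 + ‖Lb a 1 f x‖ ^ 2) := by
    simp only [gr, Fin.sum_univ_two]
  rw [hg]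
  have h5 : ε * (hw x * ‖f x‖ ^ 2) ≤ 1 / 32 * (hw x * ‖f x‖ ^ 2) :=
    mul_le_mul_of_nonneg_right hε1 (mul_nonneg (hw_pos x).le hF)
  simp only [Complex.add_re] at h3
  nlinarith

theorem gr_cont {a : Str} (ha : SmS a) {f : E5 → ℂ} (hf : Sm f) : Continuous (gr a f) := by
  unfold gr
  refine continuous_finsetSum _ fun j _ => ?_
  exact ((hf.L ha j).cont.norm.pow 2).add ((hf.Lb ha j).cont.norm.pow 2)

theorem gr_integrable {a : Str} (ha : SmS a) {f : E5 → ℂ} (hf : Tst f) :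
    Integrable (gr a f) volume := by
  apply (gr_cont ha hf.sm).integrable_of_hasCompactSupport
  have h1 : gr a f = fun x => ∑ j : Fin 2, (‖L a j f x‖ ^ 2 + ‖Lb a j f x‖ ^ 2) := rfl
  rw [h1]
  have h2 : ∀ j : Fin 2, HasCompactSupport fun x => ‖L a j f x‖ ^ 2 + ‖Lb a j f x‖ ^ 2 := by
    intro j
    exact ((hf.L ha j).cs.comp_left (g := fun z : ℂ => ‖z‖ ^ 2) (by simp)).add
      ((hf.Lb ha j).cs.comp_left (g := fun z : ℂ => ‖z‖ ^ 2) (by simp))
  simp only [Fin.sum_univ_two]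
  exact (h2 0).add (h2 1)

theorem main : S_Har := by
  refine ⟨1 / 32, by norm_num, 8, by norm_num, ?_⟩
  intro a ha f hf
  have hs := ha.smS
  have hI : Integrable (fun x => hw x * ‖f x‖ ^ 2) volume := by
    have hc : Continuous fun x => hw x * ‖f x‖ ^ 2 :=
      hw_smooth.continuous.mul (hf.sm.cont.norm.pow 2)
    apply hc.integrable_of_hasCompactSupport
    exact (hf.cs.comp_left (g := fun z : ℂ => ‖z‖ ^ 2) (by simp)).mul_left
  have hG := gr_integrable hs hf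
  have hR1 : Tst fun x => hR a f 0 x + hR a f 1 x := (hR_tst hs hf 0).add (hR_tst hs hf 1)
  have h0 : ∫ x, (hR a f 0 x + hR a f 1 x) = 0 := by
    rw [integral_add (hR_tst hs hf 0).integrable (hR_tst hs hf 1).integrable, hR_int hs hf,
      hR_int hs hf, add_zero]
  have h1 : ∫ x, (hR a f 0 x + hR a f 1 x).re = 0 := by
    have h2 := integral_re (𝕜 := ℂ) hR1.integrable
    simp only [RCLike.re_eq_complex_re] at h2
    rw [h2, h0, Complex.zero_re]
  have hRe : Integrable (fun x => (hR a f 0 x + hR a f 1 x).re) volume := by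
    have := hR1.integrable.re
    simpa using this
  have h2 : ∫ x, (1 / 4 * (hw x * ‖f x‖ ^ 2) - 2 * gr a f x)
      ≤ ∫ x, (hR a f 0 x + hR a f 1 x).re :=
    integral_mono ((hI.const_mul _).sub (hG.const_mul _)) hRe
      fun x => har_point (by norm_num) le_rfl ha f x
  rw [h1, integral_sub (hI.const_mul _) (hG.const_mul _), integral_const_mul,
    integral_const_mul] at h2
  have h3 : ∀ x, ‖f x‖ ^ 2 / (1 + zz x) = hw x * ‖f x‖ ^ 2 := by
    intro x; unfold hw; rw [div_eq_mul_inv, mul_comm]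
  simp only [h3]
  linarith

end Harx

/-- Hardy's inequality. -/
theorem tHar : S_Har := Harx.main

end Pool.Agent.CR5
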