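import Pool.Agent.Lib.CR5.B.Geo

/-!
# CR5, block B: cutoff functions at infinity
-/

open MeasureTheory Set Filter Topology
open scoped ENNReal ComplexConjugate

noncomputable section

namespace Pool.Agent.CR5

/-- Cutoff functions at infinity, with a bound for the right invariant derivatives. -/
def S_Inf2 : Prop := ∃ C > 0, ∀ ρ : ℝ, 1 ≤ ρ → ∃ χ : E5 → ℂ, Tst χ ∧ (∀ x, ‖χ x‖ ≤ 1) ∧
  (∀ x, conj (χ x) = χ x) ∧ (∀ x, ‖x‖ ≤ ρ → χ x = 1) ∧
  (∀ j x, ‖L a0 j χ x‖ ≤ C / ρ) ∧ (∀ j x, ‖Lb a0 j χ x‖ ≤ C / ρ) ∧ (∀ x, ‖pd 4 χ x‖ ≤ C / ρ) ∧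
  ∀ k x, ‖Zf k χ x‖ ≤ C / ρ

/-! ### Chain rule -/

theorem inf_pd_comp {φ : ℝ → ℝ} {g : E5 → ℝ} (hφ : ContDiff ℝ (⊤ : ℕ∞) φ)
    (hg : ContDiff ℝ (⊤ : ℕ∞) g) (i : Fin 5) (x : E5) :
    pd i (fun y => ((φ (g y) : ℝ) : ℂ)) x
      = ((deriv φ (g x) : ℝ) : ℂ) * pd i (fun y => ((g y : ℝ) : ℂ)) x := by
  unfold pd
  have hgd : HasFDerivAt g (fderiv ℝ g x) x :=
    ((hg.differentiable (by norm_num)) x).hasFDerivAt
  have hφd : HasDerivAt φ (deriv φ (g x)) (g x) :=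
    ((hφ.differentiable (by norm_num)) (g x)).hasDerivAt
  have h1 : HasFDerivAt (fun y => φ (g y)) (deriv φ (g x) • fderiv ℝ g x) x :=
    hφd.comp_hasFDerivAt x hgd
  have h2 : HasFDerivAt (fun y => ((φ (g y) : ℝ) : ℂ))
      (Complex.ofRealCLM.comp (deriv φ (g x) • fderiv ℝ g x)) x :=
    Complex.ofRealCLM.hasFDerivAt.comp x h1
  have h3 : HasFDerivAt (fun y => ((g y : ℝ) : ℂ)) (Complex.ofRealCLM.comp (fderiv ℝ g x)) x :=
    Complex.ofRealCLM.hasFDerivAt.comp x hgd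
  rw [h2.fderiv, h3.fderiv]
  simp

theorem inf_dz_comp {φ : ℝ → ℝ} {g : E5 → ℝ} (hφ : ContDiff ℝ (⊤ : ℕ∞) φ)
    (hg : ContDiff ℝ (⊤ : ℕ∞) g) (l : Fin 3) (x : E5) :
    dz l (fun y => ((φ (g y) : ℝ) : ℂ)) x
      = ((deriv φ (g x) : ℝ) : ℂ) * dz l (fun y => ((g y : ℝ) : ℂ)) x := by
  rcases fin3_cases l with rfl | rfl | rfl <;>
    simp only [dz_zero, dz_one, dz_two, inf_pd_comp hφ hg] <;> ring

theorem inf_db_comp {φ : ℝ → ℝ} {g : E5 → ℝ} (hφ : ContDiff ℝ (⊤ : ℕ∞) φ)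
    (hg : ContDiff ℝ (⊤ : ℕ∞) g) (l : Fin 3) (x : E5) :
    db l (fun y => ((φ (g y) : ℝ) : ℂ)) x
      = ((deriv φ (g x) : ℝ) : ℂ) * db l (fun y => ((g y : ℝ) : ℂ)) x := by
  rcases fin3_cases l with rfl | rfl | rfl <;>
    simp only [db_zero, db_one, db_two, inf_pd_comp hφ hg] <;> ring

theorem inf_L_comp {φ : ℝ → ℝ} {g : E5 → ℝ} (hφ : ContDiff ℝ (⊤ : ℕ∞) φ)
    (hg : ContDiff ℝ (⊤ : ℕ∞) g) (a : Str) (j : Fin 2) (x : E5) :
    L a j (fun y => ((φ (g y) : ℝ) : ℂ)) x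
      = ((deriv φ (g x) : ℝ) : ℂ) * L a j (fun y => ((g y : ℝ) : ℂ)) x := by
  simp only [L, inf_dz_comp hφ hg, inf_db_comp hφ hg, Fin.sum_univ_three]; ring

theorem inf_Lb_comp {φ : ℝ → ℝ} {g : E5 → ℝ} (hφ : ContDiff ℝ (⊤ : ℕ∞) φ)
    (hg : ContDiff ℝ (⊤ : ℕ∞) g) (a : Str) (j : Fin 2) (x : E5) :
    Lb a j (fun y => ((φ (g y) : ℝ) : ℂ)) x
      = ((deriv φ (g x) : ℝ) : ℂ) * Lb a j (fun y => ((g y : ℝ) : ℂ)) x := by
  simp only [Lb, inf_dz_comp hφ hg, inf_db_comp hφ hg, Fin.sum_univ_three]; ring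

theorem inf_Zf_comp {φ : ℝ → ℝ} {g : E5 → ℝ} (hφ : ContDiff ℝ (⊤ : ℕ∞) φ)
    (hg : ContDiff ℝ (⊤ : ℕ∞) g) (k : Fin 5) (x : E5) :
    Zf k (fun y => ((φ (g y) : ℝ) : ℂ)) x
      = ((deriv φ (g x) : ℝ) : ℂ) * Zf k (fun y => ((g y : ℝ) : ℂ)) x := by
  simp only [Zf, inf_pd_comp hφ hg]; ring

/-! ### A cutoff function on the line -/

/-- `1` up to `1`, `0` from `2`. -/
def cutR (s : ℝ) : ℝ := Real.smoothTransition (2 - s)

theorem cutR_smooth : ContDiff ℝ (⊤ : ℕ∞) cutR := by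
  unfold cutR
  exact Real.smoothTransition.contDiff.comp (contDiff_const.sub contDiff_id)

theorem cutR_one {s : ℝ} (h : s ≤ 1) : cutR s = 1 :=
  Real.smoothTransition.one_of_one_le (by linarith)

theorem cutR_zero {s : ℝ} (h : 2 ≤ s) : cutR s = 0 :=
  Real.smoothTransition.zero_of_nonpos (by linarith)

theorem cutR_nonneg (s : ℝ) : 0 ≤ cutR s := Real.smoothTransition.nonneg _

theorem cutR_le_one (s : ℝ) : cutR s ≤ 1 := Real.smoothTransition.le_one _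

theorem cutR_deriv_zero {s : ℝ} (h : 2 < s) : deriv cutR s = 0 := by
  have h1 : cutR =ᶠ[𝓝 s] fun _ => 0 := by
    filter_upwards [Ioi_mem_nhds h] with y hy
    exact cutR_zero (le_of_lt hy)
  rw [h1.deriv_eq]; simp

theorem cutR_deriv_zero' {s : ℝ} (h : s < 1) : deriv cutR s = 0 := by
  have h1 : cutR =ᶠ[𝓝 s] fun _ => 1 := by
    filter_upwards [Iio_mem_nhds h] with y hy
    exact cutR_one (le_of_lt hy)
  rw [h1.deriv_eq]; simp

theorem cutR_deriv_bound : ∃ B : ℝ, 0 < B ∧ ∀ s, |deriv cutR s| ≤ B := by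
  have hc : Continuous (deriv cutR) := cutR_smooth.continuous_deriv (by norm_num)
  obtain ⟨B, hB⟩ := (isCompact_Icc (a := (1 : ℝ)) (b := 2)).exists_bound_of_continuousOn
    hc.continuousOn
  refine ⟨|B| + 1, by positivity, fun s => ?_⟩
  by_cases h1 : s < 1
  · rw [cutR_deriv_zero' h1]; simp; positivity
  by_cases h2 : 2 < s
  · rw [cutR_deriv_zero h2]; simp; positivity
  have h3 := hB s ⟨not_lt.1 h1, not_lt.1 h2⟩
  rw [Real.norm_eq_abs] at h3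
  have := le_abs_self B
  linarith

/-! ### The gauge -/

/-- The gauge `|z|⁴ + t²`. -/
def gau (x : E5) : ℝ := zz x ^ 2 + x 4 ^ 2

theorem gau_smooth : ContDiff ℝ (⊤ : ℕ∞) gau :=
  (geo_contDiff_zz.pow 2).add ((contDiff_coord 4).pow 2)

theorem gau_nonneg (x : E5) : 0 ≤ gau x := by unfold gau; positivity

theorem gau_fun : (fun x => ((gau x : ℝ) : ℂ))
    = fun x => (zz x : ℂ) * (zz x : ℂ) + (x 4 : ℂ) * (x 4 : ℂ) := by
  funext x; unfold gau; push_cast; ring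

theorem gau_L (j : Fin 2) (x : E5) : L a0 j (fun y => ((gau y : ℝ) : ℂ)) x
    = 2 * (zz x : ℂ) * zc j x - 2 * (x 4 : ℂ) * (Complex.I * zc j x) := by
  rw [gau_fun, L_add (Sm.zz.mul Sm.zz) ((Sm.coord 4).mul (Sm.coord 4)), L_mul Sm.zz Sm.zz,
    L_mul (Sm.coord 4) (Sm.coord 4), geo_L0_zz, geo_L0_t]
  ring

theorem gau_Lb (j : Fin 2) (x : E5) : Lb a0 j (fun y => ((gau y : ℝ) : ℂ)) x
    = 2 * (zz x : ℂ) * conj (zc j x) + 2 * (x 4 : ℂ) * (Complex.I * conj (zc j x)) := by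
  rw [gau_fun, Lb_add (Sm.zz.mul Sm.zz) ((Sm.coord 4).mul (Sm.coord 4)), Lb_mul Sm.zz Sm.zz,
    Lb_mul (Sm.coord 4) (Sm.coord 4), geo_Lb0_zz, geo_Lb0_t]
  ring

theorem gau_pd_zz (i : Fin 5) (x : E5) : pd i (fun y => (zz y : ℂ)) x
    = if i = 4 then 0 else 2 * (x i : ℂ) := by
  have h : (fun y : E5 => (zz y : ℂ)) = fun y => (y 0 : ℂ) * (y 0 : ℂ) + (y 1 : ℂ) * (y 1 : ℂ)
      + (y 2 : ℂ) * (y 2 : ℂ) + (y 3 : ℂ) * (y 3 : ℂ) := by
    funext y; unfold zz; push_cast; ring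
  have s : ∀ i : Fin 5, Sm fun y : E5 => (y i : ℂ) * (y i : ℂ) := fun i =>
    (Sm.coord i).mul (Sm.coord i)
  rw [h, pd_add (((s 0).add (s 1)).add (s 2)) (s 3), pd_add ((s 0).add (s 1)) (s 2),
    pd_add (s 0) (s 1), pd_mul (Sm.coord 0) (Sm.coord 0), pd_mul (Sm.coord 1) (Sm.coord 1),
    pd_mul (Sm.coord 2) (Sm.coord 2), pd_mul (Sm.coord 3) (Sm.coord 3)]
  simp only [geo_pd_coord]
  fin_cases i <;> simp <;> ring

theorem gau_pd (i : Fin 5) (x : E5) : pd i (fun y => ((gau y : ℝ) : ℂ)) x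
    = if i = 4 then 2 * (x 4 : ℂ) else 4 * (zz x : ℂ) * (x i : ℂ) := by
  rw [gau_fun, pd_add (Sm.zz.mul Sm.zz) ((Sm.coord 4).mul (Sm.coord 4)), pd_mul Sm.zz Sm.zz,
    pd_mul (Sm.coord 4) (Sm.coord 4), gau_pd_zz]
  simp only [geo_pd_coord]
  by_cases h : i = 4
  · simp [h]; ring
  · simp [h]; ring

theorem inf_coord_le (i : Fin 5) (hi : i ≠ 4) (x : E5) : |x i| ^ 2 ≤ zz x := by
  rw [sq_abs]; unfold zz
  fin_cases i
  · simp; nlinarith [sq_nonneg (x 0), sq_nonneg (x 1), sq_nonneg (x 2), sq_nonneg (x 3)]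
  · simp; nlinarith [sq_nonneg (x 0), sq_nonneg (x 1), sq_nonneg (x 2), sq_nonneg (x 3)]
  · simp; nlinarith [sq_nonneg (x 0), sq_nonneg (x 1), sq_nonneg (x 2), sq_nonneg (x 3)]
  · simp; nlinarith [sq_nonneg (x 0), sq_nonneg (x 1), sq_nonneg (x 2), sq_nonneg (x 3)]
  · exact absurd rfl hi

theorem inf_zco_le (k : Fin 5) (x : E5) : |zco k x| ^ 2 ≤ 4 * zz x := by
  unfold zco
  have h := fun i hi => inf_coord_le i hi x
  have h0 := h 0 (by decide)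
  have h1 := h 1 (by decide)
  have h2 := h 2 (by decide)
  have h3 := h 3 (by decide)
  simp only [sq_abs] at *
  have hz := geo_zz_nonneg x
  split_ifs <;> nlinarith

theorem tInf2 : S_Inf2 := by
  obtain ⟨B, hB, hb⟩ := cutR_deriv_bound
  refine ⟨20 * B, by positivity, ?_⟩
  intro ρ hρ
  have hρ0 : 0 < ρ := by linarith
  have hρ4 : 0 < 2 * ρ ^ 4 := by positivity
  -- the function
  obtain ⟨φ, hφd⟩ : ∃ φ : ℝ → ℝ, φ = fun s => cutR (s / (2 * ρ ^ 4)) := ⟨_, rfl⟩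
  have hφ : ContDiff ℝ (⊤ : ℕ∞) φ := by
    rw [hφd]; exact cutR_smooth.comp (contDiff_id.div_const _)
  have hφ' : ∀ s, deriv φ s = deriv cutR (s / (2 * ρ ^ 4)) / (2 * ρ ^ 4) := by
    intro s
    rw [hφd]
    have h1 : HasDerivAt (fun s : ℝ => s / (2 * ρ ^ 4)) (1 / (2 * ρ ^ 4)) s :=
      (hasDerivAt_id s).div_const _
    have h2 : HasDerivAt cutR (deriv cutR (s / (2 * ρ ^ 4))) (s / (2 * ρ ^ 4)) :=
      ((cutR_smooth.differentiable (by norm_num)) _).hasDerivAt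
    have h3 := h2.comp s h1
    have h4 : (cutR ∘ fun s : ℝ => s / (2 * ρ ^ 4)) = fun s => cutR (s / (2 * ρ ^ 4)) := rfl
    rw [h4] at h3
    rw [h3.deriv]; ring
  -- bound of the derivative times a factor
  have key : ∀ (x : E5) (q : ℂ) (M : ℝ), 0 ≤ M → (gau x ≤ 4 * ρ ^ 4 → ‖q‖ ≤ M) →
      ‖((deriv φ (gau x) : ℝ) : ℂ) * q‖ ≤ B * M / (2 * ρ ^ 4) := by
    intro x q M hM hq
    rw [norm_mul, Complex.norm_real, Real.norm_eq_abs, hφ', abs_div, abs_of_pos hρ4]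
    by_cases h : gau x ≤ 4 * ρ ^ 4
    · have h1 := hb (gau x / (2 * ρ ^ 4))
      have h2 := hq h
      calc |deriv cutR (gau x / (2 * ρ ^ 4))| / (2 * ρ ^ 4) * ‖q‖
          = |deriv cutR (gau x / (2 * ρ ^ 4))| * ‖q‖ / (2 * ρ ^ 4) := by ring
        _ ≤ B * M / (2 * ρ ^ 4) := by gcongr
    · have h1 : 2 < gau x / (2 * ρ ^ 4) := by
        rw [lt_div_iff₀ hρ4]; push Not at h; linarith
      rw [cutR_deriv_zero h1]; simp; positivity
  -- size of the variables where the derivative does not vanish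
  have hzz : ∀ x : E5, gau x ≤ 4 * ρ ^ 4 → zz x ≤ 2 * ρ ^ 2 := by
    intro x h
    unfold gau at h
    have h1 : zz x ^ 2 ≤ (2 * ρ ^ 2) ^ 2 := by nlinarith [sq_nonneg (x 4)]
    exact (le_abs_self _).trans (abs_le_of_sq_le_sq h1 (by positivity))
  have ht : ∀ x : E5, gau x ≤ 4 * ρ ^ 4 → |x 4| ≤ 2 * ρ ^ 2 := by
    intro x h
    unfold gau at h
    have h1 : |x 4| ^ 2 ≤ (2 * ρ ^ 2) ^ 2 := by rw [sq_abs]; nlinarith [sq_nonneg (zz x)]
    exact (le_abs_self _).trans (abs_le_of_sq_le_sq h1 (by positivity))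
  have hzc : ∀ (j : Fin 2) (x : E5), gau x ≤ 4 * ρ ^ 4 → ‖zc j x‖ ≤ 2 * ρ := by
    intro j x h
    have h1 : ‖zc j x‖ ^ 2 ≤ (2 * ρ) ^ 2 := by
      have := geo_zc_le j x
      have := hzz x h
      nlinarith [sq_nonneg ρ]
    exact (le_abs_self _).trans (abs_le_of_sq_le_sq h1 (by positivity))
  have hco : ∀ (i : Fin 5) (x : E5), i ≠ 4 → gau x ≤ 4 * ρ ^ 4 → |x i| ≤ 2 * ρ := by
    intro i x hi h
    have h1 : |x i| ^ 2 ≤ (2 * ρ) ^ 2 := by
      have := inf_coord_le i hi x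
      have := hzz x h
      nlinarith [sq_nonneg ρ]
    exact (le_abs_self _).trans (abs_le_of_sq_le_sq h1 (by positivity))
  have hzo : ∀ (k : Fin 5) (x : E5), gau x ≤ 4 * ρ ^ 4 → |zco k x| ≤ 3 * ρ := by
    intro k x h
    have h1 : |zco k x| ^ 2 ≤ (3 * ρ) ^ 2 := by
      have := inf_zco_le k x
      have := hzz x h
      nlinarith [sq_nonneg ρ]
    exact (le_abs_self _).trans (abs_le_of_sq_le_sq h1 (by positivity))
  have hfin : ∀ M : ℝ, M ≤ 40 * ρ ^ 3 → B * M / (2 * ρ ^ 4) ≤ 20 * B / ρ := by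
    intro M hM
    rw [div_le_div_iff₀ hρ4 hρ0]
    have h1 : B * M ≤ B * (40 * ρ ^ 3) := mul_le_mul_of_nonneg_left hM hB.le
    have h2 := mul_le_mul_of_nonneg_right h1 hρ0.le
    nlinarith
  have hρ23 : ρ ^ 2 ≤ ρ ^ 3 := pow_le_pow_right₀ hρ (by norm_num)
  have hq2 : (0 : ℝ) ≤ 2 * ρ ^ 2 := by positivity
  refine ⟨fun x => ((φ (gau x) : ℝ) : ℂ), ?_, ?_, ?_, ?_, ?_, ?_, ?_, ?_⟩
  · refine ⟨Sm.ofReal (hφ.comp gau_smooth), ?_⟩
    apply HasCompactSupport.of_support_subset_isCompact (isCompact_closedBall (0 : E5) (4 * ρ ^ 2))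
    intro x hx
    rw [mem_closedBall_zero_iff]
    by_contra hcon
    push Not at hcon
    apply hx
    have hg : 4 * ρ ^ 4 ≤ gau x := by
      by_contra hh
      push Not at hh
      have h1 := hzz x hh.le
      have h2 := ht x hh.le
      have h3 := geo_norm_sq x
      have h4 : x 4 ^ 2 ≤ (2 * ρ ^ 2) ^ 2 := by
        rw [← sq_abs (x 4)]; exact pow_le_pow_left₀ (abs_nonneg _) h2 2
      have h5 : (4 * ρ ^ 2) ^ 2 < ‖x‖ ^ 2 := pow_lt_pow_left₀ hcon (by positivity) (by norm_num)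
      have h6 : ρ ^ 2 ≤ ρ ^ 4 := pow_le_pow_right₀ hρ (by norm_num)
      nlinarith
    have h2 : cutR (gau x / (2 * ρ ^ 4)) = 0 := by
      apply cutR_zero
      rw [le_div_iff₀ hρ4]; linarith
    simp only [hφd, h2, Complex.ofReal_zero]
  · intro x
    rw [Complex.norm_real, Real.norm_eq_abs, hφd, abs_of_nonneg (cutR_nonneg _)]
    exact cutR_le_one _
  · intro x; exact Complex.conj_ofReal _
  · intro x hx
    have h1 : cutR (gau x / (2 * ρ ^ 4)) = 1 := by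
      apply cutR_one
      rw [div_le_one hρ4]
      have h2 : ‖x‖ ^ 2 ≤ ρ ^ 2 := pow_le_pow_left₀ (norm_nonneg _) hx 2
      have h3 := geo_norm_sq x
      have h4 := geo_zz_nonneg x
      have h5 : ρ ^ 2 ≤ ρ ^ 4 := pow_le_pow_right₀ hρ (by norm_num)
      have h6 : zz x ≤ ρ ^ 2 := by nlinarith [sq_nonneg (x 4)]
      have h7 : x 4 ^ 2 ≤ ρ ^ 2 := by linarith
      unfold gau
      nlinarith
    simp only [hφd, h1, Complex.ofReal_one]
  · intro j x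
    rw [inf_L_comp hφ gau_smooth, gau_L]
    refine (key x _ (16 * ρ ^ 3) (by positivity) fun h => ?_).trans (hfin _ (by nlinarith))
    have h1 := hzz x h
    have h2 := ht x h
    have h3 := hzc j x h
    have h0 := geo_zz_nonneg x
    calc ‖2 * (zz x : ℂ) * zc j x - 2 * (x 4 : ℂ) * (Complex.I * zc j x)‖
        ≤ ‖2 * (zz x : ℂ) * zc j x‖ + ‖2 * (x 4 : ℂ) * (Complex.I * zc j x)‖ := norm_sub_le _ _
      _ = 2 * zz x * ‖zc j x‖ + 2 * |x 4| * ‖zc j x‖ := by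
          simp only [norm_mul, Complex.norm_real, Complex.norm_I, Complex.norm_ofNat,
            Real.norm_eq_abs, abs_of_nonneg h0, one_mul]
      _ ≤ 2 * (2 * ρ ^ 2) * (2 * ρ) + 2 * (2 * ρ ^ 2) * (2 * ρ) := by gcongr
      _ = 16 * ρ ^ 3 := by ring
  · intro j x
    rw [inf_Lb_comp hφ gau_smooth, gau_Lb]
    refine (key x _ (16 * ρ ^ 3) (by positivity) fun h => ?_).trans (hfin _ (by nlinarith))
    have h1 := hzz x h
    have h2 := ht x h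
    have h3 := hzc j x h
    have h0 := geo_zz_nonneg x
    calc ‖2 * (zz x : ℂ) * conj (zc j x) + 2 * (x 4 : ℂ) * (Complex.I * conj (zc j x))‖
        ≤ ‖2 * (zz x : ℂ) * conj (zc j x)‖ + ‖2 * (x 4 : ℂ) * (Complex.I * conj (zc j x))‖ :=
          norm_add_le _ _
      _ = 2 * zz x * ‖zc j x‖ + 2 * |x 4| * ‖zc j x‖ := by
          simp only [norm_mul, Complex.norm_real, Complex.norm_I, Complex.norm_ofNat,
            Real.norm_eq_abs, abs_of_nonneg h0, one_mul, RCLike.norm_conj]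
      _ ≤ 2 * (2 * ρ ^ 2) * (2 * ρ) + 2 * (2 * ρ ^ 2) * (2 * ρ) := by gcongr
      _ = 16 * ρ ^ 3 := by ring
  · intro x
    rw [inf_pd_comp hφ gau_smooth, gau_pd]
    refine (key x _ (4 * ρ ^ 2) (by positivity) fun h => ?_).trans (hfin _ (by nlinarith))
    have h2 := ht x h
    simp only [if_true, norm_mul, Complex.norm_real, Complex.norm_ofNat, Real.norm_eq_abs]
    linarith
  · intro k x
    rw [inf_Zf_comp hφ gau_smooth]
    refine (key x _ (28 * ρ ^ 3) (by positivity) fun h => ?_).trans (hfin _ (by nlinarith))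
    have h1 := hzz x h
    have h2 := ht x h
    have h4 := hzo k x h
    have h0 := geo_zz_nonneg x
    unfold Zf
    rw [gau_pd, gau_pd]
    have h5 : ‖((zco k x : ℝ) : ℂ) * (if (4 : Fin 5) = 4 then 2 * (x 4 : ℂ)
        else 4 * (zz x : ℂ) * (x 4 : ℂ))‖ ≤ 3 * ρ * (2 * (2 * ρ ^ 2)) := by
      simp only [if_true, norm_mul, Complex.norm_real, Complex.norm_ofNat, Real.norm_eq_abs]
      gcongr
    have h6 : ‖(if k = 4 then 2 * (x 4 : ℂ) else 4 * (zz x : ℂ) * (x k : ℂ))‖ ≤ 16 * ρ ^ 3 := by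
      by_cases hk : k = 4
      · simp only [hk, if_true, norm_mul, Complex.norm_real, Complex.norm_ofNat,
          Real.norm_eq_abs]
        nlinarith
      · have h7 := hco k x hk h
        simp only [hk, if_false, norm_mul, Complex.norm_real, Complex.norm_ofNat,
          Real.norm_eq_abs, abs_of_nonneg h0]
        calc 4 * zz x * |x k| ≤ 4 * (2 * ρ ^ 2) * (2 * ρ) := by gcongr
          _ = 16 * ρ ^ 3 := by ring
    calc _ ≤ ‖(if k = 4 then 2 * (x 4 : ℂ) else 4 * (zz x : ℂ) * (x k : ℂ))‖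
          + ‖((zco k x : ℝ) : ℂ) * (if (4 : Fin 5) = 4 then 2 * (x 4 : ℂ)
            else 4 * (zz x : ℂ) * (x 4 : ℂ))‖ := norm_add_le _ _
      _ ≤ 16 * ρ ^ 3 + 3 * ρ * (2 * (2 * ρ ^ 2)) := add_le_add h6 h5
      _ = 28 * ρ ^ 3 := by ring

theorem tInf : S_Inf := by
  obtain ⟨C, hC, h⟩ := tInf2
  refine ⟨C, hC, fun ρ hρ => ?_⟩
  obtain ⟨χ, h1, h2, h3, h4, h5, h6, h7, -⟩ := h ρ hρ
  exact ⟨χ, h1, h2, h3, h4, h5, h6, h7⟩

end Pool.Agent.CR5
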