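import Pool.Agent.Lib.CR5.SpecB

/-!
# CR5, block B: first order operators with compactly supported coefficients

`theorem pTL : R_TL`: integrals of `c * pd i f * conj g` with `c` supported in the unit ball are
bounded by the horizontal gradients of `f` and `g`.
-/

open MeasureTheory Set Filter Topology
open scoped ENNReal ComplexConjugate

noncomputable section

namespace Pool.Agent.CR5

namespace BTL

/-! ### Coefficient functions -/

/-- Smooth functions, zero outside the open unit ball, bounded by `M` together with their first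
derivatives. -/
structure Cf (c : E5 → ℂ) (M : ℝ) : Prop where
  sm : Sm c
  out : ∀ x, 1 ≤ ‖x‖ → c x = 0
  b0 : ∀ x, ‖c x‖ ≤ M
  b1 : ∀ k x, ‖pd k c x‖ ≤ M

theorem pd_out {c : E5 → ℂ} (hs : Sm c) (h : ∀ x, 1 ≤ ‖x‖ → c x = 0) (k : Fin 5) (x : E5)
    (hx : 1 ≤ ‖x‖) : pd k c x = 0 := by
  have h1 : ∀ y : E5, 1 < ‖y‖ → pd k c y = 0 := by
    intro y hy
    have h2 : c =ᶠ[𝓝 y] fun _ => 0 := by
      have h3 : {z : E5 | 1 < ‖z‖} ∈ 𝓝 y := (isOpen_lt continuous_const continuous_norm).mem_nhds hy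
      filter_upwards [h3] with z hz
      exact h z (le_of_lt hz)
    unfold pd
    rw [h2.fderiv_eq]
    simp
  have hcl : IsClosed {y : E5 | pd k c y = 0} := isClosed_eq (hs.pd k).cont continuous_const
  have hmem : x ∈ closure {y : E5 | pd k c y = 0} := by
    rw [Metric.mem_closure_iff]
    intro ε hε
    have hx0 : 0 < ‖x‖ := lt_of_lt_of_le one_pos hx
    refine ⟨(1 + ε / (2 * ‖x‖)) • x, h1 _ ?_, ?_⟩
    · have h4 : 0 < ε / (2 * ‖x‖) := by positivity
      rw [norm_smul, Real.norm_of_nonneg (by positivity)]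
      nlinarith
    · have h5 : x - (1 + ε / (2 * ‖x‖)) • x = (-(ε / (2 * ‖x‖))) • x := by
        rw [add_smul, one_smul, neg_smul]; abel
      rw [dist_eq_norm, h5, norm_smul, norm_neg, Real.norm_of_nonneg (by positivity)]
      have h6 : ε / (2 * ‖x‖) * ‖x‖ = ε / 2 := by field_simp
      rw [h6]; linarith
  rw [hcl.closure_eq] at hmem
  exact hmem

theorem Cf.nonneg {c : E5 → ℂ} {M : ℝ} (h : Cf c M) : 0 ≤ M := (norm_nonneg _).trans (h.b0 0)

theorem Cf.conj {c : E5 → ℂ} {M : ℝ} (h : Cf c M) : Cf (fun x => conj (c x)) M where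
  sm := h.sm.conj
  out x hx := by simp [h.out x hx]
  b0 x := by simpa using h.b0 x
  b1 k x := by rw [pd_conj h.sm]; simpa using h.b1 k x

theorem Cf.mul {c h : E5 → ℂ} {M M' : ℝ} (hc : Cf c M) (hh : Sm h)
    (h0 : ∀ x, ‖x‖ ≤ 1 → ‖h x‖ ≤ M') (h1 : ∀ k x, ‖x‖ ≤ 1 → ‖pd k h x‖ ≤ M') :
    Cf (fun x => c x * h x) (2 * M * M') := by
  have hM : 0 ≤ M := hc.nonneg
  have hM' : 0 ≤ M' := (norm_nonneg _).trans (h0 0 (by simp))
  refine ⟨hc.sm.mul hh, fun x hx => ?_, fun x => ?_, fun k x => ?_⟩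
  · show c x * h x = 0
    rw [hc.out x hx, zero_mul]
  · by_cases hx : ‖x‖ ≤ 1
    · rw [norm_mul]
      have := mul_le_mul (hc.b0 x) (h0 x hx) (norm_nonneg _) hM
      nlinarith [mul_nonneg hM hM']
    · rw [hc.out x (le_of_lt (not_le.mp hx)), zero_mul, norm_zero]
      positivity
  · rw [pd_mul hc.sm hh]
    by_cases hx : ‖x‖ ≤ 1
    · refine (norm_add_le _ _).trans ?_
      rw [norm_mul, norm_mul]
      have e1 := mul_le_mul (hc.b0 x) (h1 k x hx) (norm_nonneg _) hM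
      have e2 := mul_le_mul (hc.b1 k x) (h0 x hx) (norm_nonneg _) hM
      linarith
    · have hx' := le_of_lt (not_le.mp hx)
      rw [hc.out x hx', pd_out hc.sm hc.out k x hx', zero_mul, zero_mul, add_zero, norm_zero]
      positivity

theorem Cf.smul {c : E5 → ℂ} {M : ℝ} (h : Cf c M) (t : ℂ) : Cf (fun x => t * c x) (‖t‖ * M) where
  sm := (Sm.const t).mul h.sm
  out x hx := by simp [h.out x hx]
  b0 x := by rw [norm_mul]; exact mul_le_mul_of_nonneg_left (h.b0 x) (norm_nonneg _)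
  b1 k x := by
    rw [pd_const_mul h.sm, norm_mul]; exact mul_le_mul_of_nonneg_left (h.b1 k x) (norm_nonneg _)

theorem Cf.mono {c : E5 → ℂ} {M M' : ℝ} (h : Cf c M) (hM : M ≤ M') : Cf c M' :=
  ⟨h.sm, h.out, fun x => (h.b0 x).trans hM, fun k x => (h.b1 k x).trans hM⟩

theorem Cf.pd_out {c : E5 → ℂ} {M : ℝ} (h : Cf c M) (k : Fin 5) (x : E5) (hx : 1 ≤ ‖x‖) :
    pd k c x = 0 := BTL.pd_out h.sm h.out k x hx

/-! ### Bounds for `dz`, `db` and the coordinates -/

theorem norm_half {u v : ℂ} {M : ℝ} (hu : ‖u‖ ≤ M) (hv : ‖v‖ ≤ M) :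
    ‖(u - Complex.I * v) / 2‖ ≤ M ∧ ‖(u + Complex.I * v) / 2‖ ≤ M := by
  have h1 : ‖Complex.I * v‖ ≤ M := by rwa [norm_mul, Complex.norm_I, one_mul]
  constructor
  · rw [norm_div, Complex.norm_ofNat, div_le_iff₀ (by norm_num)]
    linarith [norm_sub_le u (Complex.I * v)]
  · rw [norm_div, Complex.norm_ofNat, div_le_iff₀ (by norm_num)]
    linarith [norm_add_le u (Complex.I * v)]

theorem dz_bd {c : E5 → ℂ} {M : ℝ} {x : E5} (h : ∀ k, ‖pd k c x‖ ≤ M) (l : Fin 3) :
    ‖dz l c x‖ ≤ M := by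
  rcases fin3_cases l with rfl | rfl | rfl
  · rw [dz_zero]; exact (norm_half (h 0) (h 1)).1
  · rw [dz_one]; exact (norm_half (h 2) (h 3)).1
  · rw [dz_two]; exact h 4

theorem db_bd {c : E5 → ℂ} {M : ℝ} {x : E5} (h : ∀ k, ‖pd k c x‖ ≤ M) (l : Fin 3) :
    ‖db l c x‖ ≤ M := by
  rcases fin3_cases l with rfl | rfl | rfl
  · rw [db_zero]; exact (norm_half (h 0) (h 1)).2
  · rw [db_one]; exact (norm_half (h 2) (h 3)).2
  · rw [db_two]; exact h 4

theorem pd_coord (i k : Fin 5) (x : E5) : pd k (fun y => (y i : ℂ)) x = if i = k then 1 else 0 := by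
  unfold pd
  have h : HasFDerivAt (fun y : E5 => ((y i : ℝ) : ℂ))
      (Complex.ofRealCLM.comp (EuclideanSpace.proj i : E5 →L[ℝ] ℝ)) x :=
    (Complex.ofRealCLM.comp (EuclideanSpace.proj i : E5 →L[ℝ] ℝ)).hasFDerivAt
  rw [h.fderiv]
  by_cases hik : i = k
  · simp [e5, hik]
  · simp [e5, hik]

theorem zc_bd (j : Fin 2) (x : E5) (hx : ‖x‖ ≤ 1) : ‖zc j x‖ ≤ 1 := by
  have h1 : ‖x‖ ^ 2 = x 0 ^ 2 + x 1 ^ 2 + x 2 ^ 2 + x 3 ^ 2 + x 4 ^ 2 := by
    rw [EuclideanSpace.norm_sq_eq]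
    simp [Fin.sum_univ_succ]; ring
  have h2 : ‖x‖ ^ 2 ≤ 1 := by nlinarith [norm_nonneg x]
  have h3 : ‖zc j x‖ ^ 2 ≤ 1 := by
    unfold zc
    by_cases hj : j = 0
    · rw [if_pos hj, mul_comm, Complex.sq_norm, Complex.normSq_add_mul_I]
      nlinarith [sq_nonneg (x 2), sq_nonneg (x 3), sq_nonneg (x 4)]
    · rw [if_neg hj, mul_comm, Complex.sq_norm, Complex.normSq_add_mul_I]
      nlinarith [sq_nonneg (x 0), sq_nonneg (x 1), sq_nonneg (x 4)]
  nlinarith [norm_nonneg (zc j x)]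

theorem pd_zc_bd (j : Fin 2) (k : Fin 5) (x : E5) : ‖pd k (zc j) x‖ ≤ 1 := by
  have key : ∀ i i' : Fin 5, i ≠ i' →
      ‖pd k (fun y => (y i : ℂ) + Complex.I * (y i' : ℂ)) x‖ ≤ 1 := by
    intro i i' hi
    rw [pd_add (Sm.coord i) ((Sm.const _).mul (Sm.coord i')), pd_const_mul (Sm.coord i'), pd_coord,
      pd_coord]
    by_cases h1 : i = k
    · rw [if_pos h1, if_neg (fun h2 => hi (h1.trans h2.symm))]
      simp
    · rw [if_neg h1, zero_add]
      by_cases h2 : i' = k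
      · rw [if_pos h2]; simp
      · rw [if_neg h2]; simp
  by_cases hj : j = 0
  · have e : zc j = fun y => (y 0 : ℂ) + Complex.I * (y 1 : ℂ) := by funext y; simp [zc, hj]
    rw [e]; exact key 0 1 (by decide)
  · have e : zc j = fun y => (y 2 : ℂ) + Complex.I * (y 3 : ℂ) := by funext y; simp [zc, hj]
    rw [e]; exact key 2 3 (by decide)

/-- The difference of a structure and the standard one. -/
def bb (a : Str) (j : Fin 2) (l : Fin 3) : E5 → ℂ := fun x => a j l x - a0 j l x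

theorem bb_cf {a : Str} {m : ℕ} {ε : ℝ} (hm : 1 ≤ m) (hε : 0 ≤ ε) (ha : Near a m ε) (j : Fin 2)
    (l : Fin 3) : Cf (bb a j l) ε := by
  refine ⟨(ha.sm j l).sub (smS_a0 j l), fun x hx => ?_, fun x => ?_, fun k x => ?_⟩
  · show a j l x - a0 j l x = 0
    rw [ha.out j l x hx, sub_self]
  · have h := ha.bd j l 0 (by omega) x
    exact abs_le_of_sq_le_sq' h hε |>.2
  · have h := ha.bd j l 1 hm x
    have h1 : ‖pd k (bb a j l) x‖ ^ 2 ≤ ε ^ 2 := by
      refine le_trans ?_ h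
      show _ ≤ ∑ k : Fin 5, ‖pd k (bb a j l) x‖ ^ 2
      exact Finset.single_le_sum (f := fun k => ‖pd k (bb a j l) x‖ ^ 2)
        (fun k _ => sq_nonneg _) (Finset.mem_univ k)
    exact abs_le_of_sq_le_sq' h1 hε |>.2

theorem a_bd {a : Str} {m : ℕ} {ε : ℝ} (hm : 1 ≤ m) (hε : 0 ≤ ε) (hε1 : ε ≤ 1) (ha : Near a m ε)
    (j : Fin 2) (l : Fin 3) (x : E5) (hx : ‖x‖ ≤ 1) : ‖a j l x‖ ≤ 2 := by
  have h1 := (bb_cf hm hε ha j l).b0 x
  have h2 : ‖a0 j l x‖ ≤ 1 := by
    unfold a0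
    by_cases h : l = 2
    · rw [if_pos h, norm_neg, norm_mul, Complex.norm_I, one_mul]; exact zc_bd j x hx
    · rw [if_neg h]; simp
  have h3 : a j l x = a0 j l x + bb a j l x := by unfold bb; ring
  rw [h3]
  linarith [norm_add_le (a0 j l x) (bb a j l x)]

theorem Lb_bd {a : Str} {m : ℕ} {ε : ℝ} (hm : 1 ≤ m) (hε : 0 ≤ ε) (hε1 : ε ≤ 1) (ha : Near a m ε)
    {c : E5 → ℂ} {M : ℝ} (hc : Cf c M) (j : Fin 2) (x : E5) (hx : ‖x‖ ≤ 1) :
    ‖Lb a j c x‖ ≤ 7 * M := by
  have hM := hc.nonneg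
  have h1 : ∀ l, ‖conj (a j l x) * db l c x‖ ≤ 2 * M := fun l => by
    rw [norm_mul, RCLike.norm_conj]
    exact mul_le_mul (a_bd hm hε hε1 ha j l x hx) (db_bd (fun k => hc.b1 k x) l) (norm_nonneg _)
      (by norm_num)
  have h2 : ‖∑ l : Fin 3, conj (a j l x) * db l c x‖ ≤ 3 * (2 * M) := by
    refine (norm_sum_le _ _).trans ((Finset.sum_le_sum fun l _ => h1 l).trans ?_)
    simp
  have h3 := dz_bd (fun k => hc.b1 k x) j.castSucc
  have h4 := norm_add_le (dz j.castSucc c x) (∑ l : Fin 3, conj (a j l x) * db l c x)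
  show ‖dz j.castSucc c x + ∑ l : Fin 3, conj (a j l x) * db l c x‖ ≤ 7 * M
  linarith

theorem Lb_out {a : Str} {c : E5 → ℂ} {M : ℝ} (hc : Cf c M) (j : Fin 2) (x : E5) (hx : 1 ≤ ‖x‖) :
    Lb a j c x = 0 := by
  have h0 : ∀ k, pd k c x = 0 := fun k => hc.pd_out k x hx
  have h1 : ∀ l, db l c x = 0 := fun l => by
    have := db_bd (M := 0) (fun k => by rw [h0 k, norm_zero]) l
    exact norm_le_zero_iff.mp this
  have h2 : ∀ l, dz l c x = 0 := fun l => by
    have := dz_bd (M := 0) (fun k => by rw [h0 k, norm_zero]) l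
    exact norm_le_zero_iff.mp this
  show dz j.castSucc c x + ∑ l : Fin 3, conj (a j l x) * db l c x = 0
  simp [h1, h2]

/-! ### Integrals -/

theorem integrable_norm_sq {f : E5 → ℂ} (hf : Tst f) : Integrable (fun x => ‖f x‖ ^ 2) volume := by
  have h := (hf.conj.mul_right hf.sm).integrable.norm
  refine h.congr (Filter.Eventually.of_forall fun x => ?_)
  show ‖conj (f x) * f x‖ = ‖f x‖ ^ 2
  rw [norm_mul, RCLike.norm_conj, pow_two]

theorem integrable_gr {a : Str} (ha : SmS a) {f : E5 → ℂ} (hf : Tst f) :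
    Integrable (gr a f) volume := by
  unfold gr
  exact integrable_finsetSum _ fun j _ =>
    (integrable_norm_sq (hf.L ha j)).add (integrable_norm_sq (hf.Lb ha j))

theorem gr_nonneg (a : Str) (f : E5 → ℂ) (x : E5) : 0 ≤ gr a f x := by
  unfold gr; positivity

theorem L_le_gr (a : Str) (f : E5 → ℂ) (j : Fin 2) (x : E5) : ‖L a j f x‖ ^ 2 ≤ gr a f x := by
  unfold gr
  refine le_trans ?_ (Finset.single_le_sum (f := fun j => ‖L a j f x‖ ^ 2 + ‖Lb a j f x‖ ^ 2)
    (fun j _ => by positivity) (Finset.mem_univ j))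
  show ‖L a j f x‖ ^ 2 ≤ ‖L a j f x‖ ^ 2 + ‖Lb a j f x‖ ^ 2
  linarith [sq_nonneg ‖Lb a j f x‖]

theorem Lb_le_gr (a : Str) (f : E5 → ℂ) (j : Fin 2) (x : E5) : ‖Lb a j f x‖ ^ 2 ≤ gr a f x := by
  unfold gr
  refine le_trans ?_ (Finset.single_le_sum (f := fun j => ‖L a j f x‖ ^ 2 + ‖Lb a j f x‖ ^ 2)
    (fun j _ => by positivity) (Finset.mem_univ j))
  show ‖Lb a j f x‖ ^ 2 ≤ ‖L a j f x‖ ^ 2 + ‖Lb a j f x‖ ^ 2
  linarith [sq_nonneg ‖L a j f x‖]

theorem gr_conj {a : Str} {f : E5 → ℂ} (hf : Sm f) (x : E5) :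
    gr a (fun y => conj (f y)) x = gr a f x := by
  unfold gr
  refine Finset.sum_congr rfl fun j _ => ?_
  rw [← conj_L hf, ← conj_Lb hf, RCLike.norm_conj, RCLike.norm_conj, add_comm]

/-- Cauchy-Schwarz. -/
theorem CS {u v : E5 → ℂ} (hu : Tst u) (hv : Tst v) :
    ‖∫ x, u x * v x‖ ≤ Real.sqrt (∫ x, ‖u x‖ ^ 2) * Real.sqrt (∫ x, ‖v x‖ ^ 2) := by
  refine (norm_integral_le_integral_norm _).trans ?_
  have h := integral_mul_le_Lp_mul_Lq_of_nonneg (μ := (volume : Measure E5)) (p := 2) (q := 2)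
    Real.HolderConjugate.two_two (f := fun x => ‖u x‖) (g := fun x => ‖v x‖)
    (Filter.Eventually.of_forall fun x => norm_nonneg _)
    (Filter.Eventually.of_forall fun x => norm_nonneg _) ?_ ?_
  · simp only [norm_mul]
    refine h.trans (le_of_eq ?_)
    simp only [Real.rpow_two, Real.sqrt_eq_rpow]
  · have := hu.memLp.norm
    simpa using this
  · have := hv.memLp.norm
    simpa using this

theorem sqrt_int_le {F G : E5 → ℝ} (hG : Integrable G volume) (h0 : ∀ x, 0 ≤ F x)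
    (h : ∀ x, F x ≤ G x) : Real.sqrt (∫ x, F x) ≤ Real.sqrt (∫ x, G x) :=
  Real.sqrt_le_sqrt (integral_mono_of_nonneg (Filter.Eventually.of_forall h0) hG
    (Filter.Eventually.of_forall h))

/-- The gradient norm. -/
def G (a : Str) (f : E5 → ℂ) : ℝ := Real.sqrt (∫ x, gr a f x)

theorem G_nonneg (a : Str) (f : E5 → ℂ) : 0 ≤ G a f := Real.sqrt_nonneg _

theorem G_sq (a : Str) (f : E5 → ℂ) : G a f ^ 2 = ∫ x, gr a f x :=
  Real.sq_sqrt (integral_nonneg fun x => gr_nonneg a f x)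

theorem G_conj {a : Str} {f : E5 → ℂ} (hf : Sm f) : G a (fun y => conj (f y)) = G a f := by
  unfold G
  simp only [gr_conj hf]

theorem L_le_G {a : Str} (ha : SmS a) {f : E5 → ℂ} (hf : Tst f) (j : Fin 2) :
    Real.sqrt (∫ x, ‖L a j f x‖ ^ 2) ≤ G a f :=
  sqrt_int_le (integrable_gr ha hf) (fun x => by positivity) (L_le_gr a f j)

theorem Lb_le_G {a : Str} (ha : SmS a) {f : E5 → ℂ} (hf : Tst f) (j : Fin 2) :
    Real.sqrt (∫ x, ‖Lb a j f x‖ ^ 2) ≤ G a f :=
  sqrt_int_le (integrable_gr ha hf) (fun x => by positivity) (Lb_le_gr a f j)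

/-- The hypothesis `S_HB1` for one structure. -/
def HB (a : Str) (C : ℝ) : Prop := ∀ f : E5 → ℂ, Tst f →
  ∫ x in Metric.ball (0 : E5) 1, ‖f x‖ ^ 2 ≤ C * ∫ x, gr a f x

theorem bound_G {a : Str} (ha : SmS a) {C A B : ℝ} (hA : 0 ≤ A) (hB : 0 ≤ B) (hC : 0 ≤ C)
    (hHB : HB a C) {F f : E5 → ℂ} (hf : Tst f)
    (h1 : ∀ x, ‖x‖ < 1 → ‖F x‖ ^ 2 ≤ A * gr a f x + B * ‖f x‖ ^ 2)
    (h2 : ∀ x, 1 ≤ ‖x‖ → ‖F x‖ ^ 2 ≤ A * gr a f x) :
    Real.sqrt (∫ x, ‖F x‖ ^ 2) ≤ (1 + A + B * C) * G a f := by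
  have hi1 : Integrable (fun x => A * gr a f x) volume := (integrable_gr ha hf).const_mul A
  have hi2 : Integrable ((Metric.ball (0 : E5) 1).indicator fun x => B * ‖f x‖ ^ 2) volume :=
    ((integrable_norm_sq hf).const_mul B).indicator measurableSet_ball
  have h3 : ∫ x, ‖F x‖ ^ 2 ≤ (A + B * C) * ∫ x, gr a f x := by
    calc ∫ x, ‖F x‖ ^ 2
        ≤ ∫ x, (A * gr a f x + (Metric.ball (0 : E5) 1).indicator (fun x => B * ‖f x‖ ^ 2) x) := by
          refine integral_mono_of_nonneg (Filter.Eventually.of_forall fun x => by positivity)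
            (hi1.add hi2) (Filter.Eventually.of_forall fun x => ?_)
          show ‖F x‖ ^ 2 ≤ A * gr a f x + (Metric.ball (0 : E5) 1).indicator (fun x => B * ‖f x‖ ^ 2) x
          by_cases hx : ‖x‖ < 1
          · rw [Set.indicator_of_mem (by simpa using hx)]; exact h1 x hx
          · rw [Set.indicator_of_notMem (by simpa using not_lt.mp hx), add_zero]
            exact h2 x (not_lt.mp hx)
      _ = A * (∫ x, gr a f x) + B * ∫ x in Metric.ball (0 : E5) 1, ‖f x‖ ^ 2 := by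
          rw [integral_add hi1 hi2, integral_const_mul, integral_indicator measurableSet_ball,
            integral_const_mul]
      _ ≤ A * (∫ x, gr a f x) + B * (C * ∫ x, gr a f x) := by
          have := mul_le_mul_of_nonneg_left (hHB f hf) hB
          linarith
      _ = (A + B * C) * ∫ x, gr a f x := by ring
  have hP : 0 ≤ A + B * C := by positivity
  have hG := G_nonneg a f
  refine Real.sqrt_le_iff.mpr ⟨by positivity, h3.trans ?_⟩
  rw [mul_pow, G_sq]
  have h4 : 0 ≤ ∫ x, gr a f x := integral_nonneg fun x => gr_nonneg a f x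
  have h5 : A + B * C ≤ (1 + A + B * C) ^ 2 := by nlinarith
  exact mul_le_mul_of_nonneg_right h5 h4

theorem mul_le_G {a : Str} (ha : SmS a) {C : ℝ} (hC : 0 ≤ C) (hHB : HB a C) {c f : E5 → ℂ}
    (hc : Cf c 1) (hf : Tst f) : Real.sqrt (∫ x, ‖c x * f x‖ ^ 2) ≤ (1 + C) * G a f := by
  have h := bound_G ha (A := 0) (B := 1) le_rfl zero_le_one hC hHB (F := fun x => c x * f x) hf
    (fun x _ => ?_) (fun x hx => ?_)
  · simpa using h
  · rw [norm_mul, mul_pow, zero_mul, zero_add]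
    have h1 : ‖c x‖ ^ 2 ≤ 1 := by nlinarith [hc.b0 x, norm_nonneg (c x)]
    exact mul_le_mul_of_nonneg_right h1 (by positivity)
  · show ‖c x * f x‖ ^ 2 ≤ 0 * gr a f x
    rw [hc.out x hx]; simp

theorem Ls_le_G {a : Str} {m : ℕ} {ε : ℝ} (hm : 1 ≤ m) (hε : 0 ≤ ε) (hε1 : ε ≤ 1)
    (ha : Near a m ε) {C : ℝ} (hC : 0 ≤ C) (hHB : HB a C) {c f : E5 → ℂ}
    (hc : Cf c 1) (hf : Tst f) (j : Fin 2) (hdv : ∀ x, ‖dv a j x‖ ≤ 1) :
    Real.sqrt (∫ x, ‖Ls a j (fun y => c y * f y) x‖ ^ 2) ≤ (3 + 128 * C) * G a f := by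
  have e : ∀ x, Ls a j (fun y => c y * f y) x
      = -(c x * Lb a j f x) - (c x * dv a j x + Lb a j c x) * f x := by
    intro x
    rw [Ls_mul ha.smS hc.sm hf.sm, Ls_eq ha.smS hf.sm]; ring
  have h := bound_G ha.smS (A := 2) (B := 128) (by norm_num) (by norm_num) hC hHB
    (F := fun x => Ls a j (fun y => c y * f y) x) hf (fun x hx => ?_) (fun x hx => ?_)
  · refine h.trans (le_of_eq ?_)
    ring
  · have h1 : ‖c x * Lb a j f x‖ ≤ ‖Lb a j f x‖ := by
      rw [norm_mul]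
      have := mul_le_mul_of_nonneg_right (hc.b0 x) (norm_nonneg (Lb a j f x))
      rwa [one_mul] at this
    have h2 : ‖(c x * dv a j x + Lb a j c x) * f x‖ ≤ 8 * ‖f x‖ := by
      rw [norm_mul]
      refine mul_le_mul_of_nonneg_right ?_ (norm_nonneg _)
      refine (norm_add_le _ _).trans ?_
      rw [norm_mul]
      have h3 := mul_le_mul (hc.b0 x) (hdv x) (norm_nonneg _) zero_le_one
      have h4 := Lb_bd hm hε hε1 ha hc j x hx.le
      linarith
    have h5 : ‖Ls a j (fun y => c y * f y) x‖ ≤ ‖Lb a j f x‖ + 8 * ‖f x‖ := by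
      rw [e x]
      refine (norm_sub_le _ _).trans ?_
      rw [norm_neg]
      linarith
    have h6 := Lb_le_gr a f j x
    have h7 := norm_nonneg (Ls a j (fun y => c y * f y) x)
    have h8 : ‖Ls a j (fun y => c y * f y) x‖ ^ 2 ≤ (‖Lb a j f x‖ + 8 * ‖f x‖) ^ 2 := by
      gcongr
    nlinarith [sq_nonneg (‖Lb a j f x‖ - 8 * ‖f x‖)]
  · show ‖Ls a j (fun y => c y * f y) x‖ ^ 2 ≤ 2 * gr a f x
    rw [e x, hc.out x hx, Lb_out hc j x hx]
    have := gr_nonneg a f x
    simp only [zero_mul, add_zero, neg_zero, sub_zero, norm_zero]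
    nlinarith

/-! ### The main estimate -/

theorem scale {w : E5 → ℂ} {B : ℝ} (h : ∀ c, Cf c 1 → ‖∫ x, c x * w x‖ ≤ B) {c : E5 → ℂ} {M : ℝ}
    (hc : Cf c M) : ‖∫ x, c x * w x‖ ≤ M * B := by
  rcases eq_or_lt_of_le hc.nonneg with h0 | h0
  · have h1 : ∀ x, c x = 0 := fun x => by
      have := hc.b0 x
      rw [← h0] at this
      exact norm_le_zero_iff.mp this
    simp [h1, ← h0]
  · have h1 := h _ (by
      have := hc.smul ((M⁻¹ : ℝ) : ℂ)
      rwa [Complex.norm_of_nonneg (by positivity), inv_mul_cancel₀ h0.ne'] at this)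
    have h2 : ∀ x, ((M⁻¹ : ℝ) : ℂ) * c x * w x = ((M⁻¹ : ℝ) : ℂ) * (c x * w x) := fun x => by ring
    simp only [h2] at h1
    rw [integral_const_mul, norm_mul, Complex.norm_of_nonneg (by positivity)] at h1
    rw [inv_mul_le_iff₀ h0] at h1
    exact h1

/-- The six operators. -/
def Op (u : (E5 → ℂ) → E5 → ℂ) : Prop := (∃ l : Fin 3, u = dz l) ∨ ∃ l : Fin 3, u = db l

/-- The bound for all coefficient functions and all six operators. -/
def Bd (f g : E5 → ℂ) (K : ℝ) : Prop := ∀ c, Cf c 1 → ∀ u, Op u →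
  ‖∫ x, c x * (u f x * conj (g x))‖ ≤ K

theorem T_step {a : Str} {ε : ℝ} (hε : 0 ≤ ε) (hε1 : ε ≤ 1) (ha : Near a 2 ε) {C C0 : ℝ}
    (hC : 0 ≤ C) (hHB : HB a C) (hdv : ∀ x, ‖dv a 0 x‖ ≤ 1)
    (hCmm : S_Cmm) (hA : ∀ l, Cf (cA a 0 0 l) (C0 * ε)) (hB : ∀ l, Cf (cB a 0 0 l) (C0 * ε))
    {f g : E5 → ℂ} (hf : Tst f) (hg : Tst g) {K : ℝ} (hK : Bd f g K)
    {c : E5 → ℂ} (hc : Cf c 1) :
    ‖∫ x, c x * (pd 4 f x * conj (g x))‖ ≤ (3 + 128 * C) * (G a f * G a g) + 6 * (C0 * ε) * K := by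
  have haS := ha.smS
  have hGf := G_nonneg a f
  have hGg := G_nonneg a g
  have hP : 0 ≤ 3 + 128 * C := by positivity
  -- the first integral
  set I1 := ∫ x, L a 0 (Lb a 0 f) x * conj (conj (c x) * g x) with hI1
  have h1 : ‖I1‖ ≤ (3 + 128 * C) * (G a f * G a g) := by
    have hcg : Tst fun x => conj (c x) * g x := Tst.mul_left hc.sm.conj hg
    rw [hI1, ibp_L haS 0 (hf.Lb haS 0).sm hcg]
    refine (CS (hf.Lb haS 0) ((hcg.Ls haS 0).conj)).trans ?_
    simp only [RCLike.norm_conj]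
    have e1 := Lb_le_G haS hf 0
    have e2 := Ls_le_G (by norm_num) hε hε1 ha hC hHB hc.conj hg 0 hdv
    calc _ ≤ G a f * ((3 + 128 * C) * G a g) := mul_le_mul e1 e2 (Real.sqrt_nonneg _) hGf
      _ = _ := by ring
  -- the second integral
  set I2 := ∫ x, Lb a 0 (L a 0 f) x * (c x * conj (g x)) with hI2
  have h2 : ‖I2‖ ≤ (3 + 128 * C) * (G a f * G a g) := by
    have hcg : Tst fun x => c x * conj (g x) := Tst.mul_left hc.sm hg.conj
    have e0 : conj I2 = ∫ x, L a 0 (fun y => conj (L a 0 f y)) x * conj (c x * conj (g x)) := by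
      rw [hI2, ← integral_conj]
      refine integral_congr_ae (Filter.Eventually.of_forall fun x => ?_)
      show conj (Lb a 0 (L a 0 f) x * (c x * conj (g x))) = _
      rw [map_mul, conj_Lb (hf.L haS 0).sm]
    have e3 : ‖I2‖ = ‖conj I2‖ := (RCLike.norm_conj _).symm
    rw [e3, e0, ibp_L haS 0 (hf.L haS 0).sm.conj hcg]
    refine (CS (hf.L haS 0).conj ((hcg.Ls haS 0).conj)).trans ?_
    simp only [RCLike.norm_conj]
    have e1 := L_le_G haS hf 0
    have e2 := Ls_le_G (by norm_num) hε hε1 ha hC hHB hc hg.conj 0 hdv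
    rw [G_conj hg.sm] at e2
    calc _ ≤ G a f * ((3 + 128 * C) * G a g) := mul_le_mul e1 e2 (Real.sqrt_nonneg _) hGf
      _ = _ := by ring
  -- the error terms
  have h3 : ∀ l, ‖∫ x, c x * cA a 0 0 l x * (db l f x * conj (g x))‖ ≤ 2 * (C0 * ε) * K := fun l => by
    have hcc : Cf (fun x => c x * cA a 0 0 l x) (2 * 1 * (C0 * ε)) :=
      hc.mul (hA l).sm (fun x _ => (hA l).b0 x) (fun k x _ => (hA l).b1 k x)
    have := scale (fun c' hc' => hK c' hc' (db l) (Or.inr ⟨l, rfl⟩)) hcc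
    simpa using this
  have h4 : ∀ l, ‖∫ x, c x * cB a 0 0 l x * (dz l f x * conj (g x))‖ ≤ 2 * (C0 * ε) * K := fun l => by
    have hcc : Cf (fun x => c x * cB a 0 0 l x) (2 * 1 * (C0 * ε)) :=
      hc.mul (hB l).sm (fun x _ => (hB l).b0 x) (fun k x _ => (hB l).b1 k x)
    have := scale (fun c' hc' => hK c' hc' (dz l) (Or.inl ⟨l, rfl⟩)) hcc
    simpa using this
  have e : 2 * Complex.I * (∫ x, c x * (pd 4 f x * conj (g x))) = I1 - I2
      - ∑ l, ((∫ x, c x * cA a 0 0 l x * (db l f x * conj (g x)))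
        - ∫ x, c x * cB a 0 0 l x * (dz l f x * conj (g x))) := by
    have t1 : Tst fun x => L a 0 (Lb a 0 f) x * conj (conj (c x) * g x) :=
      Tst.mul_left ((hf.Lb haS 0).L haS 0).sm (Tst.mul_left hc.sm.conj hg).conj
    have t2 : Tst fun x => Lb a 0 (L a 0 f) x * (c x * conj (g x)) :=
      Tst.mul_left ((hf.L haS 0).Lb haS 0).sm (Tst.mul_left hc.sm hg.conj)
    have t3 : ∀ l, Tst fun x => c x * cA a 0 0 l x * (db l f x * conj (g x)) := fun l =>
      Tst.mul_left (hc.sm.mul (hA l).sm) (Tst.mul_left (hf.db l).sm hg.conj)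
    have t4 : ∀ l, Tst fun x => c x * cB a 0 0 l x * (dz l f x * conj (g x)) := fun l =>
      Tst.mul_left (hc.sm.mul (hB l).sm) (Tst.mul_left (hf.dz l).sm hg.conj)
    rw [← integral_const_mul, hI1, hI2, ← integral_sub t1.integrable t2.integrable]
    have e5 : ∀ l, (∫ x, c x * cA a 0 0 l x * (db l f x * conj (g x)))
        - (∫ x, c x * cB a 0 0 l x * (dz l f x * conj (g x)))
        = ∫ x, (c x * cA a 0 0 l x * (db l f x * conj (g x))
          - c x * cB a 0 0 l x * (dz l f x * conj (g x))) := fun l =>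
      (integral_sub (t3 l).integrable (t4 l).integrable).symm
    simp only [e5]
    rw [← integral_finsetSum _ (fun l _ => ((t3 l).sub (t4 l)).integrable),
      ← integral_sub (t1.sub t2).integrable (Tst.sum _ fun l _ => (t3 l).sub (t4 l)).integrable]
    refine integral_congr_ae (Filter.Eventually.of_forall fun x => ?_)
    have h := hCmm a haS 0 0 f hf.sm x
    rw [if_pos rfl] at h
    beta_reduce
    have h' : 2 * Complex.I * pd 4 f x = L a 0 (Lb a 0 f) x - Lb a 0 (L a 0 f) x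
        - ∑ l, (cA a 0 0 l x * db l f x - cB a 0 0 l x * dz l f x) := by rw [h]; ring
    calc 2 * Complex.I * (c x * (pd 4 f x * conj (g x)))
        = (2 * Complex.I * pd 4 f x) * (c x * conj (g x)) := by ring
      _ = _ := by
        rw [h', map_mul, Complex.conj_conj]
        simp only [Fin.sum_univ_three]
        ring
  have h5 : ‖∑ l, ((∫ x, c x * cA a 0 0 l x * (db l f x * conj (g x)))
        - ∫ x, c x * cB a 0 0 l x * (dz l f x * conj (g x)))‖ ≤ 12 * (C0 * ε) * K := by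
    refine (norm_sum_le _ _).trans ?_
    calc _ ≤ ∑ l : Fin 3, 4 * (C0 * ε) * K :=
          Finset.sum_le_sum fun l _ => (norm_sub_le _ _).trans (by linarith [h3 l, h4 l])
      _ = _ := by simp; ring
  have h6 : 2 * ‖∫ x, c x * (pd 4 f x * conj (g x))‖
      = ‖2 * Complex.I * ∫ x, c x * (pd 4 f x * conj (g x))‖ := by
    rw [norm_mul, norm_mul, Complex.norm_I, Complex.norm_ofNat]; ring
  rw [e] at h6
  have h7 := norm_sub_le (I1 - I2) (∑ l, ((∫ x, c x * cA a 0 0 l x * (db l f x * conj (g x)))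
        - ∫ x, c x * cB a 0 0 l x * (dz l f x * conj (g x))))
  have h8 := norm_sub_le I1 I2
  linarith

theorem db_step {a : Str} {ε : ℝ} (hε : 0 ≤ ε) (ha : Near a 2 ε) {C T : ℝ}
    (hC : 0 ≤ C) (hHB : HB a C) {f g : E5 → ℂ} (hf : Tst f) (hg : Tst g) {K : ℝ} (hK : Bd f g K)
    (hT : ∀ c, Cf c 1 → ‖∫ x, c x * (pd 4 f x * conj (g x))‖ ≤ T)
    {c : E5 → ℂ} (hc : Cf c 1) (j : Fin 2) :
    ‖∫ x, c x * (db j.castSucc f x * conj (g x))‖
      ≤ (1 + C) * (G a f * G a g) + 6 * ε * K + 2 * T := by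
  have haS := ha.smS
  have hGf := G_nonneg a f
  have hGg := G_nonneg a g
  set I1 := ∫ x, L a j f x * (c x * conj (g x)) with hI1
  have h1 : ‖I1‖ ≤ (1 + C) * (G a f * G a g) := by
    refine (CS (hf.L haS j) (Tst.mul_left hc.sm hg.conj)).trans ?_
    have e1 := L_le_G haS hf j
    have e2 := mul_le_G haS hC hHB hc hg.conj
    rw [G_conj hg.sm] at e2
    calc _ ≤ G a f * ((1 + C) * G a g) := mul_le_mul e1 e2 (Real.sqrt_nonneg _) hGf
      _ = _ := by ring
  have h2 : ∀ l, ‖∫ x, c x * bb a j l x * (dz l f x * conj (g x))‖ ≤ 2 * ε * K := fun l => by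
    have hb := bb_cf (by norm_num) hε ha j l
    have hcc : Cf (fun x => c x * bb a j l x) (2 * 1 * ε) :=
      hc.mul hb.sm (fun x _ => hb.b0 x) (fun k x _ => hb.b1 k x)
    have := scale (fun c' hc' => hK c' hc' (dz l) (Or.inl ⟨l, rfl⟩)) hcc
    simpa using this
  have h3 : ‖∫ x, c x * zc j x * (pd 4 f x * conj (g x))‖ ≤ 2 * T := by
    have hcc : Cf (fun x => c x * zc j x) (2 * 1 * 1) :=
      hc.mul (Sm.zc j) (fun x hx => zc_bd j x hx) (fun k x _ => pd_zc_bd j k x)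
    have := scale hT hcc
    simpa using this
  have e : (∫ x, c x * (db j.castSucc f x * conj (g x))) = I1
      - (∑ l, ∫ x, c x * bb a j l x * (dz l f x * conj (g x)))
      + Complex.I * ∫ x, c x * zc j x * (pd 4 f x * conj (g x)) := by
    have t1 : Tst fun x => L a j f x * (c x * conj (g x)) :=
      Tst.mul_left (hf.L haS j).sm (Tst.mul_left hc.sm hg.conj)
    have t2 : ∀ l, Tst fun x => c x * bb a j l x * (dz l f x * conj (g x)) := fun l =>
      Tst.mul_left (hc.sm.mul ((haS j l).sub (smS_a0 j l))) (Tst.mul_left (hf.dz l).sm hg.conj)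
    have t3 : Tst fun x => Complex.I * (c x * zc j x * (pd 4 f x * conj (g x))) :=
      Tst.mul_left (Sm.const _) (Tst.mul_left (hc.sm.mul (Sm.zc j))
        (Tst.mul_left (hf.pd 4).sm hg.conj))
    rw [hI1, ← integral_finsetSum _ (fun l _ => (t2 l).integrable),
      ← integral_sub t1.integrable (Tst.sum _ fun l _ => t2 l).integrable, ← integral_const_mul,
      ← integral_add (t1.sub (Tst.sum _ fun l _ => t2 l)).integrable t3.integrable]
    refine integral_congr_ae (Filter.Eventually.of_forall fun x => ?_)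
    have hL : L a j f x = db j.castSucc f x + ∑ l, a j l x * dz l f x := rfl
    have ha2 : a j 2 x = -(Complex.I * zc j x) + bb a j 2 x := by unfold bb a0; simp
    have ha1 : a j 1 x = bb a j 1 x := by unfold bb a0; simp
    have ha0 : a j 0 x = bb a j 0 x := by unfold bb a0; simp
    beta_reduce
    rw [hL]
    simp only [Fin.sum_univ_three, ha0, ha1, ha2, dz_two]
    ring
  have h4 : ‖∑ l, ∫ x, c x * bb a j l x * (dz l f x * conj (g x))‖ ≤ 6 * ε * K := by
    refine (norm_sum_le _ _).trans ?_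
    calc _ ≤ ∑ l : Fin 3, 2 * ε * K := Finset.sum_le_sum fun l _ => h2 l
      _ = _ := by simp; ring
  rw [e]
  have h5 := norm_add_le (I1 - ∑ l, ∫ x, c x * bb a j l x * (dz l f x * conj (g x)))
    (Complex.I * ∫ x, c x * zc j x * (pd 4 f x * conj (g x)))
  have h6 := norm_sub_le I1 (∑ l, ∫ x, c x * bb a j l x * (dz l f x * conj (g x)))
  rw [norm_mul, Complex.norm_I, one_mul] at h5
  linarith

theorem dz_step {a : Str} {ε : ℝ} (hε : 0 ≤ ε) (ha : Near a 2 ε) {C T : ℝ}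
    (hC : 0 ≤ C) (hHB : HB a C) {f g : E5 → ℂ} (hf : Tst f) (hg : Tst g) {K : ℝ} (hK : Bd f g K)
    (hT : ∀ c, Cf c 1 → ‖∫ x, c x * (pd 4 f x * conj (g x))‖ ≤ T)
    {c : E5 → ℂ} (hc : Cf c 1) (j : Fin 2) :
    ‖∫ x, c x * (dz j.castSucc f x * conj (g x))‖
      ≤ (1 + C) * (G a f * G a g) + 6 * ε * K + 2 * T := by
  have haS := ha.smS
  have hGf := G_nonneg a f
  have hGg := G_nonneg a g
  set I1 := ∫ x, Lb a j f x * (c x * conj (g x)) with hI1
  have h1 : ‖I1‖ ≤ (1 + C) * (G a f * G a g) := by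
    refine (CS (hf.Lb haS j) (Tst.mul_left hc.sm hg.conj)).trans ?_
    have e1 := Lb_le_G haS hf j
    have e2 := mul_le_G haS hC hHB hc hg.conj
    rw [G_conj hg.sm] at e2
    calc _ ≤ G a f * ((1 + C) * G a g) := mul_le_mul e1 e2 (Real.sqrt_nonneg _) hGf
      _ = _ := by ring
  have h2 : ∀ l, ‖∫ x, c x * conj (bb a j l x) * (db l f x * conj (g x))‖ ≤ 2 * ε * K := fun l => by
    have hb := (bb_cf (by norm_num) hε ha j l).conj
    have hcc : Cf (fun x => c x * conj (bb a j l x)) (2 * 1 * ε) :=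
      hc.mul hb.sm (fun x _ => hb.b0 x) (fun k x _ => hb.b1 k x)
    have := scale (fun c' hc' => hK c' hc' (db l) (Or.inr ⟨l, rfl⟩)) hcc
    simpa using this
  have h3 : ‖∫ x, c x * conj (zc j x) * (pd 4 f x * conj (g x))‖ ≤ 2 * T := by
    have hcc : Cf (fun x => c x * conj (zc j x)) (2 * 1 * 1) :=
      hc.mul (Sm.zc j).conj (fun x hx => by rw [RCLike.norm_conj]; exact zc_bd j x hx)
        (fun k x _ => by rw [pd_conj (Sm.zc j), RCLike.norm_conj]; exact pd_zc_bd j k x)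
    have := scale hT hcc
    simpa using this
  have e : (∫ x, c x * (dz j.castSucc f x * conj (g x))) = I1
      - (∑ l, ∫ x, c x * conj (bb a j l x) * (db l f x * conj (g x)))
      - Complex.I * ∫ x, c x * conj (zc j x) * (pd 4 f x * conj (g x)) := by
    have t1 : Tst fun x => Lb a j f x * (c x * conj (g x)) :=
      Tst.mul_left (hf.Lb haS j).sm (Tst.mul_left hc.sm hg.conj)
    have t2 : ∀ l, Tst fun x => c x * conj (bb a j l x) * (db l f x * conj (g x)) := fun l =>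
      Tst.mul_left (hc.sm.mul ((haS j l).sub (smS_a0 j l)).conj) (Tst.mul_left (hf.db l).sm hg.conj)
    have t3 : Tst fun x => Complex.I * (c x * conj (zc j x) * (pd 4 f x * conj (g x))) :=
      Tst.mul_left (Sm.const _) (Tst.mul_left (hc.sm.mul (Sm.zc j).conj)
        (Tst.mul_left (hf.pd 4).sm hg.conj))
    rw [hI1, ← integral_finsetSum _ (fun l _ => (t2 l).integrable),
      ← integral_sub t1.integrable (Tst.sum _ fun l _ => t2 l).integrable, ← integral_const_mul,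
      ← integral_sub (t1.sub (Tst.sum _ fun l _ => t2 l)).integrable t3.integrable]
    refine integral_congr_ae (Filter.Eventually.of_forall fun x => ?_)
    have hL : Lb a j f x = dz j.castSucc f x + ∑ l, conj (a j l x) * db l f x := rfl
    have ha2 : a j 2 x = -(Complex.I * zc j x) + bb a j 2 x := by unfold bb a0; simp
    have ha1 : a j 1 x = bb a j 1 x := by unfold bb a0; simp
    have ha0 : a j 0 x = bb a j 0 x := by unfold bb a0; simp
    beta_reduce
    rw [hL]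
    simp only [Fin.sum_univ_three, ha0, ha1, ha2, db_two, map_add, map_neg, map_mul, Complex.conj_I]
    ring
  have h4 : ‖∑ l, ∫ x, c x * conj (bb a j l x) * (db l f x * conj (g x))‖ ≤ 6 * ε * K := by
    refine (norm_sum_le _ _).trans ?_
    calc _ ≤ ∑ l : Fin 3, 2 * ε * K := Finset.sum_le_sum fun l _ => h2 l
      _ = _ := by simp; ring
  rw [e]
  have h5 := norm_sub_le (I1 - ∑ l, ∫ x, c x * conj (bb a j l x) * (db l f x * conj (g x)))
    (Complex.I * ∫ x, c x * conj (zc j x) * (pd 4 f x * conj (g x)))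
  have h6 := norm_sub_le I1 (∑ l, ∫ x, c x * conj (bb a j l x) * (db l f x * conj (g x)))
  rw [norm_mul, Complex.norm_I, one_mul] at h5
  linarith

/-- A priori bound. -/
theorem exists_Bd {f g : E5 → ℂ} (hf : Tst f) (hg : Tst g) : ∃ K, Bd f g K := by
  refine ⟨∑ l : Fin 3, ((∫ x, ‖dz l f x * conj (g x)‖) + ∫ x, ‖db l f x * conj (g x)‖), ?_⟩
  intro c hc u hu
  have key : ∀ v : E5 → ℂ, Tst v → ‖∫ x, c x * v x‖ ≤ ∫ x, ‖v x‖ := by
    intro v hv
    refine (norm_integral_le_integral_norm _).trans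
      (integral_mono_of_nonneg (Filter.Eventually.of_forall fun x => norm_nonneg _)
        hv.integrable.norm (Filter.Eventually.of_forall fun x => ?_))
    show ‖c x * v x‖ ≤ ‖v x‖
    rw [norm_mul]
    have := mul_le_mul_of_nonneg_right (hc.b0 x) (norm_nonneg (v x))
    rwa [one_mul] at this
  have hnn : ∀ l : Fin 3, 0 ≤ (∫ x, ‖dz l f x * conj (g x)‖) + ∫ x, ‖db l f x * conj (g x)‖ :=
    fun l => add_nonneg (integral_nonneg fun x => norm_nonneg _)
      (integral_nonneg fun x => norm_nonneg _)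
  rcases hu with ⟨l, rfl⟩ | ⟨l, rfl⟩
  · refine (key _ (Tst.mul_left (hf.dz l).sm hg.conj)).trans ?_
    refine le_trans ?_ (Finset.single_le_sum (fun l _ => hnn l) (Finset.mem_univ l))
    have : 0 ≤ ∫ x, ‖db l f x * conj (g x)‖ := integral_nonneg fun x => norm_nonneg _
    linarith
  · refine (key _ (Tst.mul_left (hf.db l).sm hg.conj)).trans ?_
    refine le_trans ?_ (Finset.single_le_sum (fun l _ => hnn l) (Finset.mem_univ l))
    have : 0 ≤ ∫ x, ‖dz l f x * conj (g x)‖ := integral_nonneg fun x => norm_nonneg _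
    linarith

theorem absorb {f g : E5 → ℂ} (hf : Tst f) (hg : Tst g) {A : ℝ}
    (h : ∀ K, Bd f g K → Bd f g (A + K / 2)) : Bd f g (2 * A) := by
  set S : Set ℝ := {r | ∃ c u, Cf c 1 ∧ Op u ∧ r = ‖∫ x, c x * (u f x * conj (g x))‖} with hS
  obtain ⟨K0, hK0⟩ := exists_Bd hf hg
  have hbdd : BddAbove S := ⟨K0, by rintro r ⟨c, u, hc, hu, rfl⟩; exact hK0 c hc u hu⟩
  have hne : S.Nonempty := by
    refine ⟨_, (fun _ => 0), dz 0, ⟨Sm.const 0, fun _ _ => rfl, fun _ => by simp, fun k x => ?_⟩,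
      Or.inl ⟨0, rfl⟩, rfl⟩
    rw [pd_const]; simp
  have h1 : Bd f g (sSup S) := fun c hc u hu => le_csSup hbdd ⟨c, u, hc, hu, rfl⟩
  have h2 := h _ h1
  have h3 : sSup S ≤ A + sSup S / 2 :=
    csSup_le hne (by rintro r ⟨c, u, hc, hu, rfl⟩; exact h2 c hc u hu)
  intro c hc u hu
  exact (h1 c hc u hu).trans (by linarith)

end BTL

open BTL in
theorem pTL : R_TL := by
  intro hCmm hCfs hHB1 hHar
  obtain ⟨C0, hC0, hCfs⟩ := hCfs
  obtain ⟨ε1, hε1, C, hC, hHB1⟩ := hHB1 hHar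
  set ε : ℝ := min ε1 (1 / (24 * C0 + 12)) with hε
  have hC0' : 0 < C0 := lt_of_lt_of_le one_pos hC0
  have hε0 : 0 < ε := lt_min hε1 (by positivity)
  have hεs : ε * (24 * C0 + 12) ≤ 1 := by
    have h := min_le_right ε1 (1 / (24 * C0 + 12))
    rw [← hε, le_div_iff₀ (by positivity)] at h
    exact h
  have hεone : ε ≤ 1 := by nlinarith
  have hC0ε : C0 * ε ≤ 1 := by nlinarith
  set A0 : ℝ := (1 + C) + 2 * (3 + 128 * C) with hA0
  have hA0p : 0 < A0 := by positivity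
  refine ⟨ε, hε0, 4 * A0, by positivity, ?_⟩
  intro a ha c M hcs hco hc0 hc1 i f g hf hg
  obtain ⟨hcA, hcB, hdv⟩ := hCfs a ε hε0 hεone ha
  have hA : ∀ l, Cf (cA a 0 0 l) (C0 * ε) := fun l =>
    ⟨(hcA 0 0 l).1, (hcA 0 0 l).2.1, (hcA 0 0 l).2.2.1, (hcA 0 0 l).2.2.2⟩
  have hB : ∀ l, Cf (cB a 0 0 l) (C0 * ε) := fun l =>
    ⟨(hcB 0 0 l).1, (hcB 0 0 l).2.1, (hcB 0 0 l).2.2.1, (hcB 0 0 l).2.2.2⟩
  have hdv1 : ∀ x, ‖dv a 0 x‖ ≤ 1 := fun x => ((hdv 0).2.2.1 x).trans hC0ε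
  have hHB : HB a C := hHB1 a ⟨ha.sm, ha.out, fun j l i hi x => (ha.bd j l i (by omega) x).trans (by
    have := min_le_left ε1 (1 / (24 * C0 + 12))
    rw [← hε] at this
    gcongr)⟩
  have hGf := G_nonneg a f
  have hGg := G_nonneg a g
  have hGG : 0 ≤ G a f * G a g := mul_nonneg hGf hGg
  have hmain : Bd f g (2 * (A0 * (G a f * G a g))) := by
    refine absorb hf hg fun K hK => ?_
    have hK0 : 0 ≤ K := (norm_nonneg _).trans
      (hK (fun _ => 0) ⟨Sm.const 0, fun _ _ => rfl, fun _ => by simp, fun k x => by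
        rw [pd_const]; simp⟩ (dz 0) (Or.inl ⟨0, rfl⟩))
    set T : ℝ := (3 + 128 * C) * (G a f * G a g) + 6 * (C0 * ε) * K with hT
    have hT1 : ∀ c, Cf c 1 → ‖∫ x, c x * (pd 4 f x * conj (g x))‖ ≤ T := fun c hc =>
      T_step hε0.le hεone ha hC.le hHB hdv1 hCmm hA hB hf hg hK hc
    have hfin : (1 + C) * (G a f * G a g) + 6 * ε * K + 2 * T
        ≤ A0 * (G a f * G a g) + K / 2 := by
      have h1 : (6 * ε + 12 * (C0 * ε)) * K ≤ 1 / 2 * K :=
        mul_le_mul_of_nonneg_right (by nlinarith) hK0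
      rw [hT, hA0]
      nlinarith
    have hT0 : 0 ≤ T := by positivity
    have hTfin : T ≤ A0 * (G a f * G a g) + K / 2 := by
      have : 0 ≤ (1 + C) * (G a f * G a g) + 6 * ε * K := by positivity
      linarith
    have h2 : ∀ l : Fin 3, l = 0 ∨ l = 1 ∨ l = 2 := fin3_cases
    intro c hc u hu
    rcases hu with ⟨l, rfl⟩ | ⟨l, rfl⟩
    · rcases h2 l with rfl | rfl | rfl
      · exact (dz_step hε0.le ha hC.le hHB hf hg hK hT1 hc 0).trans hfin
      · exact (dz_step hε0.le ha hC.le hHB hf hg hK hT1 hc 1).trans hfin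
      · simp only [dz_two]
        exact (hT1 c hc).trans hTfin
    · rcases h2 l with rfl | rfl | rfl
      · exact (db_step hε0.le ha hC.le hHB hf hg hK hT1 hc 0).trans hfin
      · exact (db_step hε0.le ha hC.le hHB hf hg hK hT1 hc 1).trans hfin
      · simp only [db_two]
        exact (hT1 c hc).trans hTfin
  have hcM : Cf c M := ⟨hcs, hco, hc0, hc1⟩
  have hM := hcM.nonneg
  have hall : ∀ u, Op u → ‖∫ x, c x * (u f x * conj (g x))‖ ≤ M * (2 * (A0 * (G a f * G a g))) :=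
    fun u hu => scale (fun c' hc' => hmain c' hc' u hu) hcM
  have e1 : ∀ x, c x * pd i f x * conj (g x) = c x * (pd i f x * conj (g x)) := fun x => by ring
  simp only [e1]
  show _ ≤ 4 * A0 * M * G a f * G a g
  have hbig : M * (2 * (A0 * (G a f * G a g))) + M * (2 * (A0 * (G a f * G a g)))
      = 4 * A0 * M * G a f * G a g := by ring
  have hpos : 0 ≤ M * (2 * (A0 * (G a f * G a g))) := by positivity
  have td : ∀ l, Tst fun x => c x * (dz l f x * conj (g x)) := fun l =>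
    Tst.mul_left hcs (Tst.mul_left (hf.dz l).sm hg.conj)
  have tb : ∀ l, Tst fun x => c x * (db l f x * conj (g x)) := fun l =>
    Tst.mul_left hcs (Tst.mul_left (hf.db l).sm hg.conj)
  have hd := fun l : Fin 3 => hall (dz l) (Or.inl ⟨l, rfl⟩)
  have hb := fun l : Fin 3 => hall (db l) (Or.inr ⟨l, rfl⟩)
  have plus : ∀ l : Fin 3, ‖∫ x, c x * ((dz l f x + db l f x) * conj (g x))‖
      ≤ 4 * A0 * M * G a f * G a g := by
    intro l
    have e2 : ∀ x, c x * ((dz l f x + db l f x) * conj (g x))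
        = c x * (dz l f x * conj (g x)) + c x * (db l f x * conj (g x)) := fun x => by ring
    simp only [e2]
    rw [integral_add (td l).integrable (tb l).integrable]
    exact (norm_add_le _ _).trans ((add_le_add (hd l) (hb l)).trans hbig.le)
  have minus : ∀ l : Fin 3, ‖∫ x, c x * (Complex.I * (dz l f x - db l f x) * conj (g x))‖
      ≤ 4 * A0 * M * G a f * G a g := by
    intro l
    have e2 : ∀ x, c x * (Complex.I * (dz l f x - db l f x) * conj (g x))
        = Complex.I * (c x * (dz l f x * conj (g x)) - c x * (db l f x * conj (g x))) :=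
      fun x => by ring
    simp only [e2]
    rw [integral_const_mul, integral_sub (td l).integrable (tb l).integrable, norm_mul,
      Complex.norm_I, one_mul]
    exact (norm_sub_le _ _).trans ((add_le_add (hd l) (hb l)).trans hbig.le)
  have hi : i = 0 ∨ i = 1 ∨ i = 2 ∨ i = 3 ∨ i = 4 := by fin_cases i <;> simp
  have hII : Complex.I * Complex.I = -1 := Complex.I_mul_I
  rcases hi with rfl | rfl | rfl | rfl | rfl
  · have e3 : ∀ x, pd 0 f x = dz 0 f x + db 0 f x := fun x => by rw [dz_zero, db_zero]; ring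
    simp only [e3]
    exact plus 0
  · have e3 : ∀ x, pd 1 f x = Complex.I * (dz 0 f x - db 0 f x) := fun x => by
      rw [dz_zero, db_zero]; linear_combination (pd 1 f x) * hII
    simp only [e3]
    exact minus 0
  · have e3 : ∀ x, pd 2 f x = dz 1 f x + db 1 f x := fun x => by rw [dz_one, db_one]; ring
    simp only [e3]
    exact plus 1
  · have e3 : ∀ x, pd 3 f x = Complex.I * (dz 1 f x - db 1 f x) := fun x => by
      rw [dz_one, db_one]; linear_combination (pd 3 f x) * hII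
    simp only [e3]
    exact minus 1
  · have h := hd 2
    simp only [dz_two] at h
    linarith

end Pool.Agent.CR5
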