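import Pool.Agent.Lib.CR5.Iface

/-!
# CR5, block B: derivatives of the coordinates and of `|z|²`
-/

open MeasureTheory Set Filter Topology
open scoped ENNReal ComplexConjugate

noncomputable section

namespace Pool.Agent.CR5

/-! ### Partial derivatives of the coordinates -/

theorem geo_fderiv_coord (i : Fin 5) (x : E5) :
    HasFDerivAt (fun y : E5 => y i) (EuclideanSpace.proj i : E5 →L[ℝ] ℝ) x :=
  (EuclideanSpace.proj i : E5 →L[ℝ] ℝ).hasFDerivAt

theorem geo_pd_coord (k i : Fin 5) (x : E5) :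
    pd k (fun y => (y i : ℂ)) x = if k = i then 1 else 0 := by
  unfold pd
  have h : HasFDerivAt (fun y : E5 => ((y i : ℝ) : ℂ))
      (Complex.ofRealCLM.comp (EuclideanSpace.proj i : E5 →L[ℝ] ℝ)) x :=
    Complex.ofRealCLM.hasFDerivAt.comp x (geo_fderiv_coord i x)
  rw [h.fderiv]
  simp only [e5, ContinuousLinearMap.comp_apply, Complex.ofRealCLM_apply]
  by_cases hk : k = i
  · subst hk; simp
  · have hk' : i ≠ k := fun h => hk h.symm
    simp [hk, hk']

theorem geo_pd_zc0 (k : Fin 5) (x : E5) :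
    pd k (zc 0) x = (if k = 0 then 1 else 0) + Complex.I * (if k = 1 then 1 else 0) := by
  have h : zc 0 = fun y => (y 0 : ℂ) + Complex.I * (y 1 : ℂ) := by funext y; simp [zc]
  rw [h, pd_add (Sm.coord 0) ((Sm.const _).mul (Sm.coord 1)), pd_const_mul (Sm.coord 1),
    geo_pd_coord, geo_pd_coord]

theorem geo_pd_zc1 (k : Fin 5) (x : E5) :
    pd k (zc 1) x = (if k = 2 then 1 else 0) + Complex.I * (if k = 3 then 1 else 0) := by
  have h : zc 1 = fun y => (y 2 : ℂ) + Complex.I * (y 3 : ℂ) := by funext y; simp [zc]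
  rw [h, pd_add (Sm.coord 2) ((Sm.const _).mul (Sm.coord 3)), pd_const_mul (Sm.coord 3),
    geo_pd_coord, geo_pd_coord]

/-- `∂ z_j / ∂ z_l`. -/
theorem geo_dz_zc (l : Fin 3) (j : Fin 2) (x : E5) :
    dz l (zc j) x = if l = j.castSucc then 1 else 0 := by
  rcases fin3_cases l with rfl | rfl | rfl <;> fin_cases j <;>
    simp [dz_zero, dz_one, dz_two, geo_pd_zc0, geo_pd_zc1]

/-- `∂ z_j / ∂ z̄_l`. -/
theorem geo_db_zc (l : Fin 3) (j : Fin 2) (x : E5) : db l (zc j) x = 0 := by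
  rcases fin3_cases l with rfl | rfl | rfl <;> fin_cases j <;>
    simp [db_zero, db_one, db_two, geo_pd_zc0, geo_pd_zc1]

theorem geo_dz_zb (l : Fin 3) (j : Fin 2) (x : E5) :
    dz l (fun y => conj (zc j y)) x = 0 := by
  rw [dz_conj (Sm.zc j), geo_db_zc, map_zero]

theorem geo_db_zb (l : Fin 3) (j : Fin 2) (x : E5) :
    db l (fun y => conj (zc j y)) x = if l = j.castSucc then 1 else 0 := by
  rw [db_conj (Sm.zc j), geo_dz_zc]
  split_ifs <;> simp

theorem geo_dz_t (l : Fin 3) (x : E5) :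
    dz l (fun y => (y 4 : ℂ)) x = if l = 2 then 1 else 0 := by
  rcases fin3_cases l with rfl | rfl | rfl <;>
    simp [dz_zero, dz_one, dz_two, geo_pd_coord]

theorem geo_db_t (l : Fin 3) (x : E5) :
    db l (fun y => (y 4 : ℂ)) x = if l = 2 then 1 else 0 := by
  rcases fin3_cases l with rfl | rfl | rfl <;>
    simp [db_zero, db_one, db_two, geo_pd_coord]

/-! ### `|z|²` -/

theorem geo_zz (x : E5) : (zz x : ℂ) = zc 0 x * conj (zc 0 x) + zc 1 x * conj (zc 1 x) := by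
  simp only [zz, zc]
  simp only [if_true, Fin.isValue, one_ne_zero, if_false, map_add, map_mul, Complex.conj_ofReal,
    Complex.conj_I]
  push_cast
  linear_combination ((x 1 : ℂ) ^ 2 + (x 3 : ℂ) ^ 2) * Complex.I_sq

theorem geo_zz_norm (x : E5) : zz x = ‖zc 0 x‖ ^ 2 + ‖zc 1 x‖ ^ 2 := by
  have h := geo_zz x
  rw [Complex.mul_conj, Complex.mul_conj, Complex.normSq_eq_norm_sq, Complex.normSq_eq_norm_sq]
    at h
  exact_mod_cast h

theorem geo_zz_nonneg (x : E5) : 0 ≤ zz x := by unfold zz; positivity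

theorem geo_zc_le (j : Fin 2) (x : E5) : ‖zc j x‖ ^ 2 ≤ zz x := by
  rw [geo_zz_norm]
  fin_cases j
  · have := sq_nonneg ‖zc 1 x‖; simp
  · have := sq_nonneg ‖zc 0 x‖; simp

theorem geo_norm_sq (x : E5) : ‖x‖ ^ 2 = zz x + x 4 ^ 2 := by
  rw [EuclideanSpace.norm_sq_eq, Fin.sum_univ_five]
  simp only [Real.norm_eq_abs, sq_abs, zz]

theorem geo_zz_le (x : E5) : zz x ≤ ‖x‖ ^ 2 := by
  rw [geo_norm_sq]; have := sq_nonneg (x 4); linarith

theorem geo_contDiff_zz : ContDiff ℝ (⊤ : ℕ∞) zz := by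
  unfold zz
  exact (((((contDiff_coord 0).pow 2).add ((contDiff_coord 1).pow 2)).add
    ((contDiff_coord 2).pow 2)).add ((contDiff_coord 3).pow 2))

theorem Sm.zz : Sm fun x => (zz x : ℂ) := Sm.ofReal geo_contDiff_zz

theorem geo_zz_fun : (fun x => (zz x : ℂ))
    = fun x => zc 0 x * conj (zc 0 x) + zc 1 x * conj (zc 1 x) := by
  funext x; exact geo_zz x

theorem geo_dz_zz (l : Fin 3) (x : E5) :
    dz l (fun y => (CR5.zz y : ℂ)) x
      = (if l = 0 then conj (zc 0 x) else 0) + (if l = 1 then conj (zc 1 x) else 0) := by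
  rw [geo_zz_fun, dz_add ((Sm.zc 0).mul (Sm.zc 0).conj) ((Sm.zc 1).mul (Sm.zc 1).conj),
    dz_mul (Sm.zc 0) (Sm.zc 0).conj, dz_mul (Sm.zc 1) (Sm.zc 1).conj, geo_dz_zc, geo_dz_zc,
    geo_dz_zb, geo_dz_zb]
  rcases fin3_cases l with rfl | rfl | rfl <;> simp

theorem geo_db_zz (l : Fin 3) (x : E5) :
    db l (fun y => (CR5.zz y : ℂ)) x
      = (if l = 0 then zc 0 x else 0) + (if l = 1 then zc 1 x else 0) := by
  rw [geo_zz_fun, db_add ((Sm.zc 0).mul (Sm.zc 0).conj) ((Sm.zc 1).mul (Sm.zc 1).conj),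
    db_mul (Sm.zc 0) (Sm.zc 0).conj, db_mul (Sm.zc 1) (Sm.zc 1).conj, geo_db_zc, geo_db_zc,
    geo_db_zb, geo_db_zb]
  rcases fin3_cases l with rfl | rfl | rfl <;> simp

/-! ### The standard structure -/

theorem geo_L0 (j : Fin 2) (f : E5 → ℂ) (x : E5) :
    L a0 j f x = db j.castSucc f x - Complex.I * zc j x * pd 4 f x := by
  simp only [L, a0, Fin.sum_univ_three, dz_two]
  simp
  ring

theorem geo_Lb0 (j : Fin 2) (f : E5 → ℂ) (x : E5) :
    Lb a0 j f x = dz j.castSucc f x + Complex.I * conj (zc j x) * pd 4 f x := by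
  simp only [Lb, a0, Fin.sum_univ_three, db_two]
  simp

theorem geo_L0_zz (j : Fin 2) (x : E5) : L a0 j (fun y => (CR5.zz y : ℂ)) x = zc j x := by
  rw [geo_L0, ← dz_two, geo_dz_zz, geo_db_zz]
  fin_cases j <;> simp

theorem geo_Lb0_zz (j : Fin 2) (x : E5) :
    Lb a0 j (fun y => (CR5.zz y : ℂ)) x = conj (zc j x) := by
  rw [geo_Lb0, ← dz_two, geo_dz_zz, geo_dz_zz]
  fin_cases j <;> simp

theorem geo_L0_t (j : Fin 2) (x : E5) :
    L a0 j (fun y => (y 4 : ℂ)) x = -(Complex.I * zc j x) := by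
  rw [geo_L0, geo_db_t, geo_pd_coord]
  fin_cases j <;> simp

theorem geo_Lb0_t (j : Fin 2) (x : E5) :
    Lb a0 j (fun y => (y 4 : ℂ)) x = Complex.I * conj (zc j x) := by
  rw [geo_Lb0, geo_dz_t, geo_pd_coord]
  fin_cases j <;> simp

end Pool.Agent.CR5
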