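import Pool.Agent.Lib.CR5.SpecB

/-!
# CR5, block B: the commutator of `L j` and `Lb k` (helper63)

Proof of `S_Cmm`, following the docstring in `SpecB`.
-/

open MeasureTheory Set Filter Topology
open scoped ENNReal ComplexConjugate

noncomputable section

namespace Pool.Agent.CR5

namespace BCmm

/-- `L j (Lb k f)` expanded -/
private theorem ex1 {a : Str} (ha : SmS a) (j k : Fin 2) {f : E5 → ℂ} (hf : Sm f) (x : E5) :
    L a j (Lb a k f) x = db j.castSucc (dz k.castSucc f) x
      + ∑ l, (conj (a k l x) * db j.castSucc (db l f) x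
        + db j.castSucc (fun y => conj (a k l y)) x * db l f x)
      + ∑ m, a j m x * (dz m (dz k.castSucc f) x + ∑ l, (conj (a k l x) * dz m (db l f) x
        + dz m (fun y => conj (a k l y)) x * db l f x)) := by
  have h0 : Lb a k f = fun y => dz k.castSucc f y + ∑ l, conj (a k l y) * db l f y := rfl
  have h1 : ∀ m, dz m (Lb a k f) x = dz m (dz k.castSucc f) x
      + ∑ l, (conj (a k l x) * dz m (db l f) x
        + dz m (fun y => conj (a k l y)) x * db l f x) := by
    intro m
    rw [h0, dz_add (hf.dz _) (Sm.sum _ fun l _ => (ha k l).conj.mul (hf.db l)),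
      dz_sum _ (fun l _ => (ha k l).conj.mul (hf.db l))]
    simp only [dz_mul (ha k _).conj (hf.db _)]
  have h2 : db j.castSucc (Lb a k f) x = db j.castSucc (dz k.castSucc f) x
      + ∑ l, (conj (a k l x) * db j.castSucc (db l f) x
        + db j.castSucc (fun y => conj (a k l y)) x * db l f x) := by
    rw [h0, db_add (hf.dz _) (Sm.sum _ fun l _ => (ha k l).conj.mul (hf.db l)),
      db_sum _ (fun l _ => (ha k l).conj.mul (hf.db l))]
    simp only [db_mul (ha k _).conj (hf.db _)]
  show db j.castSucc (Lb a k f) x + ∑ m, a j m x * dz m (Lb a k f) x = _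
  rw [h2]
  simp only [h1]

/-- `Lb k (L j f)` expanded -/
private theorem ex2 {a : Str} (ha : SmS a) (j k : Fin 2) {f : E5 → ℂ} (hf : Sm f) (x : E5) :
    Lb a k (L a j f) x = dz k.castSucc (db j.castSucc f) x
      + ∑ l, (a j l x * dz k.castSucc (dz l f) x + dz k.castSucc (a j l) x * dz l f x)
      + ∑ m, conj (a k m x) * (db m (db j.castSucc f) x
        + ∑ l, (a j l x * db m (dz l f) x + db m (a j l) x * dz l f x)) := by
  have h0 : L a j f = fun y => db j.castSucc f y + ∑ l, a j l y * dz l f y := rfl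
  have h1 : ∀ m, db m (L a j f) x = db m (db j.castSucc f) x
      + ∑ l, (a j l x * db m (dz l f) x + db m (a j l) x * dz l f x) := by
    intro m
    rw [h0, db_add (hf.db _) (Sm.sum _ fun l _ => (ha j l).mul (hf.dz l)),
      db_sum _ (fun l _ => (ha j l).mul (hf.dz l))]
    simp only [db_mul (ha j _) (hf.dz _)]
  have h2 : dz k.castSucc (L a j f) x = dz k.castSucc (db j.castSucc f) x
      + ∑ l, (a j l x * dz k.castSucc (dz l f) x + dz k.castSucc (a j l) x * dz l f x) := by
    rw [h0, dz_add (hf.db _) (Sm.sum _ fun l _ => (ha j l).mul (hf.dz l)),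
      dz_sum _ (fun l _ => (ha j l).mul (hf.dz l))]
    simp only [dz_mul (ha j _) (hf.dz _)]
  show dz k.castSucc (L a j f) x + ∑ m, conj (a k m x) * db m (L a j f) x = _
  rw [h2]
  simp only [h1]

end BCmm

open BCmm in
/-- **Cmm** -/
theorem pCmm : S_Cmm := by
  intro a ha j k f hf x
  have n0 : ¬ ((0 : Fin 3) = 2) := by decide
  have n1 : ¬ ((1 : Fin 3) = 2) := by decide
  rw [ex1 ha j k hf x, ex2 ha j k hf x, db_dz hf j.castSucc k.castSucc]
  simp only [cA, cB, L, Lb, Fin.sum_univ_three, n0, n1, and_false, if_false, and_true,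
    db_dz hf 0, db_dz hf 1, db_dz hf 2]
  rw [db_db hf 0 j.castSucc, db_db hf 1 j.castSucc, db_db hf 2 j.castSucc,
    dz_dz hf 0 k.castSucc, dz_dz hf 1 k.castSucc, dz_dz hf 2 k.castSucc, db_two f, dz_two f]
  by_cases hjk : j = k
  · simp only [hjk, if_true]
    ring
  · simp only [hjk, if_false]
    ring

end Pool.Agent.CR5
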